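import Pool.Agent.Lib_MP_852c2d_ts.Model

set_option autoImplicit false

/-!
# Piece CT: the average number of counted pairs

PROOF. `avg (card) = ∑ q, avg (ind (Cnt ω q))` (`avg_sum`). For `q = (i, j)` with `i` even and
`n ≤ 2 (i + j) < 3 n` the probability is at least `1/4`:
`ind (Cnt) ≥ ind (p ≤ c_i < 2p) - ∑_{a} ind (p ≤ c_i < 2p ∧ cell a = cell i)`, the sum over the even
`a ∈ grp n s`, `a ≠ i`, at most `(n + 1) / 2` of them; `P (p ≤ c_i < 2p) = 1/3`,
`P (p ≤ c_i < 2p ∧ cell a = cell i) ≤ 1/(3 * 3p)` (for `a ≠ i`: given `c_i`, at most one value of `c_a`;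
`avg_update a`), so the probability is at least `1/3 (1 - (n+1)/2 / (3p)) ≥ 1/4` (`p > n ≥ 1000`).
The number of such pairs is at least `n^2/5`: every even `i < n` (at least `n / 2` of them) has at
least `n / 2 - 1` such `j` (for `2 i < n`: all `j` with `n ≤ 2 (i + j)`, `j < n` — then `2 (i + j) < 3 n`
because `2 i < n` —, at least `n/2` of them; for `2 i ≥ n`: all `j` with `2 j ≤ n - 1`, since
`2 i + 2 j < 2 n + n`).
-/

namespace Pool.Agent.Lib_MP_852c2d_ts

open Finset

/-- the cell number of `i` is in the middle third -/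
private def Mid {n p : ℕ} (ω : Om n p) (i : Fin n) : Prop :=
  p ≤ ((ω i).1 : ℕ) ∧ ((ω i).1 : ℕ) < 2 * p

private theorem card_mid (p : ℕ) [DecidablePred fun b : Fin (3 * p) × Bool =>
    p ≤ (b.1 : ℕ) ∧ (b.1 : ℕ) < 2 * p] :
    (univ.filter fun b : Fin (3 * p) × Bool => p ≤ (b.1 : ℕ) ∧ (b.1 : ℕ) < 2 * p).card = 2 * p := by
  have h1 : (univ.filter fun b : Fin (3 * p) × Bool => p ≤ (b.1 : ℕ) ∧ (b.1 : ℕ) < 2 * p) =
      (univ.filter fun a : Fin (3 * p) => p ≤ (a : ℕ) ∧ (a : ℕ) < 2 * p) ×ˢ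
        (univ : Finset Bool) := by
    ext b
    simp [Finset.mem_product]
  have h2 : (univ.filter fun a : Fin (3 * p) => p ≤ (a : ℕ) ∧ (a : ℕ) < 2 * p).card = p := by
    have h3 : ((univ.filter fun a : Fin (3 * p) => p ≤ (a : ℕ) ∧ (a : ℕ) < 2 * p).map
        Fin.valEmbedding) = Finset.Ico p (2 * p) := by
      ext x
      simp only [Finset.mem_map, Finset.mem_filter, Finset.mem_univ, true_and, Finset.mem_Ico,
        Fin.valEmbedding_apply]
      constructor
      · rintro ⟨a, ha, rfl⟩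
        exact ha
      · intro hx
        exact ⟨⟨x, by omega⟩, hx, rfl⟩
    rw [← Finset.card_map, h3, Nat.card_Ico]
    omega
  rw [h1, Finset.card_product, h2, Finset.card_univ, Fintype.card_bool]
  ring

private theorem avg_mid {n p : ℕ} (hp : 0 < p) (i : Fin n) :
    avg (fun ω : Om n p => ind (Mid ω i)) = 1 / 3 := by
  classical
  have : NeZero (3 * p) := ⟨by omega⟩
  rw [avg_update i]
  have h1 : ∀ w : Om n p, avg (fun b : Fin (3 * p) × Bool =>
      ind (Mid (Function.update w i b) i)) = 1 / 3 := by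
    intro w
    have h2 : (fun b : Fin (3 * p) × Bool => ind (Mid (Function.update w i b) i)) =
        fun b => ind (p ≤ (b.1 : ℕ) ∧ (b.1 : ℕ) < 2 * p) := by
      funext b
      unfold Mid
      rw [Function.update_self]
    rw [h2, avg_ind, card_mid, Fintype.card_prod, Fintype.card_fin, Fintype.card_bool]
    have hp' : (p : ℝ) ≠ 0 := by exact_mod_cast hp.ne'
    push_cast
    field_simp
  simp only [h1]
  exact avg_const _

private theorem avg_col {n p : ℕ} (hp : 0 < p) (s : ℕ) (i a : Fin n) (hai : a ≠ i) :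
    avg (fun ω : Om n p => ind (Mid ω i ∧ cell ω s a = cell ω s i)) ≤ 1 / (9 * p) := by
  classical
  have : NeZero (3 * p) := ⟨by omega⟩
  have hp' : (0 : ℝ) < p := by exact_mod_cast hp
  rw [avg_update a]
  have h1 : ∀ w : Om n p, avg (fun b : Fin (3 * p) × Bool =>
      ind (Mid (Function.update w a b) i ∧ cell (Function.update w a b) s a =
        cell (Function.update w a b) s i)) ≤ 1 / (3 * p) * ind (Mid w i) := by
    intro w
    have h2 : ∀ b : Fin (3 * p) × Bool,
        ind (Mid (Function.update w a b) i ∧ cell (Function.update w a b) s a =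
        cell (Function.update w a b) s i) ≤
          ind (Mid w i) * ind ((b.1 : ℕ) + e p (s - a) = cell w s i) := by
      intro b
      have h3 : Function.update w a b i = w i := Function.update_of_ne hai.symm _ _
      have h4 : Mid (Function.update w a b) i = Mid w i := by
        unfold Mid
        rw [h3]
      have h5 : cell (Function.update w a b) s a = (b.1 : ℕ) + e p (s - a) := by
        unfold cell
        rw [Function.update_self]
      have h6 : cell (Function.update w a b) s i = cell w s i := by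
        unfold cell
        rw [h3]
      rw [h4, h5, h6]
      unfold ind
      by_cases h7 : Mid w i
      · by_cases h8 : (b.1 : ℕ) + e p (s - a) = cell w s i
        · rw [if_pos ⟨h7, h8⟩, if_pos h7, if_pos h8, mul_one]
        · rw [if_neg (fun h => h8 h.2), if_neg h8, mul_zero]
      · rw [if_neg (fun h => h7 h.1), if_neg h7, zero_mul]
    refine (avg_mono h2).trans ?_
    rw [avg_mul_left, mul_comm]
    refine mul_le_mul_of_nonneg_right ?_ (ind_nonneg _)
    rw [avg_ind, Fintype.card_prod, Fintype.card_fin, Fintype.card_bool]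
    have h9 : (univ.filter fun b : Fin (3 * p) × Bool =>
        (b.1 : ℕ) + e p (s - a) = cell w s i).card ≤ 2 := by
      have h10 : (univ.filter fun b : Fin (3 * p) × Bool =>
          (b.1 : ℕ) + e p (s - a) = cell w s i).card ≤ (univ : Finset Bool).card := by
        refine Finset.card_le_card_of_injOn (fun b => b.2) (fun b _ => Finset.mem_univ _) ?_
        intro b hb c hc hbc
        rw [Finset.mem_coe, Finset.mem_filter] at hb hc
        have h11 : (b.1 : ℕ) = c.1 := by
          have := hb.2.trans hc.2.symm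
          omega
        exact Prod.ext (Fin.ext h11) hbc
      simpa using h10
    have h12 : ((univ.filter fun b : Fin (3 * p) × Bool =>
        (b.1 : ℕ) + e p (s - a) = cell w s i).card : ℝ) ≤ 2 := by exact_mod_cast h9
    push_cast
    rw [div_le_div_iff₀ (by positivity) (by positivity)]
    nlinarith
  refine (avg_mono h1).trans ?_
  rw [avg_mul_left, avg_mid hp]
  apply le_of_eq
  field_simp
  norm_num

private theorem card_even (n : ℕ) (i : Fin n) (s : ℕ) :
    ((grp n s).filter fun a : Fin n => (a : ℕ) % 2 = 0 ∧ a ≠ i).card ≤ (n + 1) / 2 := by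
  have h1 : ((grp n s).filter fun a : Fin n => (a : ℕ) % 2 = 0 ∧ a ≠ i).card ≤
      (Finset.range ((n + 1) / 2)).card := by
    refine Finset.card_le_card_of_injOn (fun a => (a : ℕ) / 2) ?_ ?_
    · intro a _
      have := a.2
      simp only [Finset.coe_range, Set.mem_Iio]
      omega
    · intro a ha b hb hab
      rw [Finset.mem_coe, Finset.mem_filter] at ha hb
      have h2 := ha.2.1
      have h3 := hb.2.1
      simp only at hab
      exact Fin.ext (by omega)
  rwa [Finset.card_range] at h1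

private theorem prob_cnt {n p : ℕ} (hn : n < p) (q : Fin n × Fin n)
    (h1 : (q.1 : ℕ) % 2 = 0) (h2 : n ≤ 2 * (q.1 + q.2 : ℕ)) (h3 : 2 * (q.1 + q.2 : ℕ) < 3 * n) :
    1 / 4 ≤ avg (fun ω : Om n p => ind (Cnt ω q)) := by
  classical
  have hp : 0 < p := by omega
  have hp' : (0 : ℝ) < p := by exact_mod_cast hp
  obtain ⟨A, hA⟩ : ∃ A, A = (grp n (q.1 + q.2)).filter fun a : Fin n => (a : ℕ) % 2 = 0 ∧ a ≠ q.1 :=
    ⟨_, rfl⟩
  have h4 : ∀ ω : Om n p, ind (Mid ω q.1) + (-1) * ∑ a ∈ A,
      ind (Mid ω q.1 ∧ cell ω (q.1 + q.2) a = cell ω (q.1 + q.2) q.1) ≤ ind (Cnt ω q) := by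
    intro ω
    have h0 : ∀ a ∈ A, 0 ≤ ind (Mid ω q.1 ∧ cell ω (q.1 + q.2) a = cell ω (q.1 + q.2) q.1) :=
      fun a _ => ind_nonneg _
    have hs := Finset.sum_nonneg h0
    by_cases h5 : Mid ω q.1
    · by_cases h6 : ∃ a ∈ A, cell ω (q.1 + q.2) a = cell ω (q.1 + q.2) q.1
      · obtain ⟨a, ha, h7⟩ := h6
        have h8 := Finset.single_le_sum h0 ha
        have h9 : ind (Mid ω q.1 ∧ cell ω (q.1 + q.2) a = cell ω (q.1 + q.2) q.1) = 1 := by
          unfold ind
          rw [if_pos ⟨h5, h7⟩]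
        rw [h9] at h8
        have h10 := ind_le_one (Mid ω q.1)
        have h11 := ind_nonneg (Cnt ω q)
        linarith
      · push Not at h6
        have h7 : Cnt ω q := by
          refine ⟨h1, h2, h3, h5.1, h5.2, fun a ha ha2 hai => h6 a ?_⟩
          rw [hA, Finset.mem_filter]
          exact ⟨ha, ha2, hai⟩
        have h8 : ind (Cnt ω q) = 1 := by
          unfold ind
          rw [if_pos h7]
        have h10 := ind_le_one (Mid ω q.1)
        rw [h8]
        linarith
    · have h6 : ind (Mid ω q.1) = 0 := by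
        unfold ind
        rw [if_neg h5]
      have h11 := ind_nonneg (Cnt ω q)
      rw [h6]
      linarith
  refine le_trans ?_ (avg_mono h4)
  rw [avg_add, avg_mul_left, avg_sum, avg_mid hp]
  have h5 : ∑ a ∈ A, avg (fun ω : Om n p =>
      ind (Mid ω q.1 ∧ cell ω (q.1 + q.2) a = cell ω (q.1 + q.2) q.1)) ≤
        A.card • (1 / (9 * (p : ℝ))) := by
    refine Finset.sum_le_card_nsmul _ _ _ fun a ha => ?_
    rw [hA, Finset.mem_filter] at ha
    exact avg_col hp _ _ _ ha.2.2
  have h6 : (A.card : ℝ) ≤ ((n : ℝ) + 1) / 2 := by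
    have h7 := card_even n q.1 (q.1 + q.2)
    rw [← hA] at h7
    have h8 : 2 * A.card ≤ n + 1 := by omega
    have h9 : (2 : ℝ) * A.card ≤ n + 1 := by exact_mod_cast h8
    linarith
  have h7 : ((n : ℝ) + 1) ≤ p := by exact_mod_cast hn
  rw [nsmul_eq_mul] at h5
  have h8 : (A.card : ℝ) * (1 / (9 * (p : ℝ))) ≤ 1 / 18 := by
    rw [mul_one_div, div_le_div_iff₀ (by positivity) (by norm_num)]
    linarith
  linarith

private theorem card_fst (n : ℕ) : (n + 1) / 2 ≤ (univ.filter fun i : Fin n => (i : ℕ) % 2 = 0).card := by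
  have h1 : (univ : Finset (Fin ((n + 1) / 2))).card ≤
      (univ.filter fun i : Fin n => (i : ℕ) % 2 = 0).card := by
    refine Finset.card_le_card_of_injOn (fun k => (⟨2 * (k : ℕ), by have := k.2; omega⟩ : Fin n)) ?_ ?_
    · intro k _
      simp
    · intro k _ k' _ h
      have := congrArg Fin.val h
      simp only at this
      exact Fin.ext (by omega)
  simpa using h1

private theorem card_snd (n : ℕ) (i : Fin n) :
    n / 2 ≤ (univ.filter fun j : Fin n => n ≤ 2 * ((i : ℕ) + j) ∧ 2 * ((i : ℕ) + j) < 3 * n).card := by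
  have h0 : (univ : Finset (Fin (n / 2))).card = n / 2 := by simp
  rw [← h0]
  have hi := i.2
  by_cases h : 2 * (i : ℕ) < n
  · refine Finset.card_le_card_of_injOn
      (fun k => (⟨n - 1 - (k : ℕ), by have := k.2; omega⟩ : Fin n)) ?_ ?_
    · intro k _
      have := k.2
      simp only [Finset.coe_filter, Finset.mem_univ, true_and, Set.mem_ofPred_eq]
      constructor <;> omega
    · intro k _ k' _ h
      have h1 := congrArg Fin.val h
      have h2 := k.2
      have h3 := k'.2
      simp only at h1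
      exact Fin.ext (by omega)
  · refine Finset.card_le_card_of_injOn
      (fun k => (⟨(k : ℕ), by have := k.2; omega⟩ : Fin n)) ?_ ?_
    · intro k _
      have := k.2
      simp only [Finset.coe_filter, Finset.mem_univ, true_and, Set.mem_ofPred_eq]
      constructor <;> omega
    · intro k _ k' _ h
      have h1 := congrArg Fin.val h
      simp only at h1
      exact Fin.ext h1

private theorem card_good (n : ℕ) : (n + 1) / 2 * (n / 2) ≤
    (univ.filter fun q : Fin n × Fin n => (q.1 : ℕ) % 2 = 0 ∧ n ≤ 2 * ((q.1 : ℕ) + q.2) ∧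
      2 * ((q.1 : ℕ) + q.2) < 3 * n).card := by
  have h1 : (univ.filter fun q : Fin n × Fin n => (q.1 : ℕ) % 2 = 0 ∧ n ≤ 2 * ((q.1 : ℕ) + q.2) ∧
      2 * ((q.1 : ℕ) + q.2) < 3 * n) =
      (univ.filter fun i : Fin n => (i : ℕ) % 2 = 0).biUnion fun i =>
        (univ.filter fun j : Fin n => n ≤ 2 * ((i : ℕ) + j) ∧ 2 * ((i : ℕ) + j) < 3 * n).map
          ⟨fun j => (i, j), fun a b h => (Prod.ext_iff.1 h).2⟩ := by
    ext q
    simp only [Finset.mem_filter, Finset.mem_univ, true_and, Finset.mem_biUnion, Finset.mem_map,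
      Function.Embedding.coeFn_mk]
    constructor
    · rintro ⟨h1, h2⟩
      exact ⟨q.1, h1, q.2, h2, rfl⟩
    · rintro ⟨i, h1, j, h2, rfl⟩
      exact ⟨h1, h2⟩
  rw [h1, Finset.card_biUnion]
  · have h2 : ∀ i ∈ (univ.filter fun i : Fin n => (i : ℕ) % 2 = 0), n / 2 ≤
        ((univ.filter fun j : Fin n => n ≤ 2 * ((i : ℕ) + j) ∧ 2 * ((i : ℕ) + j) < 3 * n).map
          ⟨fun j => (i, j), fun a b h => (Prod.ext_iff.1 h).2⟩ : Finset (Fin n × Fin n)).card := by
      intro i _
      rw [Finset.card_map]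
      exact card_snd n i
    have h3 := Finset.card_nsmul_le_sum _ _ _ h2
    rw [smul_eq_mul] at h3
    exact (Nat.mul_le_mul_right _ (card_fst n)).trans h3
  · intro i _ i' _ hii
    rw [Function.onFun, Finset.disjoint_left]
    intro q hq hq'
    rw [Finset.mem_map] at hq hq'
    obtain ⟨j, _, rfl⟩ := hq
    obtain ⟨j', _, h5⟩ := hq'
    exact hii (Prod.ext_iff.1 h5).1.symm

open Classical in
theorem count_avg {n p : ℕ} (hn : n < p) (hN : 1000 ≤ n) :
    (n : ℝ) ^ 2 / 20 ≤
      avg (fun ω : Om n p => ((univ.filter fun q : Fin n × Fin n => Cnt ω q).card : ℝ)) := by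
  have h1 : (fun ω : Om n p => ((univ.filter fun q : Fin n × Fin n => Cnt ω q).card : ℝ)) =
      fun ω => ∑ q : Fin n × Fin n, ind (Cnt ω q) := by
    funext ω
    rw [Finset.card_filter]
    push_cast
    refine Finset.sum_congr rfl fun q _ => ?_
    unfold ind
    by_cases h : Cnt ω q <;> simp [h]
  rw [h1, avg_sum]
  obtain ⟨Gd, hG⟩ : ∃ Gd, Gd = (univ.filter fun q : Fin n × Fin n => (q.1 : ℕ) % 2 = 0 ∧
      n ≤ 2 * ((q.1 : ℕ) + q.2) ∧ 2 * ((q.1 : ℕ) + q.2) < 3 * n) := ⟨_, rfl⟩
  have h2 : ∑ q ∈ Gd, avg (fun ω : Om n p => ind (Cnt ω q)) ≤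
      ∑ q : Fin n × Fin n, avg (fun ω : Om n p => ind (Cnt ω q)) :=
    Finset.sum_le_sum_of_subset_of_nonneg (Finset.subset_univ _)
      (fun q _ _ => avg_nonneg fun ω => ind_nonneg _)
  refine le_trans ?_ h2
  have h3 : Gd.card • (1 / 4 : ℝ) ≤ ∑ q ∈ Gd, avg (fun ω : Om n p => ind (Cnt ω q)) := by
    refine Finset.card_nsmul_le_sum _ _ _ fun q hq => ?_
    rw [hG, Finset.mem_filter] at hq
    exact prob_cnt hn q hq.2.1 hq.2.2.1 hq.2.2.2
  refine le_trans ?_ h3
  rw [nsmul_eq_mul]
  have h4 : (n + 1) / 2 * (n / 2) ≤ Gd.card := by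
    rw [hG]
    convert card_good n
  have h5 : (((n + 1) / 2 * (n / 2) : ℕ) : ℝ) ≤ Gd.card := by exact_mod_cast h4
  push_cast at h5
  have h6 : (n : ℝ) / 2 ≤ (((n + 1) / 2 : ℕ) : ℝ) := by
    have : n ≤ 2 * ((n + 1) / 2) := by omega
    have h7 : (n : ℝ) ≤ 2 * (((n + 1) / 2 : ℕ) : ℝ) := by exact_mod_cast this
    linarith
  have h7 : ((n : ℝ) - 1) / 2 ≤ ((n / 2 : ℕ) : ℝ) := by
    have : n ≤ 2 * (n / 2) + 1 := by omega
    have h8 : (n : ℝ) ≤ 2 * ((n / 2 : ℕ) : ℝ) + 1 := by exact_mod_cast this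
    linarith
  have hN' : (1000 : ℝ) ≤ n := by exact_mod_cast hN
  have h8 : (n : ℝ) / 2 * (((n : ℝ) - 1) / 2) ≤
      (((n + 1) / 2 : ℕ) : ℝ) * ((n / 2 : ℕ) : ℝ) :=
    mul_le_mul h6 h7 (by linarith) (by positivity)
  have h9 : (((n + 1) / 2 : ℕ) : ℝ) * ((n / 2 : ℕ) : ℝ) ≤ Gd.card := by
    have : (((n + 1) / 2 * (n / 2) : ℕ) : ℝ) ≤ Gd.card := by exact_mod_cast h4
    rwa [Nat.cast_mul] at this
  nlinarith

end Pool.Agent.Lib_MP_852c2d_ts
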