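import Pool.Agent.Lib_MP_852c2d_ts.Model

set_option autoImplicit false

/-!
# Piece RK: the inputs `inp ω` and their ranks

PROOFS. `K := 16 n p`. For `s = i + j`: `e p j < p`, `cell ω s i = c_i + e p j ≤ 4 p - 2`,
`off < 4 n`, so `val ω s i < K`, and
`sm (inp ω) i j = 2 (s K + val ω s i) + (bit of i if i is even)`.
* `inp_good`: strictly increasing since the part after `i K` is smaller than `K`. Different sums: for
  `i + j < i' + j'` from `val < K`; for equal groups `val ω s a ≡ a (mod n)` (all other terms are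
  multiples of `n`), so `val` determines `a`. Bound: `(n - 1) K + K = n K ≤ 32 n ^ 3`, twice this and
  `+ 1` is below `200 n ^ 3`.
* `inp_injective`: `inp ω (inl i) / 2` and its parity determine `c_i` and `b_i`: for even `i` the bit
  is the parity and `i K + 4 n c_i + n + i` gives `c_i`; for odd `i` use `4 n c_i + 2 n b_i`.
* `rank_inp`: `sm (a, b) < sm (i, j)` iff `a + b < i + j`, or `a + b = i + j` and
  `val ω s a < val ω s i` (for `a ≠ i` the values differ, so the values times two plus a bit compare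
  in the same way; for `a = i` we have `b = j`). The second part is in bijection with the set that
  defines `lrank` (`(a, b) ↦ a`).
-/

namespace Pool.Agent.Lib_MP_852c2d_ts

open Finset

private theorem off_lt_rk {n : ℕ} (i : Fin n) (b : Bool) : off n i b < 3 * n := by
  have hi := i.2
  unfold off
  split_ifs <;> omega

private theorem off_mod_rk {n : ℕ} (i : Fin n) (b : Bool) : off n i b % n = i := by
  have hi := i.2
  unfold off
  split_ifs
  · rw [Nat.add_mod_left, Nat.mod_eq_of_lt hi]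
  · rw [Nat.mul_comm 2 n, Nat.mul_add_mod, Nat.mod_eq_of_lt hi]
  · exact Nat.mod_eq_of_lt hi

/-- the bit that is added for even indices -/
private def bt_rk (i : ℕ) (b : Bool) : ℕ := if i % 2 = 0 then b.toNat else 0

private theorem bt_le_rk (i : ℕ) (b : Bool) : bt_rk i b ≤ 1 := by
  unfold bt_rk
  split_ifs
  · cases b <;> simp
  · exact Nat.zero_le 1

private theorem e_lt_rk {p : ℕ} (hp : 0 < p) (j : ℕ) : e p j < p := Nat.mod_lt _ hp

private theorem inl_rk {n p : ℕ} (ω : Om n p) (i : Fin n) :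
    inp ω (Sum.inl i) =
      2 * (i * (16 * n * p) + 4 * n * (ω i).1 + off n i (ω i).2) + bt_rk i (ω i).2 := rfl

private theorem inr_rk {n p : ℕ} (ω : Om n p) (j : Fin n) :
    inp ω (Sum.inr j) = 2 * (j * (16 * n * p) + 4 * n * e p j) := rfl

private theorem rest_lt_rk {n p : ℕ} (ω : Om n p) (i : Fin n) :
    4 * n * ((ω i).1 : ℕ) + off n i (ω i).2 < 12 * n * p := by
  have h1 := off_lt_rk i (ω i).2
  have h2 : ((ω i).1 : ℕ) + 1 ≤ 3 * p := (ω i).1.2
  have h3 := Nat.mul_le_mul_left (4 * n) h2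
  have h4 : 4 * n * (3 * p) = 12 * n * p := by ring
  have h5 : 4 * n * (((ω i).1 : ℕ) + 1) = 4 * n * ((ω i).1 : ℕ) + 4 * n := by ring
  omega

private theorem val_lt_rk {n p : ℕ} (hp : 0 < p) (ω : Om n p) (s : ℕ) (a : Fin n) :
    val ω s a < 16 * n * p := by
  have h1 := off_lt_rk a (ω a).2
  have h2 : ((ω a).1 : ℕ) < 3 * p := (ω a).1.2
  have h3 := e_lt_rk hp (s - a)
  have h6 : cell ω s a + 1 ≤ 4 * p := by
    unfold cell
    omega
  have h7 := Nat.mul_le_mul_left (4 * n) h6
  have h4 : 4 * n * (4 * p) = 16 * n * p := by ring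
  have h5 : 4 * n * (cell ω s a + 1) = 4 * n * cell ω s a + 4 * n := by ring
  unfold val
  omega

private theorem val_mod_rk {n p : ℕ} (ω : Om n p) (s : ℕ) (a : Fin n) :
    val ω s a % n = a := by
  unfold val
  have h : 4 * n * cell ω s a + off n a (ω a).2 = n * (4 * cell ω s a) + off n a (ω a).2 := by ring
  rw [h, Nat.mul_add_mod, off_mod_rk]

private theorem sm_rk {n p : ℕ} (ω : Om n p) (i j : Fin n) :
    sm (inp ω) i j = 2 * (((i : ℕ) + j) * (16 * n * p) + val ω (i + j) i) + bt_rk i (ω i).2 := by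
  unfold sm
  rw [inl_rk, inr_rk]
  unfold val cell
  rw [Nat.add_sub_cancel_left]
  ring

private theorem sep_rk {K s t u v : ℕ} (hu : u < K) (h : s < t) : s * K + u + 1 ≤ t * K + v := by
  have h1 := Nat.mul_le_mul_right K (Nat.succ_le_of_lt h)
  have h2 : s.succ * K = s * K + K := Nat.succ_mul s K
  omega

private theorem key_rk {n p : ℕ} (hp : 0 < p) (ω : Om n p) (q : Fin n × Fin n) (i j : Fin n) :
    sm (inp ω) q.1 q.2 < sm (inp ω) i j ↔ (q.1 : ℕ) + q.2 < i + j ∨
      ((q.1 : ℕ) + q.2 = i + j ∧ val ω (i + j) q.1 < val ω (i + j) i) := by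
  rw [sm_rk, sm_rk]
  have b1 := bt_le_rk q.1 (ω q.1).2
  have b2 := bt_le_rk i (ω i).2
  have v1 := val_lt_rk hp ω (q.1 + q.2) q.1
  have v2 := val_lt_rk hp ω (i + j) i
  rcases lt_trichotomy ((q.1 : ℕ) + q.2) (i + j) with h | h | h
  · have h1 := sep_rk (v := val ω (i + j) i) v1 h
    constructor
    · intro _
      exact Or.inl h
    · intro _
      omega
  · rw [h]
    have h0 : ¬ ((i : ℕ) + j < i + j) := lt_irrefl _
    constructor
    · intro h1
      refine Or.inr ⟨rfl, ?_⟩
      by_contra h2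
      have h3 : val ω (i + j) i ≤ val ω (i + j) q.1 := not_lt.1 h2
      rcases eq_or_lt_of_le h3 with h4 | h4
      · have h5 : (q.1 : ℕ) = i := by rw [← val_mod_rk ω (i + j) q.1, ← h4, val_mod_rk]
        have h6 : q.1 = i := Fin.ext h5
        rw [h6] at h1
        exact lt_irrefl _ h1
      · omega
    · rintro (h1 | ⟨_, h1⟩)
      · exact absurd h1 h0
      · omega
  · have h1 := sep_rk (v := val ω (q.1 + q.2) q.1) v2 h
    constructor
    · intro h2
      omega
    · rintro (h2 | ⟨h2, _⟩)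
      · exact absurd h2 (not_lt.2 h.le)
      · exact absurd h2 (ne_of_gt h)

theorem inp_good {n p : ℕ} (hn : 2 ≤ n) (hp : n < p) (hp2 : p ≤ 2 * n) (ω : Om n p) :
    Good (inp ω) := by
  have hp0 : 0 < p := by omega
  have hK : 12 * n * p ≤ 16 * n * p := by
    have h1 : 12 * n ≤ 16 * n := by omega
    exact Nat.mul_le_mul_right p h1
  have hy : ∀ j : Fin n, 4 * n * e p j < 16 * n * p := by
    intro j
    have h1 := e_lt_rk hp0 j
    have h2 : 4 * n * e p j < 4 * n * p := Nat.mul_lt_mul_of_pos_left h1 (by omega)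
    have h3 : 4 * n * p ≤ 16 * n * p := Nat.mul_le_mul_right p (by omega)
    omega
  have hb : n * (16 * n * p) ≤ 32 * n ^ 3 := by
    calc n * (16 * n * p) ≤ n * (16 * n * (2 * n)) :=
          Nat.mul_le_mul_left _ (Nat.mul_le_mul_left _ hp2)
      _ = 32 * n ^ 3 := by ring
  have hn3 : 0 < n ^ 3 := by positivity
  refine ⟨?_, ?_, ?_, ?_⟩
  · intro i i' hii
    have hii' : (i : ℕ) < i' := hii
    change inp ω (Sum.inl i) < inp ω (Sum.inl i')
    rw [inl_rk, inl_rk]
    have h1 := rest_lt_rk ω i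
    have h2 := sep_rk (v := 4 * n * ((ω i').1 : ℕ) + off n i' (ω i').2) (lt_of_lt_of_le h1 hK) hii'
    have h3 := bt_le_rk i (ω i).2
    omega
  · intro j j' hjj
    have hjj' : (j : ℕ) < j' := hjj
    change inp ω (Sum.inr j) < inp ω (Sum.inr j')
    rw [inr_rk, inr_rk]
    have h2 := sep_rk (v := 4 * n * e p j') (hy j) hjj'
    omega
  · intro i j i' j' h
    have h1 := (key_rk hp0 ω (i, j) i' j').not.1 (by rw [h]; exact lt_irrefl _)
    have h2 := (key_rk hp0 ω (i', j') i j).not.1 (by rw [h]; exact lt_irrefl _)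
    push Not at h1 h2
    have hs : (i : ℕ) + j = i' + j' := le_antisymm h2.1 h1.1
    have h3 := h1.2 hs
    have h4 := h2.2 hs.symm
    rw [hs] at h4
    have h5 := le_antisymm h4 h3
    have h6 : (i : ℕ) = i' := by rw [← val_mod_rk ω (i' + j') i, h5, val_mod_rk]
    refine ⟨Fin.ext h6, Fin.ext ?_⟩
    omega
  · intro a
    rcases a with i | j
    · rw [inl_rk]
      have h1 := rest_lt_rk ω i
      have h2 := sep_rk (v := 0) (lt_of_lt_of_le h1 hK) i.2
      have h3 := bt_le_rk i (ω i).2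
      omega
    · rw [inr_rk]
      have h2 := sep_rk (v := 0) (hy j) j.2
      omega

theorem inp_injective {n p : ℕ} (hn : 0 < n) :
    Function.Injective (inp : Om n p → Inp n) := by
  intro ω ω' h
  funext i
  have h1 := congrFun h (Sum.inl i)
  rw [inl_rk, inl_rk] at h1
  have b1 := bt_le_rk i (ω i).2
  have b2 := bt_le_rk i (ω' i).2
  have h2 : bt_rk i (ω i).2 = bt_rk i (ω' i).2 := by omega
  have h3 : 4 * n * ((ω i).1 : ℕ) + off n i (ω i).2 = 4 * n * ((ω' i).1 : ℕ) + off n i (ω' i).2 := by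
    omega
  have h4n : 0 < 4 * n := by omega
  by_cases hi : (i : ℕ) % 2 = 0
  · unfold bt_rk at h2
    rw [if_pos hi, if_pos hi] at h2
    unfold off at h3
    rw [if_pos hi, if_pos hi] at h3
    have h4 : 4 * n * ((ω i).1 : ℕ) = 4 * n * ((ω' i).1 : ℕ) := by omega
    refine Prod.ext (Fin.ext (Nat.eq_of_mul_eq_mul_left h4n h4)) ?_
    cases h5 : (ω i).2 <;> cases h6 : (ω' i).2 <;> rw [h5, h6] at h2 <;> simp at h2 <;> rfl
  · unfold off at h3
    rw [if_neg hi, if_neg hi] at h3
    have hd : ∀ x y : ℕ, 4 * n * x + 2 * n ≠ 4 * n * y := by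
      intro x y hxy
      have h5 : 2 * n * (2 * x + 1) = 2 * n * (2 * y) := by linarith
      have h6 := Nat.eq_of_mul_eq_mul_left (by omega : 0 < 2 * n) h5
      omega
    cases h5 : (ω i).2 <;> cases h6 : (ω' i).2
    · rw [h5, h6] at h3
      simp only [Bool.false_eq_true, if_false] at h3
      have h4 : 4 * n * ((ω i).1 : ℕ) = 4 * n * ((ω' i).1 : ℕ) := by omega
      exact Prod.ext (Fin.ext (Nat.eq_of_mul_eq_mul_left h4n h4)) (by rw [h5, h6])
    · exfalso
      rw [h5, h6] at h3
      simp only [Bool.false_eq_true, if_false, if_true] at h3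
      apply hd ((ω' i).1 : ℕ) ((ω i).1 : ℕ)
      omega
    · exfalso
      rw [h5, h6] at h3
      simp only [Bool.false_eq_true, if_false, if_true] at h3
      apply hd ((ω i).1 : ℕ) ((ω' i).1 : ℕ)
      omega
    · rw [h5, h6] at h3
      simp only [if_true] at h3
      have h4 : 4 * n * ((ω i).1 : ℕ) = 4 * n * ((ω' i).1 : ℕ) := by omega
      exact Prod.ext (Fin.ext (Nat.eq_of_mul_eq_mul_left h4n h4)) (by rw [h5, h6])

theorem rank_inp {n p : ℕ} (hn : 0 < n) (hp : 0 < p) (ω : Om n p) (i j : Fin n) :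
    rank (inp ω) i j = base n (i + j) + lrank ω (i + j) i := by
  classical
  have h1 : (univ.filter fun q : Fin n × Fin n => sm (inp ω) q.1 q.2 < sm (inp ω) i j) =
      (univ.filter fun q : Fin n × Fin n => (q.1 : ℕ) + q.2 < i + j) ∪
      (univ.filter fun q : Fin n × Fin n =>
        (q.1 : ℕ) + q.2 = i + j ∧ val ω (i + j) q.1 < val ω (i + j) i) := by
    rw [← filter_or]
    exact filter_congr fun q _ => key_rk hp ω q i j
  have h2 : Disjoint (univ.filter fun q : Fin n × Fin n => (q.1 : ℕ) + q.2 < i + j)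
      (univ.filter fun q : Fin n × Fin n =>
        (q.1 : ℕ) + q.2 = i + j ∧ val ω (i + j) q.1 < val ω (i + j) i) := by
    rw [disjoint_filter]
    intro q _ h3 h4
    omega
  unfold rank
  rw [h1, card_union_of_disjoint h2]
  unfold base lrank
  congr 1
  refine card_bij (fun q _ => q.1) ?_ ?_ ?_
  · intro q hq
    rw [mem_filter] at hq
    obtain ⟨_, h3, h4⟩ := hq
    have h5 := q.2.2
    rw [mem_filter]
    refine ⟨?_, h4⟩
    unfold grp
    rw [mem_filter]
    refine ⟨mem_univ _, ?_, ?_⟩ <;> omega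
  · intro q hq q' hq' h3
    rw [mem_filter] at hq hq'
    have h4 : (q.1 : ℕ) = q'.1 := congrArg Fin.val h3
    refine Prod.ext h3 (Fin.ext ?_)
    have h5 := hq.2.1
    have h6 := hq'.2.1
    omega
  · intro a ha
    rw [mem_filter] at ha
    obtain ⟨h3, h4⟩ := ha
    unfold grp at h3
    rw [mem_filter] at h3
    refine ⟨(a, ⟨(i : ℕ) + j - a, h3.2.2⟩), ?_, rfl⟩
    rw [mem_filter]
    refine ⟨mem_univ _, ?_, h4⟩
    change (a : ℕ) + ((i : ℕ) + j - a) = i + j
    omega

end Pool.Agent.Lib_MP_852c2d_ts
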