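import Pool.Agent.Lib_MP_852c2d_ts.Tree
import Pool.Agent.Lib_MP_852c2d_ts.Count
import Pool.Agent.Lib_MP_852c2d_ts.Rank

set_option autoImplicit false

/-!
# Part (A), assembly
-/

namespace Pool.Agent.Lib_MP_852c2d_ts

open Finset

open Classical in
/-- If the machine sorts 99 percent of the inputs, few segments cannot produce all counted pairs. -/
theorem coreA {n p : ℕ} (hp : p.Prime) (hn : n < p) (hp2 : p ≤ 2 * n) (hN : 1000 ≤ n)
    {k T : ℕ} {V : Type} [Fintype V] (M : Machine n k V) (t : ℕ) (ht : 32 * (k * t) ≤ n)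
    (m : ℕ) (hm : 32 * m ≤ n) (J : ℕ) (hJ : T ≤ J * t) (ht1 : 1 ≤ t)
    (hbad : (J : ℝ) * Fintype.card V * (3 * Real.exp (-(m : ℝ) / 3300)) ≤ 1 / 100)
    (hok : 99 * Fintype.card (Om n p) ≤
      100 * (univ.filter fun ω : Om n p => M.Sorts T (inp ω)).card) :
    3 / 100 * (n : ℝ) ^ 2 ≤ J * m := by
  have hp0 : 0 < p := hp.pos
  have hn0 : 0 < n := by omega
  have hne : Nonempty (Fin (3 * p) × Bool) := ⟨(⟨0, by omega⟩, true)⟩
  have hneO : Nonempty (Om n p) := inferInstance
  set seg : ℕ → ℕ := fun j => min t (T - j * t) with hseg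
  set B : ℕ → V → Om n p → Prop := fun j v ω =>
    AllTrue (runOut M (inp ω) (j * t) v (seg j)) ω ∧
      m ≤ (hits (runOut M (inp ω) (j * t) v (seg j)) ω).card with hB
  -- the pointwise inequality
  have hpt : ∀ ω : Om n p, ((univ.filter fun q : Fin n × Fin n => Cnt ω q).card : ℝ) ≤
      (J : ℝ) * m + (n : ℝ) ^ 2 * (1 - ind (M.Sorts T (inp ω))) +
        (n : ℝ) ^ 2 * ∑ j ∈ range J, ∑ v : V, ind (B j v ω) := by
    intro ω
    have hall : ((univ.filter fun q : Fin n × Fin n => Cnt ω q).card : ℝ) ≤ (n : ℝ) ^ 2 := by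
      have : (univ.filter fun q : Fin n × Fin n => Cnt ω q).card ≤ n ^ 2 := by
        refine (card_filter_le _ _).trans ?_
        rw [card_univ, Fintype.card_prod, Fintype.card_fin, sq]
      exact_mod_cast this
    have hs0 : 0 ≤ ∑ j ∈ range J, ∑ v : V, ind (B j v ω) :=
      sum_nonneg fun j _ => sum_nonneg fun v _ => ind_nonneg _
    by_cases hS : M.Sorts T (inp ω)
    · by_cases hb : ∃ j < J, ∃ v : V, B j v ω
      · obtain ⟨j, hj, v, hv⟩ := hb
        have h1 : (1 : ℝ) ≤ ∑ j ∈ range J, ∑ v : V, ind (B j v ω) := by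
          refine le_trans ?_ (single_le_sum (f := fun j => ∑ v : V, ind (B j v ω))
            (fun j _ => sum_nonneg fun v _ => ind_nonneg _) (mem_range.2 hj))
          refine le_trans ?_ (single_le_sum (f := fun v => ind (B j v ω))
            (fun v _ => ind_nonneg _) (mem_univ v))
          simp only [ind]
          rw [if_pos hv]
        have h2 : (0 : ℝ) ≤ 1 - ind (M.Sorts T (inp ω)) := by
          linarith [ind_le_one (M.Sorts T (inp ω))]
        nlinarith [sq_nonneg (n : ℝ), mul_nonneg (sq_nonneg (n : ℝ)) h2,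
          mul_le_mul_of_nonneg_left h1 (sq_nonneg (n : ℝ)), mul_nonneg (Nat.cast_nonneg (α := ℝ) J)
            (Nat.cast_nonneg (α := ℝ) m)]
      · push Not at hb
        have hsub : (univ.filter fun q : Fin n × Fin n => Cnt ω q) ⊆
            (range J).biUnion fun j =>
              hits (runOut M (inp ω) (j * t) (M.state (inp ω) (j * t)) (seg j)) ω := by
          intro q hq
          have hq' : Cnt ω q := (mem_filter.1 hq).2
          have h1 : ((rank (inp ω) q.1 q.2, q) : ℕ × Fin n × Fin n) ∈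
              {o | ∃ t < T, o ∈ M.out t (M.state (inp ω) t) fun a => inp ω a} := by
            rw [hS]; rfl
          obtain ⟨u, hu, hu'⟩ := h1
          have hju : u / t < J := by
            rw [Nat.div_lt_iff_lt_mul (by omega)]; omega
          refine mem_biUnion.2 ⟨u / t, mem_range.2 hju, ?_⟩
          refine mem_filter.2 ⟨mem_univ _, hq', rank (inp ω) q.1 q.2, u % t, ?_, ?_⟩
          · have := Nat.div_add_mod u t
            have h3 := Nat.mod_lt u (show 0 < t by omega)
            refine lt_min h3 ?_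
            have : u / t * t + u % t = u := Nat.div_add_mod' u t
            omega
          · rw [runState_state]
            have h3 : u / t * t + u % t = u := Nat.div_add_mod' u t
            have h4 : ∀ w, w = u → (rank (inp ω) q.1 q.2, q) ∈
                M.out w (M.state (inp ω) w) fun a => inp ω a := by
              intro w hw; rw [hw]; exact hu'
            exact h4 _ h3
        have hcard : ∀ j ∈ range J,
            (hits (runOut M (inp ω) (j * t) (M.state (inp ω) (j * t)) (seg j)) ω).card ≤ m := by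
          intro j hj
          have h1 := hb j (mem_range.1 hj) (M.state (inp ω) (j * t))
          by_contra hcon
          refine h1 ⟨?_, by omega⟩
          rintro o ⟨u, hu, hu'⟩
          rw [runState_state] at hu'
          have h2 : j * t + u < T := by
            have := lt_of_lt_of_le hu (min_le_right _ _)
            omega
          have h3 : o ∈ {o | ∃ t < T, o ∈ M.out t (M.state (inp ω) t) fun a => inp ω a} :=
            ⟨j * t + u, h2, hu'⟩
          rw [hS] at h3
          have h4 : o.1 = rank (inp ω) o.2.1 o.2.2 := h3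
          rw [h4, rank_inp hn0 hp0]
        have h5 : (univ.filter fun q : Fin n × Fin n => Cnt ω q).card ≤ J * m := by
          refine (card_le_card hsub).trans (card_biUnion_le.trans ?_)
          refine (sum_le_sum hcard).trans ?_
          rw [sum_const, card_range, smul_eq_mul]
        have h6 : ((univ.filter fun q : Fin n × Fin n => Cnt ω q).card : ℝ) ≤ (J : ℝ) * m := by
          exact_mod_cast h5
        have h2 : (0 : ℝ) ≤ 1 - ind (M.Sorts T (inp ω)) := by
          linarith [ind_le_one (M.Sorts T (inp ω))]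
        nlinarith [mul_nonneg (sq_nonneg (n : ℝ)) h2, mul_nonneg (sq_nonneg (n : ℝ)) hs0]
    · have h1 : ind (M.Sorts T (inp ω)) = 0 := by
        simp only [ind]; rw [if_neg hS]
      rw [h1]
      nlinarith [mul_nonneg (sq_nonneg (n : ℝ)) hs0, mul_nonneg (Nat.cast_nonneg (α := ℝ) J)
            (Nat.cast_nonneg (α := ℝ) m)]
  have hav := (count_avg hn hN).trans (avg_mono hpt)
  rw [avg_add, avg_add, avg_const, avg_mul_left, avg_mul_left] at hav
  have hA : avg (fun ω : Om n p => 1 - ind (M.Sorts T (inp ω))) ≤ 1 / 100 := by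
    have h1 : avg (fun ω : Om n p => 1 - ind (M.Sorts T (inp ω))) =
        1 - avg (fun ω : Om n p => ind (M.Sorts T (inp ω))) := by
      have h2 := avg_add (fun ω : Om n p => 1 - ind (M.Sorts T (inp ω)))
        (fun ω : Om n p => ind (M.Sorts T (inp ω)))
      simp only [sub_add_cancel] at h2
      rw [avg_const] at h2
      linarith
    rw [h1, avg_ind (fun ω : Om n p => M.Sorts T (inp ω))]
    have hc : (0 : ℝ) < Fintype.card (Om n p) := by exact_mod_cast Fintype.card_pos
    have h3 : (99 : ℝ) * Fintype.card (Om n p) ≤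
      100 * ((univ.filter fun ω : Om n p => M.Sorts T (inp ω)).card : ℝ) := by exact_mod_cast hok
    have h4 : (99 : ℝ) / 100 ≤
      ((univ.filter fun ω : Om n p => M.Sorts T (inp ω)).card : ℝ) / Fintype.card (Om n p) := by
      rw [le_div_iff₀ hc]; linarith
    linarith
  have hBavg : avg (fun ω : Om n p => ∑ j ∈ range J, ∑ v : V, ind (B j v ω)) ≤ 1 / 100 := by
    rw [avg_sum]
    have h1 : ∀ j ∈ range J, avg (fun ω : Om n p => ∑ v : V, ind (B j v ω)) ≤
        Fintype.card V * (3 * Real.exp (-(m : ℝ) / 3300)) := by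
      intro j _
      rw [avg_sum]
      have h2 : ∀ v ∈ (univ : Finset V), avg (fun ω : Om n p => ind (B j v ω)) ≤
          3 * Real.exp (-(m : ℝ) / 3300) := by
        intro v _
        have h3 : 32 * (k * seg j) ≤ n := by
          have : k * seg j ≤ k * t := Nat.mul_le_mul_left k (min_le_left _ _)
          omega
        exact tree_lemma hp hn hp2 hN M (seg j) m h3 hm (j * t) v
      refine (sum_le_sum h2).trans ?_
      rw [sum_const, card_univ, nsmul_eq_mul]
    refine (sum_le_sum h1).trans ?_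
    rw [sum_const, card_range, nsmul_eq_mul, ← mul_assoc]
    exact hbad
  nlinarith [mul_le_mul_of_nonneg_left hA (sq_nonneg (n : ℝ)),
    mul_le_mul_of_nonneg_left hBavg (sq_nonneg (n : ℝ))]

theorem exp_aux {S : ℕ} (hS : 1 ≤ S) : (2 : ℝ) ^ (4 * S) * (3 * Real.exp (-(40000 * S : ℝ) / 3300)) ≤
    1 / 100 := by
  have h1 : (2 : ℝ) ≤ Real.exp (7 / 10) := by
    have := Real.log_two_lt_d9
    rw [← Real.log_le_iff_le_exp (by norm_num)]
    linarith
  have h2 : (2 : ℝ) ^ (4 * S) ≤ Real.exp (2.8 * S) := by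
    calc (2 : ℝ) ^ (4 * S) ≤ Real.exp (7 / 10) ^ (4 * S) :=
          pow_le_pow_left₀ (by norm_num) h1 _
      _ = Real.exp (2.8 * S) := by
          rw [← Real.exp_nat_mul]; congr 1; push_cast; ring
  have hS' : (1 : ℝ) ≤ S := by exact_mod_cast hS
  have h3 : (2 : ℝ) ^ (4 * S) * (3 * Real.exp (-(40000 * S : ℝ) / 3300)) ≤
      3 * (Real.exp (2.8 * S) * Real.exp (-(40000 * S : ℝ) / 3300)) := by
    nlinarith [Real.exp_pos (-(40000 * S : ℝ) / 3300)]
  refine h3.trans ?_
  rw [← Real.exp_add]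
  have h4 : 2.8 * (S : ℝ) + -(40000 * S : ℝ) / 3300 ≤ -9 := by
    rw [show -(40000 * S : ℝ) / 3300 = -(40000 / 3300) * S by ring]
    nlinarith
  have h5 : Real.exp (2.8 * (S : ℝ) + -(40000 * S : ℝ) / 3300) ≤ Real.exp (-9) :=
    Real.exp_le_exp.2 h4
  have h6 : Real.exp (-9) ≤ 1 / 300 := by
    rw [Real.exp_neg, one_div]
    refine inv_anti₀ (by norm_num) ?_
    have h7 : (2 : ℝ) ≤ Real.exp 1 := by
      have := Real.add_one_le_exp (1 : ℝ); linarith
    calc (300 : ℝ) ≤ 2 ^ 9 := by norm_num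
      _ ≤ Real.exp 1 ^ 9 := pow_le_pow_left₀ (by norm_num) h7 _
      _ = Real.exp 9 := by rw [← Real.exp_nat_mul]; norm_num
  linarith

open Classical in
theorem partA : ∃ c : ℝ, 0 < c ∧ ∀ n : ℕ, 2 ≤ n → ∃ H : Finset (Inp n), H.Nonempty ∧
    (∀ z ∈ H, Good z) ∧ ∀ (k S T : ℕ) (V : Type) [Fintype V] (M : Machine n k V), 1 ≤ k →
      Fintype.card V ≤ 2 ^ S → n ≤ 2 ^ S → (k : ℝ) ≤ c * n → (S : ℝ) ≤ c * n →
      99 * H.card ≤ 100 * (H.filter fun z => M.Sorts T z).card →
      c * n ^ 3 ≤ T * k * S := by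
  refine ⟨1 / 10 ^ 10, by norm_num, fun n hn2 => ?_⟩
  obtain ⟨p, hp, hnp, hp2⟩ := Nat.exists_prime_lt_and_le_two_mul n (by omega)
  have hinj : Function.Injective (inp : Om n p → Inp n) := inp_injective (by omega)
  have hne : Nonempty (Fin (3 * p) × Bool) := ⟨(⟨0, by omega⟩, true)⟩
  have hneO : Nonempty (Om n p) := inferInstance
  refine ⟨univ.image (inp : Om n p → Inp n), ⟨_, mem_image_of_mem _ (mem_univ (Classical.arbitrary _))⟩,
    ?_, ?_⟩
  · intro z hz
    obtain ⟨ω, _, rfl⟩ := mem_image.1 hz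
    exact inp_good hn2 hnp hp2 ω
  intro k S T V _ M hk hV hnS hkn hSn hok
  have hcard : (univ.image (inp : Om n p → Inp n)).card = Fintype.card (Om n p) := by
    rw [card_image_of_injective _ hinj, card_univ]
  have hfil : ((univ.image (inp : Om n p → Inp n)).filter fun z => M.Sorts T z).card =
      (univ.filter fun ω : Om n p => M.Sorts T (inp ω)).card := by
    rw [filter_image, card_image_of_injective _ hinj]
  rw [hcard, hfil] at hok
  have hk' : (1 : ℝ) ≤ k := by exact_mod_cast hk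
  have hS1 : 1 ≤ S := by
    rcases Nat.eq_zero_or_pos S with h | h
    · subst h; omega
    · exact h
  have hS' : (1 : ℝ) ≤ S := by exact_mod_cast hS1
  have hnbig : (10 : ℝ) ^ 10 ≤ n := by
    have : (1 : ℝ) ≤ 1 / 10 ^ 10 * n := hk'.trans hkn
    linarith
  have hn0 : (0 : ℝ) < n := by linarith [show (0 : ℝ) < 10 ^ 10 by norm_num]
  have hkn' : (10 : ℝ) ^ 10 * k ≤ n := by linarith
  have hSn' : (10 : ℝ) ^ 10 * S ≤ n := by linarith
  have hknN : 10 ^ 10 * k ≤ n := by exact_mod_cast hkn'
  have hSnN : 10 ^ 10 * S ≤ n := by exact_mod_cast hSn'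
  by_cases hT : n ^ 3 ≤ T
  · have h1 : (n : ℝ) ^ 3 ≤ T := by exact_mod_cast hT
    have h2 : (T : ℝ) ≤ T * k * S := by
      have h3 : (0 : ℝ) ≤ T := Nat.cast_nonneg T
      nlinarith [mul_le_mul_of_nonneg_left hk' h3, mul_le_mul_of_nonneg_left hS'
        (mul_nonneg h3 (by linarith : (0 : ℝ) ≤ k))]
    have h4 : 1 / 10 ^ 10 * (n : ℝ) ^ 3 ≤ (n : ℝ) ^ 3 := by
      have : (0 : ℝ) ≤ (n : ℝ) ^ 3 := by positivity
      linarith
    linarith
  push Not at hT
  set t : ℕ := n / (32 * k) with htdef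
  have ht1 : 1 ≤ t := by
    rw [htdef, Nat.le_div_iff_mul_le (by omega)]; omega
  have ht : 32 * (k * t) ≤ n := by
    have := Nat.mul_div_le n (32 * k)
    rw [← htdef] at this
    calc 32 * (k * t) = 32 * k * t := by ring
      _ ≤ n := this
  set J : ℕ := T / t + 1 with hJdef
  have hJT : T ≤ J * t := by
    have := Nat.div_add_mod T t
    have h3 := Nat.mod_lt T (show 0 < t by omega)
    rw [hJdef]
    nlinarith
  have hJn : J ≤ n ^ 3 := by
    have := Nat.div_le_self T t
    omega
  have hJ2 : (J : ℝ) ≤ 2 ^ (3 * S) := by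
    have h1 : n ^ 3 ≤ (2 ^ S) ^ 3 := Nat.pow_le_pow_left hnS 3
    have h2 : J ≤ 2 ^ (3 * S) := by
      refine hJn.trans (h1.trans_eq ?_)
      rw [← pow_mul]; ring_nf
    exact_mod_cast h2
  have hV2 : (Fintype.card V : ℝ) ≤ 2 ^ S := by exact_mod_cast hV
  have hbad : (J : ℝ) * Fintype.card V * (3 * Real.exp (-((40000 * S : ℕ) : ℝ) / 3300)) ≤
      1 / 100 := by
    have h1 : (J : ℝ) * Fintype.card V ≤ 2 ^ (4 * S) := by
      calc (J : ℝ) * Fintype.card V ≤ 2 ^ (3 * S) * 2 ^ S :=
            mul_le_mul hJ2 hV2 (Nat.cast_nonneg _) (by positivity)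
        _ = 2 ^ (4 * S) := by rw [← pow_add]; ring_nf
    refine le_trans (mul_le_mul_of_nonneg_right h1 (by positivity)) ?_
    have := exp_aux hS1
    push_cast
    exact this
  have hcore := coreA hp hnp hp2 (by omega) M t ht (40000 * S) (by omega) J hJT ht1 hbad hok
  -- the final computation
  have htR : (n : ℝ) / (64 * k) ≤ t := by
    have h1 : (n : ℝ) < 32 * k * (t + 1) := by
      have := Nat.lt_mul_div_succ n (show 0 < 32 * k by omega)
      rw [← htdef] at this
      exact_mod_cast this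
    rw [div_le_iff₀ (by positivity)]
    have h2 : (1 : ℝ) ≤ t := by exact_mod_cast ht1
    nlinarith
  have hJR : (J : ℝ) ≤ T / t + 1 := by
    have h1 : ((T / t : ℕ) : ℝ) ≤ T / t := Nat.cast_div_le
    rw [hJdef]; push_cast; linarith
  have htpos : (0 : ℝ) < t := by exact_mod_cast ht1
  have h10 : 3 / 100 * (n : ℝ) ^ 2 ≤ (T / t + 1) * (40000 * S) := by
    refine hcore.trans ?_
    push_cast
    exact mul_le_mul_of_nonneg_right hJR (by positivity)
  have h11 : 2 / 100 * (n : ℝ) ^ 2 ≤ T / t * (40000 * S) := by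
    have : (40000 : ℝ) * S ≤ 1 / 100 * (n : ℝ) ^ 2 := by nlinarith
    nlinarith
  have h12 : 2 / 100 * (n : ℝ) ^ 2 * t ≤ T * (40000 * S) := by
    have h13 : (T : ℝ) / t * t = T := div_mul_cancel₀ _ htpos.ne'
    calc 2 / 100 * (n : ℝ) ^ 2 * t ≤ T / t * (40000 * S) * t :=
          mul_le_mul_of_nonneg_right h11 htpos.le
      _ = (T / t * t) * (40000 * S) := by ring
      _ = T * (40000 * S) := by rw [h13]
  have h14 : 2 / 100 * (n : ℝ) ^ 2 * (n / (64 * k)) ≤ T * (40000 * S) :=
    (mul_le_mul_of_nonneg_left htR (by positivity)).trans h12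
  have h15 : 2 / 100 * (n : ℝ) ^ 3 ≤ T * (40000 * S) * (64 * k) := by
    have h16 : 2 / 100 * (n : ℝ) ^ 2 * (n / (64 * k)) * (64 * k) = 2 / 100 * (n : ℝ) ^ 3 := by
      field_simp
    rw [← h16]
    exact mul_le_mul_of_nonneg_right h14 (by positivity)
  have h17 : T * (40000 * S) * (64 * k) = 2560000 * ((T : ℝ) * k * S) := by ring
  rw [h17] at h15
  have h18 : (0 : ℝ) ≤ (n : ℝ) ^ 3 := by positivity
  linarith

end Pool.Agent.Lib_MP_852c2d_ts
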