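import Pool.Agent.Lib_MP_852c2d_ts.PModel

set_option autoImplicit false

/-!
# Piece PS: the printed order is determined by few bits

PROOFS. `pin_good`: `sm (pin π) i j = (i + j) n + π i` with `π i < n`. `pin_injective`: clear.
`sorted_take`: let `L` be a list with `Pairwise (sm <)` containing all pairs. Then `L.length = n ^ 2`
(nodup and complete), the pairs with `i + j < s` come first: they are exactly the first `base n s`
elements of `L` (a pair of a smaller group has a smaller sum), and `base n (s+1) - base n s` further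
elements are the pairs of the group `s`, in increasing order of `π i`.
`same_order`: let `A = P.printed z a`, `A' = P.printed z' a`, of equal length, at most `base n s`. The
lists printed in the steps `a, ..., a + ℓ` are equal for `z = pin π` and `z' = pin π'` (the states are
equal step by step, the answers are equal): `P.printed z (a + ℓ + 1) = A ++ D`,
`P.printed z' (a + ℓ + 1) = A' ++ D`. One of the lists `P.printed z T`, `P.printed z (a + ℓ + 1)` is a prefix of
the other (`P.printed z` is monotone for prefixes), both have at least `base n (s + 1)` elements (`h1`;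
the first one has `n ^ 2`), so the elements number `base n s, ..., base n (s+1) - 1` of `P.printed z T` are
those of `A ++ D`, and the same for `z'`; since `A` and `A'` have the same length `≤ base n s`, they are
the same elements of `D`. So the group `s` appears in the same order in `P.printed z T` and in
`P.printed z' T`, and for `i, i' ∈ grp n s`: `π i < π i'` iff `(i, s - i)` comes before `(i', s - i')` iff
`π' i < π' i'`. (It may be convenient to write comes before as: there are positions `u < v` with
`L[u] = ..`, `L[v] = ..`.)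
-/

namespace Pool.Agent.Lib_MP_852c2d_ts

open Finset

/-- The sum in the input given by a permutation. -/
theorem sm_pin {n : ℕ} (π : Equiv.Perm (Fin n)) (i j : Fin n) :
    sm (pin π) i j = ((i : ℕ) + j) * n + π i := by
  unfold sm pin
  simp only [Sum.elim_inl, Sum.elim_inr]
  ring

theorem pin_good {n : ℕ} (hn : 2 ≤ n) (π : Equiv.Perm (Fin n)) : Good (pin π) := by
  refine ⟨?_, ?_, ?_, ?_⟩
  · intro i j hij
    change (i : ℕ) * n + π i < (j : ℕ) * n + π j
    have h1 : (i : ℕ) + 1 ≤ j := hij
    have h2 : ((i : ℕ) + 1) * n ≤ (j : ℕ) * n := Nat.mul_le_mul_right n h1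
    have h3 := (π i).isLt
    rw [add_mul, one_mul] at h2
    omega
  · intro i j hij
    change (i : ℕ) * n < (j : ℕ) * n
    exact Nat.mul_lt_mul_of_pos_right hij (by omega)
  · intro i j i' j' h
    rw [sm_pin, sm_pin] at h
    have hn0 : 0 < n := by omega
    have h1 : (π i : ℕ) = π i' := by
      have h2 := congrArg (fun m => m % n) h
      simp only [Nat.mul_add_mod_self_right, Nat.mod_eq_of_lt (π i).isLt, Nat.mod_eq_of_lt (π i').isLt] at h2
      exact h2
    have h2 : i = i' := π.injective (Fin.ext h1)
    subst h2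
    refine ⟨rfl, ?_⟩
    have h3 : ((i : ℕ) + j) * n = ((i : ℕ) + j') * n := by omega
    have h4 := Nat.eq_of_mul_eq_mul_right hn0 h3
    exact Fin.ext (by omega)
  · intro a
    have h0 : 1 ≤ n := by omega
    have key : ∀ (i : Fin n) (m : ℕ), m < n → (i : ℕ) * n + m < 200 * n ^ 3 := by
      intro i m hm
      have h1 : (i : ℕ) + 1 ≤ n := i.isLt
      have h2 : ((i : ℕ) + 1) * n ≤ n * n := Nat.mul_le_mul_right n h1
      have h3 : n * n ≤ 200 * n ^ 3 := by
        have h4 : n * n * 1 ≤ n * n * (200 * n) := Nat.mul_le_mul_left _ (by omega)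
        calc n * n = n * n * 1 := (mul_one _).symm
          _ ≤ n * n * (200 * n) := h4
          _ = 200 * n ^ 3 := by ring
      rw [add_mul, one_mul] at h2
      omega
    rcases a with i | j
    · exact key i _ (π i).isLt
    · exact key j 0 (by omega)

theorem pin_injective {n : ℕ} : Function.Injective (pin : Equiv.Perm (Fin n) → Inp n) := by
  intro π π' h
  ext i
  have h1 := congrFun h (Sum.inl i)
  change (i : ℕ) * n + π i = (i : ℕ) * n + π' i at h1
  omega

/-- A sorted list has no repetitions. -/
theorem nodup_of_sorted {n : ℕ} {z : Inp n} {L : List (Fin n × Fin n)}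
    (hL : L.Pairwise fun q q' => sm z q.1 q.2 < sm z q'.1 q'.2) : L.Nodup :=
  hL.imp fun {q q'} h e => by subst e; exact lt_irrefl _ h

theorem printed_length {n : ℕ} {V : Type} (P : Printer n V) (T : ℕ) (z : Inp n)
    (h : P.Sorts T z) : (P.printed z T).length = n ^ 2 := by
  have h1 := nodup_of_sorted h.2
  have h2 : (P.printed z T).toFinset = univ := by
    ext q
    simp [h.1 q]
  rw [← List.toFinset_card_of_nodup h1, h2, card_univ, Fintype.card_prod, Fintype.card_fin, sq]

theorem printed_mono {n : ℕ} {V : Type} (P : Printer n V) (z : Inp n) {t t' : ℕ} (h : t ≤ t') :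
    P.printed z t <+: P.printed z t' := by
  induction h with
  | refl => exact List.prefix_rfl
  | step _ ih => exact ih.trans (List.prefix_append _ _)

/-- In a sorted complete list the number of elements before `q` is the rank of `q`. -/
theorem rank_of_split {n : ℕ} {z : Inp n} {L s t : List (Fin n × Fin n)} {q : Fin n × Fin n}
    (hc : ∀ q, q ∈ L) (hL : L.Pairwise fun q q' => sm z q.1 q.2 < sm z q'.1 q'.2)
    (e : L = s ++ q :: t) : s.length = rank z q.1 q.2 := by
  subst e
  have h1 := List.pairwise_append.1 hL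
  have h2 := List.pairwise_cons.1 h1.2.1
  have h3 : s.Nodup := nodup_of_sorted h1.1
  rw [← List.toFinset_card_of_nodup h3]
  unfold rank
  congr 1
  ext q'
  rw [List.mem_toFinset, mem_filter]
  constructor
  · intro hq
    exact ⟨mem_univ _, h1.2.2 q' hq q List.mem_cons_self⟩
  · rintro ⟨_, hq⟩
    rcases List.mem_append.1 (hc q') with h | h
    · exact h
    · rcases List.mem_cons.1 h with h | h
      · subst h
        exact absurd hq (lt_irrefl _)
      · exact absurd hq (not_lt.2 (h2.1 q' h).le)

theorem get_rank {n : ℕ} {z : Inp n} {L : List (Fin n × Fin n)}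
    (hc : ∀ q, q ∈ L) (hL : L.Pairwise fun q q' => sm z q.1 q.2 < sm z q'.1 q'.2)
    (q : Fin n × Fin n) : L[rank z q.1 q.2]? = some q := by
  obtain ⟨s, t, e⟩ := List.append_of_mem (hc q)
  rw [← rank_of_split hc hL e, e]
  simp

theorem eq_rank {n : ℕ} {z : Inp n} {L : List (Fin n × Fin n)}
    (hc : ∀ q, q ∈ L) (hL : L.Pairwise fun q q' => sm z q.1 q.2 < sm z q'.1 q'.2)
    {q : Fin n × Fin n} {u : ℕ} (h : L[u]? = some q) : u = rank z q.1 q.2 := by
  obtain ⟨hu, h1⟩ := List.getElem?_eq_some_iff.1 h
  have e : L = L.take u ++ q :: L.drop (u + 1) := by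
    rw [← h1, List.getElem_cons_drop, List.take_append_drop]
  rw [← rank_of_split hc hL e, List.length_take]
  omega

theorem rank_lt {n : ℕ} {z : Inp n} {q q' : Fin n × Fin n}
    (h : sm z q.1 q.2 < sm z q'.1 q'.2) : rank z q.1 q.2 < rank z q'.1 q'.2 := by
  unfold rank
  apply card_lt_card
  rw [ssubset_iff_of_subset]
  · exact ⟨q, by simp [h], by simp⟩
  · intro q1 h1
    rw [mem_filter] at h1 ⊢
    exact ⟨mem_univ _, h1.2.trans h⟩

theorem base_le_rank {n : ℕ} (π : Equiv.Perm (Fin n)) (i j : Fin n) :
    base n ((i : ℕ) + j) ≤ rank (pin π) i j := by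
  unfold base rank
  apply card_le_card
  intro q hq
  rw [mem_filter] at hq ⊢
  refine ⟨mem_univ _, ?_⟩
  rw [sm_pin, sm_pin]
  have h1 : (q.1 : ℕ) + q.2 + 1 ≤ (i : ℕ) + j := hq.2
  have h2 : ((q.1 : ℕ) + q.2 + 1) * n ≤ ((i : ℕ) + j) * n := Nat.mul_le_mul_right n h1
  have h3 := (π q.1).isLt
  rw [add_mul, one_mul] at h2
  omega

theorem rank_lt_base {n : ℕ} (π : Equiv.Perm (Fin n)) (i j : Fin n) :
    rank (pin π) i j < base n ((i : ℕ) + j + 1) := by
  unfold base rank
  apply card_lt_card
  rw [ssubset_iff_of_subset]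
  · exact ⟨(i, j), by simp, by simp⟩
  · intro q hq
    rw [mem_filter] at hq ⊢
    refine ⟨mem_univ _, ?_⟩
    have h1 := hq.2
    rw [sm_pin, sm_pin] at h1
    have h3 := (π i).isLt
    by_contra h4
    have h5 : ((i : ℕ) + j + 1) * n ≤ ((q.1 : ℕ) + q.2) * n := Nat.mul_le_mul_right n (by omega)
    rw [add_mul, one_mul] at h5
    omega

theorem lt_iff_rank {n s : ℕ} (π : Equiv.Perm (Fin n)) {i i' j j' : Fin n}
    (h : (i : ℕ) + j = s) (h' : (i' : ℕ) + j' = s) :
    π i < π i' ↔ rank (pin π) i j < rank (pin π) i' j' := by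
  have key : ∀ {i i' j j' : Fin n}, (i : ℕ) + j = s → (i' : ℕ) + j' = s → π i < π i' →
      rank (pin π) i j < rank (pin π) i' j' := by
    intro i i' j j' h h' hlt
    apply rank_lt (q := (i, j)) (q' := (i', j'))
    change sm (pin π) i j < sm (pin π) i' j'
    rw [sm_pin, sm_pin, h, h']
    exact Nat.add_lt_add_left hlt _
  refine ⟨key h h', fun hr => ?_⟩
  rcases lt_trichotomy (π i) (π i') with h1 | h1 | h1
  · exact h1
  · have h2 : i = i' := π.injective h1
    subst h2
    have h3 : j = j' := Fin.ext (by omega)
    subst h3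
    exact absurd hr (lt_irrefl _)
  · exact absurd hr (not_lt.2 (key h' h h1).le)

theorem get_of_prefix {α : Type*} {l1 l2 : List α} {u : ℕ} (h : l1 <+: l2) (hu : u < l1.length) :
    l1[u]? = l2[u]? := by
  obtain ⟨t, rfl⟩ := h
  rw [List.getElem?_append_left hu]

theorem get_printed {n : ℕ} {V : Type} (P : Printer n V) (z : Inp n) {t t' u : ℕ}
    (h : u < (P.printed z t).length) (h' : u < (P.printed z t').length) :
    (P.printed z t)[u]? = (P.printed z t')[u]? := by
  rcases le_total t t' with hle | hle
  · exact get_of_prefix (printed_mono P z hle) h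
  · exact (get_of_prefix (printed_mono P z hle) h').symm

/-- The two runs print the same lists from time `a` on. -/
theorem same_run {n : ℕ} {V : Type} (P : Printer n V) (z z' : Inp n) (a ℓ : ℕ)
    (hst : P.state z a = P.state z' a)
    (hans : ∀ u ≤ ℓ, P.ask (a + u) (P.state z (a + u)) z =
      P.ask (a + u) (P.state z' (a + u)) z') :
    ∀ u ≤ ℓ + 1, P.state z (a + u) = P.state z' (a + u) ∧
      ∃ D, P.printed z (a + u) = P.printed z a ++ D ∧
        P.printed z' (a + u) = P.printed z' a ++ D := by
  intro u
  induction u with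
  | zero => exact fun _ => ⟨hst, [], by simp, by simp⟩
  | succ u ih =>
    intro hu
    obtain ⟨h1, D, h2, h3⟩ := ih (by omega)
    have h4 := hans u (by omega)
    refine ⟨?_, D ++ P.print (a + u) (P.state z (a + u)) (P.ask (a + u) (P.state z (a + u)) z),
      ?_, ?_⟩
    · change P.next (a + u) (P.state z (a + u)) (P.ask (a + u) (P.state z (a + u)) z) =
        P.next (a + u) (P.state z' (a + u)) (P.ask (a + u) (P.state z' (a + u)) z')
      rw [h4, h1]
    · change P.printed z (a + u) ++ P.print (a + u) (P.state z (a + u))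
        (P.ask (a + u) (P.state z (a + u)) z) = _
      rw [h2, List.append_assoc]
    · change P.printed z' (a + u) ++ P.print (a + u) (P.state z' (a + u))
        (P.ask (a + u) (P.state z' (a + u)) z') = _
      rw [h3, h4, h1, List.append_assoc]

theorem same_order {n : ℕ} {V : Type} (P : Printer n V) (T s a ℓ : ℕ) (π π' : Equiv.Perm (Fin n))
    (h : P.Sorts T (pin π)) (h' : P.Sorts T (pin π'))
    (ha : (P.printed (pin π) a).length ≤ base n s)
    (h1 : base n (s + 1) ≤ (P.printed (pin π) (a + ℓ + 1)).length)
    (h1' : base n (s + 1) ≤ (P.printed (pin π') (a + ℓ + 1)).length)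
    (hlen : (P.printed (pin π) a).length = (P.printed (pin π') a).length)
    (hst : P.state (pin π) a = P.state (pin π') a)
    (hans : ∀ u ≤ ℓ, P.ask (a + u) (P.state (pin π) (a + u)) (pin π) =
      P.ask (a + u) (P.state (pin π') (a + u)) (pin π')) :
    ∀ i ∈ grp n s, ∀ i' ∈ grp n s, (π i < π i' ↔ π' i < π' i') := by
  obtain ⟨_, D, hD, hD'⟩ := same_run P (pin π) (pin π') a ℓ hst hans (ℓ + 1) le_rfl
  rw [← add_assoc] at hD hD'
  have key : ∀ i j : Fin n, (i : ℕ) + j = s → rank (pin π) i j = rank (pin π') i j := by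
    intro i j hij
    have b1 : base n s ≤ rank (pin π) i j := hij ▸ base_le_rank π i j
    have b2 : rank (pin π) i j < base n (s + 1) := hij ▸ rank_lt_base π i j
    have g1 : (P.printed (pin π) T)[rank (pin π) i j]? = some (i, j) :=
      get_rank h.1 h.2 (i, j)
    have l1 : rank (pin π) i j < (P.printed (pin π) T).length :=
      (List.getElem?_eq_some_iff.1 g1).1
    have g2 : (P.printed (pin π) (a + ℓ + 1))[rank (pin π) i j]? = some (i, j) := by
      rw [← get_printed P (pin π) l1 (b2.trans_le h1)]
      exact g1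
    have g3 : (P.printed (pin π') (a + ℓ + 1))[rank (pin π) i j]? = some (i, j) := by
      rw [hD, List.getElem?_append_right (ha.trans b1)] at g2
      rw [hD', List.getElem?_append_right (hlen ▸ ha.trans b1), ← hlen]
      exact g2
    have l2 : rank (pin π) i j < (P.printed (pin π') T).length := by
      rw [printed_length P T _ h', ← printed_length P T _ h]
      exact l1
    have g4 : (P.printed (pin π') T)[rank (pin π) i j]? = some (i, j) := by
      rw [get_printed P (pin π') l2 (b2.trans_le h1')]
      exact g3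
    exact eq_rank h'.1 h'.2 g4
  intro i hi i' hi'
  unfold grp at hi hi'
  rw [mem_filter] at hi hi'
  have e : (i : ℕ) + ((⟨s - i, hi.2.2⟩ : Fin n) : ℕ) = s := by
    have := hi.2.1
    simp only
    omega
  have e' : (i' : ℕ) + ((⟨s - i', hi'.2.2⟩ : Fin n) : ℕ) = s := by
    have := hi'.2.1
    simp only
    omega
  rw [lt_iff_rank π e e', lt_iff_rank π' e e', key _ _ e, key _ _ e']

end Pool.Agent.Lib_MP_852c2d_ts
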