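import Pool.Agent.Lib_MP_852c2d_ts.PermCount
import Pool.Agent.Lib_MP_852c2d_ts.PrintSim

set_option autoImplicit false

/-!
# Piece PF: part (B)

`slow` is the combinatorial core, `partB` the final form.

PROOF of `slow`. Suppose `T < (n / 2) (ℓ + 1)`. `E` = the permutations `π` with `P.Sorts T (pin π)`. For
`π ∈ E` and `s` let `a_s π` be the largest `t ≤ T` with `(P.printed (pin π) t).length ≤ base n s`
(`((range (T+1)).filter ..).sup id`; `t = 0` is in the set). `a_s` is monotone in `s`, `≤ T`. If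
`a_(s+1) > a_s + ℓ` for all `s` with `n ≤ 2 s + 1`, `s < n` (at least `n / 2` values of `s`), then `T ≥ (n/2)(ℓ+1)`
(telescoping), a contradiction. So for every `π ∈ E` there is such an `s` with `a_(s+1) ≤ a_s + ℓ`. Let `E_s` be the
set of these `π` for `s`. `W = grp n s` has `s + 1 ≥ n / 2` elements. Code of `π ∈ E_s`: `a = a_s π` (in
`Fin (T + 1)`), the state at time `a`, the length of `P.printed (pin π) a` (in `Fin (n ^ 2 + 1)`), the answers in
the steps `a, ..., a + ℓ` (`Fin (ℓ + 1) → Bool`). `same_order` applies: `h1` holds because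
`a_(s+1) ≤ a_s + ℓ`: either `a_(s+1) = T` and the list at time `a + ℓ + 1 ≥ T` has `≥ n ^ 2 ≥ base n (s+1)`
elements (`printed_mono`, `printed_length`), or `a_(s+1) + 1 ≤ T` and the list at that time has more than
`base n (s+1)` elements by maximality. So by `code_count`
`E_s.card * (n/2)! ≤ (T+1) * card V * (n^2+1) * 2^(ℓ+1) * n !`
(`(n/2)! ≤ W.card !`). Sum over the at most `n` values of `s`.

PROOF of `partB`. `H` = image of all permutations under `pin` (`pin_injective`, `pin_good`). If `n` is small or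
`n ^ 3 ≤ T` it is clear (`T ≥ 1` since something is printed: a sorted input needs `n ^ 2 ≥ 4` printed pairs, and
`H.filter` is nonempty; choose `c` small, `log₂ n ≤ n`). Otherwise take `ℓ + 1 := ⌊n log₂ n / 16⌋`:
`(n/2)! ≥ (n/4)^(n/4 - 1)`, i.e. `log₂ (n/2)! ≥ (n/4 - 2) (log₂ n - 3)`, and
`n (T+1) card V (n^2+1) 2^(ℓ+1) ≤ n * 2 n^3 * 2 n^2 * 2^S * 2^(ℓ+1)` is smaller than `(99/100) (n/2)!` for
`S ≤ c n log₂ n`, `n ≥ N`. So `slow` gives `T ≥ (n / 2) (ℓ + 1)`.
-/

namespace Pool.Agent.Lib_MP_852c2d_ts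

open Finset

theorem grp_card_AssB {n s : ℕ} (hs : s < n) : (grp n s).card = s + 1 := by
  have h : grp n s = Finset.Iic (⟨s, hs⟩ : Fin n) := by
    ext a
    simp only [grp, mem_filter, mem_univ, true_and, mem_Iic, Fin.le_def]
    constructor
    · exact fun h => h.1
    · exact fun h => ⟨h, by omega⟩
  rw [h, Fin.card_Iic]

theorem base_le_AssB (n s : ℕ) : base n s ≤ n ^ 2 := by
  unfold base
  refine (card_filter_le _ _).trans ?_
  rw [card_univ, Fintype.card_prod, Fintype.card_fin, sq]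

/-- The last time at which at most `base n s` pairs have been printed. -/
noncomputable def tm_AssB {n : ℕ} {V : Type} (P : Printer n V) (T s : ℕ)
    (π : Equiv.Perm (Fin n)) : ℕ :=
  ((range (T + 1)).filter fun t => (P.printed (pin π) t).length ≤ base n s).sup id

theorem tm_le_AssB {n : ℕ} {V : Type} (P : Printer n V) (T s : ℕ) (π : Equiv.Perm (Fin n)) :
    tm_AssB P T s π ≤ T := by
  unfold tm_AssB
  refine Finset.sup_le fun t ht => ?_
  rw [mem_filter, mem_range] at ht
  exact Nat.lt_succ_iff.mp ht.1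

theorem tm_len_AssB {n : ℕ} {V : Type} (P : Printer n V) (T s : ℕ) (π : Equiv.Perm (Fin n)) :
    (P.printed (pin π) (tm_AssB P T s π)).length ≤ base n s := by
  have hne : ((range (T + 1)).filter fun t => (P.printed (pin π) t).length ≤ base n s).Nonempty :=
    ⟨0, by simp [Printer.printed]⟩
  obtain ⟨t, ht, hte⟩ := Finset.exists_mem_eq_sup _ hne id
  have h1 : tm_AssB P T s π = t := hte
  rw [h1]
  exact (mem_filter.mp ht).2

theorem le_tm_AssB {n : ℕ} {V : Type} (P : Printer n V) (T s t : ℕ) (π : Equiv.Perm (Fin n))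
    (ht : t ≤ T) (hl : (P.printed (pin π) t).length ≤ base n s) : t ≤ tm_AssB P T s π := by
  have h : t ∈ (range (T + 1)).filter fun t => (P.printed (pin π) t).length ≤ base n s := by
    rw [mem_filter, mem_range]; exact ⟨by omega, hl⟩
  exact Finset.le_sup (f := id) h

theorem len_mono_AssB {n : ℕ} {V : Type} (P : Printer n V) (z : Inp n) {t t' : ℕ} (h : t ≤ t') :
    (P.printed z t).length ≤ (P.printed z t').length :=
  (printed_mono P z h).length_le

theorem full_AssB {n : ℕ} {V : Type} (P : Printer n V) (T ℓ s : ℕ) (π : Equiv.Perm (Fin n))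
    (hE : P.Sorts T (pin π)) (h : tm_AssB P T (s + 1) π ≤ tm_AssB P T s π + ℓ) :
    base n (s + 1) ≤ (P.printed (pin π) (tm_AssB P T s π + ℓ + 1)).length := by
  by_contra hc
  push Not at hc
  have h1 : tm_AssB P T s π + ℓ + 1 < T := by
    by_contra h2
    push Not at h2
    have h3 := len_mono_AssB P (pin π) h2
    rw [printed_length P T _ hE] at h3
    have h4 := base_le_AssB n (s + 1)
    omega
  have h2 := le_tm_AssB P T (s + 1) _ π h1.le hc.le
  omega

open Classical in
theorem slow {n : ℕ} (hn : 2 ≤ n) {V : Type} [Fintype V] (P : Printer n V) (T ℓ : ℕ)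
    (h : n * ((T + 1) * Fintype.card V * (n ^ 2 + 1) * 2 ^ (ℓ + 1)) * n.factorial <
      (univ.filter fun π : Equiv.Perm (Fin n) => P.Sorts T (pin π)).card * (n / 2).factorial) :
    (n / 2) * (ℓ + 1) ≤ T := by
  by_contra hT
  push Not at hT
  set E := univ.filter fun π : Equiv.Perm (Fin n) => P.Sorts T (pin π) with hEdef
  set Es : ℕ → Finset (Equiv.Perm (Fin n)) := fun s =>
    E.filter fun π => tm_AssB P T (s + 1) π ≤ tm_AssB P T s π + ℓ with hEs
  -- every `π` is in some `E_s`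
  have hcov : E ⊆ (Finset.Ico (n / 2) n).biUnion Es := by
    intro π hπ
    rw [mem_biUnion]
    by_contra hno
    push Not at hno
    have hstep : ∀ s, n / 2 ≤ s → s < n →
        tm_AssB P T s π + (ℓ + 1) ≤ tm_AssB P T (s + 1) π := by
      intro s hs1 hs2
      have h1 := hno s (mem_Ico.mpr ⟨hs1, hs2⟩)
      by_contra h2
      exact h1 (mem_filter.mpr ⟨hπ, by omega⟩)
    have htel : ∀ k, n / 2 + k ≤ n → k * (ℓ + 1) ≤ tm_AssB P T (n / 2 + k) π := by
      intro k
      induction k with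
      | zero => intro _; simp
      | succ k ih =>
        intro hk
        have h1 := ih (by omega)
        have h2 := hstep (n / 2 + k) (by omega) (by omega)
        have h3 : (k + 1) * (ℓ + 1) = k * (ℓ + 1) + (ℓ + 1) := by ring
        rw [h3]
        calc k * (ℓ + 1) + (ℓ + 1) ≤ tm_AssB P T (n / 2 + k) π + (ℓ + 1) := by omega
          _ ≤ _ := h2
    have h1 := htel (n / 2) (by omega)
    have h2 := tm_le_AssB P T (n / 2 + n / 2) π
    omega
  -- the count for one `s`
  have hone : ∀ s ∈ Finset.Ico (n / 2) n, (Es s).card * (n / 2).factorial ≤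
      ((T + 1) * Fintype.card V * (n ^ 2 + 1) * 2 ^ (ℓ + 1)) * n.factorial := by
    intro s hs
    rw [mem_Ico] at hs
    have hcc := code_count (grp n s) (Es s)
      (α := Fin (T + 1) × V × Fin (n ^ 2 + 1) × (Fin (ℓ + 1) → Bool))
      (fun π => (⟨tm_AssB P T s π, Nat.lt_succ_of_le (tm_le_AssB P T s π)⟩,
        P.state (pin π) (tm_AssB P T s π),
        Fin.ofNat (n ^ 2 + 1) (P.printed (pin π) (tm_AssB P T s π)).length,
        fun u => P.ask (tm_AssB P T s π + u) (P.state (pin π) (tm_AssB P T s π + u)) (pin π)))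
      (by
        intro π hπ π' hπ' hcode
        have hπ1 := mem_filter.mp hπ
        have hπ1' := mem_filter.mp hπ'
        have hSπ : P.Sorts T (pin π) := (mem_filter.mp hπ1.1).2
        have hSπ' : P.Sorts T (pin π') := (mem_filter.mp hπ1'.1).2
        simp only [Prod.mk.injEq] at hcode
        obtain ⟨hc1, hc2, hc3, hc4⟩ := hcode
        have ha : tm_AssB P T s π' = tm_AssB P T s π := by
          have := congrArg Fin.val hc1
          simpa using this.symm
        have hl : ∀ π : Equiv.Perm (Fin n),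
            (P.printed (pin π) (tm_AssB P T s π)).length < n ^ 2 + 1 := fun π =>
          Nat.lt_succ_of_le ((tm_len_AssB P T s π).trans (base_le_AssB n s))
        have hlen : (P.printed (pin π) (tm_AssB P T s π)).length =
            (P.printed (pin π') (tm_AssB P T s π')).length := by
          have := congrArg Fin.val hc3
          rw [Fin.val_ofNat, Fin.val_ofNat, Nat.mod_eq_of_lt (hl π), Nat.mod_eq_of_lt (hl π')] at this
          exact this
        rw [ha] at hc2 hlen
        refine same_order P T s (tm_AssB P T s π) ℓ π π' hSπ hSπ' (tm_len_AssB P T s π)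
          (full_AssB P T ℓ s π hSπ hπ1.2) ?_ hlen hc2 ?_
        · have := full_AssB P T ℓ s π' hSπ' hπ1'.2
          rwa [ha] at this
        · intro u hu
          have := congrFun hc4 ⟨u, Nat.lt_succ_of_le hu⟩
          simp only [ha] at this
          exact this)
    have hcard : Fintype.card (Fin (T + 1) × V × Fin (n ^ 2 + 1) × (Fin (ℓ + 1) → Bool)) =
        (T + 1) * Fintype.card V * (n ^ 2 + 1) * 2 ^ (ℓ + 1) := by
      simp only [Fintype.card_prod, Fintype.card_fin, Fintype.card_fun, Fintype.card_bool]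
      ring
    rw [hcard] at hcc
    refine le_trans ?_ hcc
    refine Nat.mul_le_mul_left _ (Nat.factorial_le ?_)
    rw [grp_card_AssB hs.2]
    omega
  have hsum : E.card * (n / 2).factorial ≤
      n * ((T + 1) * Fintype.card V * (n ^ 2 + 1) * 2 ^ (ℓ + 1)) * n.factorial := by
    calc E.card * (n / 2).factorial ≤ (∑ s ∈ Finset.Ico (n / 2) n, (Es s).card) * (n / 2).factorial :=
          Nat.mul_le_mul_right _ ((card_le_card hcov).trans card_biUnion_le)
      _ = ∑ s ∈ Finset.Ico (n / 2) n, (Es s).card * (n / 2).factorial := by rw [sum_mul]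
      _ ≤ ∑ s ∈ Finset.Ico (n / 2) n,
          ((T + 1) * Fintype.card V * (n ^ 2 + 1) * 2 ^ (ℓ + 1)) * n.factorial := sum_le_sum hone
      _ = (n - n / 2) * (((T + 1) * Fintype.card V * (n ^ 2 + 1) * 2 ^ (ℓ + 1)) * n.factorial) := by
          rw [sum_const, Nat.card_Ico, smul_eq_mul]
      _ ≤ n * (((T + 1) * Fintype.card V * (n ^ 2 + 1) * 2 ^ (ℓ + 1)) * n.factorial) :=
          Nat.mul_le_mul_right _ (Nat.sub_le _ _)
      _ = _ := by ring
  omega

theorem fact_AssB (n : ℕ) : (n / 2 + 1 - n / 2 / 2) ^ (n / 2 / 2) ≤ (n / 2).factorial := by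
  refine (Nat.pow_sub_le_descFactorial (n / 2) (n / 2 / 2)).trans ?_
  rw [← Nat.factorial_mul_descFactorial (Nat.div_le_self (n / 2) 2)]
  exact Nat.le_mul_of_pos_left _ (Nat.factorial_pos _)

/-- `log₂ (n/2)! ≥ (n - 3)/4 * (log₂ n - 2)`, in exponential form. -/
theorem fact2_AssB {n : ℕ} (hn : 65536 ≤ n) :
    (2 : ℝ) ^ (((n : ℝ) - 3) / 4 * (Real.logb 2 n - 2)) ≤ (n / 2).factorial := by
  have hnR : (65536 : ℝ) ≤ n := by exact_mod_cast hn
  have hn0 : (0 : ℝ) < n := by linarith
  have h1 : ((n : ℝ) / 4) ≤ ((n / 2 + 1 - n / 2 / 2 : ℕ) : ℝ) := by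
    have h2 : n ≤ 4 * (n / 2 + 1 - n / 2 / 2) := by omega
    have h3 : (n : ℝ) ≤ 4 * ((n / 2 + 1 - n / 2 / 2 : ℕ) : ℝ) := by exact_mod_cast h2
    linarith
  have h2 : (((n : ℝ) - 3) / 4) ≤ ((n / 2 / 2 : ℕ) : ℝ) := by
    have h3 : n ≤ 4 * (n / 2 / 2) + 3 := by omega
    have h4 : (n : ℝ) ≤ 4 * ((n / 2 / 2 : ℕ) : ℝ) + 3 := by exact_mod_cast h3
    linarith
  have h3 : (2 : ℝ) ^ (Real.logb 2 n - 2) = (n : ℝ) / 4 := by
    rw [Real.rpow_sub (by norm_num), Real.rpow_logb (by norm_num) (by norm_num) hn0]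
    norm_num
  rw [mul_comm, Real.rpow_mul (by norm_num), h3]
  calc ((n : ℝ) / 4) ^ (((n : ℝ) - 3) / 4) ≤ ((n : ℝ) / 4) ^ (((n / 2 / 2 : ℕ) : ℝ)) :=
        Real.rpow_le_rpow_of_exponent_le (by linarith) h2
    _ = ((n : ℝ) / 4) ^ (n / 2 / 2) := Real.rpow_natCast _ _
    _ ≤ (((n / 2 + 1 - n / 2 / 2 : ℕ) : ℝ)) ^ (n / 2 / 2) :=
        pow_le_pow_left₀ (by positivity) h1 _
    _ ≤ (n / 2).factorial := by exact_mod_cast fact_AssB n

theorem one_le_AssB {n : ℕ} (hn : 2 ≤ n) {V : Type} (P : Printer n V) (T : ℕ) (z : Inp n)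
    (h : P.Sorts T z) : 1 ≤ T := by
  by_contra hT
  have : T = 0 := by omega
  subst this
  have := h.1 (⟨0, by omega⟩, ⟨0, by omega⟩)
  simp [Printer.printed] at this

open Classical in
theorem partB : ∃ c : ℝ, 0 < c ∧ ∀ n : ℕ, 2 ≤ n → ∃ H : Finset (Inp n), H.Nonempty ∧
    (∀ z ∈ H, Good z) ∧ ∀ (S T : ℕ) (V : Type) [Fintype V] (P : Printer n V),
      Fintype.card V ≤ 2 ^ S → (S : ℝ) ≤ c * n * Real.logb 2 n →
      99 * H.card ≤ 100 * (H.filter fun z => P.Sorts T z).card →
      c * n ^ 2 * Real.logb 2 n ≤ T := by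
  refine ⟨1 / 2 ^ 36, by positivity, fun n hn => ?_⟩
  refine ⟨univ.image (pin : Equiv.Perm (Fin n) → Inp n), ⟨pin 1, mem_image_of_mem _ (mem_univ _)⟩,
    ?_, ?_⟩
  · intro z hz
    obtain ⟨π, -, rfl⟩ := mem_image.mp hz
    exact pin_good hn π
  intro S T V _ P hV hS hH
  have hnR : (2 : ℝ) ≤ n := by exact_mod_cast hn
  have hn0 : (0 : ℝ) < n := by linarith
  have hL1 : 1 ≤ Real.logb 2 n := by
    rw [Real.le_logb_iff_rpow_le (by norm_num) hn0]
    simpa using hnR
  have hLn : Real.logb 2 n ≤ n := by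
    rw [Real.logb_le_iff_le_rpow (by norm_num) hn0, Real.rpow_natCast]
    exact_mod_cast (Nat.lt_two_pow_self (n := n)).le
  have hHc : (univ.image (pin : Equiv.Perm (Fin n) → Inp n)).card = n.factorial := by
    rw [card_image_of_injective _ pin_injective, card_univ, Fintype.card_perm, Fintype.card_fin]
  have hHf : ((univ.image (pin : Equiv.Perm (Fin n) → Inp n)).filter fun z => P.Sorts T z).card =
      (univ.filter fun π : Equiv.Perm (Fin n) => P.Sorts T (pin π)).card := by
    rw [filter_image, card_image_of_injective _ pin_injective]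
  rw [hHc, hHf] at hH
  have hfac : 0 < n.factorial := Nat.factorial_pos n
  have hT1 : (1 : ℝ) ≤ T := by
    have hne : 0 < (univ.filter fun π : Equiv.Perm (Fin n) => P.Sorts T (pin π)).card := by
      by_contra h0
      have : (univ.filter fun π : Equiv.Perm (Fin n) => P.Sorts T (pin π)).card = 0 := by omega
      omega
    obtain ⟨π, hπ⟩ := card_pos.mp hne
    exact_mod_cast one_le_AssB hn P T _ (mem_filter.mp hπ).2
  -- small `n`
  rcases lt_or_ge n 65536 with hsm | hbig
  · have hsmR : (n : ℝ) ≤ 65536 := by exact_mod_cast hsm.le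
    have hL16 : Real.logb 2 n ≤ 16 := by
      rw [Real.logb_le_iff_le_rpow (by norm_num) hn0]
      refine hsmR.trans ?_
      norm_num
    have h1 : (n : ℝ) ^ 2 ≤ 65536 ^ 2 := pow_le_pow_left₀ hn0.le hsmR 2
    calc 1 / 2 ^ 36 * (n : ℝ) ^ 2 * Real.logb 2 n ≤ 1 / 2 ^ 36 * 65536 ^ 2 * 16 := by
          gcongr
      _ ≤ 1 := by norm_num
      _ ≤ T := hT1
  have hbigR : (65536 : ℝ) ≤ n := by exact_mod_cast hbig
  -- large `T`
  rcases le_or_gt (n ^ 3) T with hlT | hlT
  · have h1 : ((n : ℝ)) ^ 3 ≤ T := by exact_mod_cast hlT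
    calc 1 / 2 ^ 36 * (n : ℝ) ^ 2 * Real.logb 2 n ≤ 1 * (n : ℝ) ^ 2 * n := by
          gcongr
          norm_num
      _ = (n : ℝ) ^ 3 := by ring
      _ ≤ T := h1
  have hL : 16 ≤ Real.logb 2 n := by
    rw [Real.le_logb_iff_rpow_le (by norm_num) hn0]
    refine le_trans ?_ hbigR
    norm_num
  set L := Real.logb 2 n with hLdef
  set m := ⌊(n : ℝ) * L / 16⌋₊ with hm
  have hm1 : (m : ℝ) ≤ n * L / 16 := Nat.floor_le (by positivity)
  have hm2 : (n : ℝ) * L / 16 - 1 < m := Nat.sub_one_lt_floor _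
  have hnL : (65536 : ℝ) * 16 ≤ n * L := by nlinarith
  have hmpos : 1 ≤ m := by
    rw [hm, Nat.one_le_floor_iff]
    linarith
  have hslow := slow hn P T (m - 1) (by
    have hm' : m - 1 + 1 = m := by omega
    rw [hm']
    have hcardpos : 0 < n.factorial := hfac
    -- real form
    have hkey : ((n : ℝ) * ((T + 1) * Fintype.card V * (n ^ 2 + 1) * 2 ^ m)) <
        99 / 100 * (n / 2).factorial := by
      have hfac2 := fact2_AssB hbig
      rw [← hLdef] at hfac2
      have hTn : ((T : ℝ) + 1) ≤ n ^ 3 := by exact_mod_cast hlT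
      have hVR : (Fintype.card V : ℝ) ≤ 2 ^ S := by exact_mod_cast hV
      have hn6 : (n : ℝ) ^ 6 = (2 : ℝ) ^ (6 * L) := by
        rw [mul_comm, Real.rpow_mul (by norm_num), hLdef,
          Real.rpow_logb (by norm_num) (by norm_num) hn0]
        norm_cast
      have h2S : (2 : ℝ) ^ S = (2 : ℝ) ^ (S : ℝ) := (Real.rpow_natCast _ _).symm
      have h2m : (2 : ℝ) ^ m = (2 : ℝ) ^ (m : ℝ) := (Real.rpow_natCast _ _).symm
      have hle : ((n : ℝ) * ((T + 1) * Fintype.card V * (n ^ 2 + 1) * 2 ^ m)) ≤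
          2 * ((n : ℝ) ^ 6 * 2 ^ S * 2 ^ m) := by
        have hsq : (n : ℝ) ^ 2 + 1 ≤ 2 * n ^ 2 := by nlinarith
        calc ((n : ℝ) * ((T + 1) * Fintype.card V * (n ^ 2 + 1) * 2 ^ m)) ≤
            (n : ℝ) * (n ^ 3 * 2 ^ S * (2 * n ^ 2) * 2 ^ m) := by gcongr
          _ = 2 * ((n : ℝ) ^ 6 * 2 ^ S * 2 ^ m) := by ring
      have hexp : (2 : ℝ) * (2 * ((n : ℝ) ^ 6 * 2 ^ S * 2 ^ m)) ≤
          (2 : ℝ) ^ (((n : ℝ) - 3) / 4 * (L - 2)) := by
        have h4 : (2 : ℝ) * (2 * ((n : ℝ) ^ 6 * 2 ^ S * 2 ^ m)) =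
            (2 : ℝ) ^ (2 + 6 * L + S + m) := by
          rw [Real.rpow_add (by norm_num), Real.rpow_add (by norm_num), Real.rpow_add (by norm_num),
            ← hn6, ← h2S, ← h2m]
          norm_num
          ring
        rw [h4]
        refine Real.rpow_le_rpow_of_exponent_le (by norm_num) ?_
        have hS' : (S : ℝ) ≤ n * L / 16 := by
          refine hS.trans ?_
          have : (0 : ℝ) ≤ n * L := by positivity
          calc 1 / 2 ^ 36 * (n : ℝ) * L = 1 / 2 ^ 36 * (n * L) := by ring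
            _ ≤ 1 / 16 * (n * L) := by gcongr; norm_num
            _ = n * L / 16 := by ring
        nlinarith
      have hpos : (0 : ℝ) < 2 * ((n : ℝ) ^ 6 * 2 ^ S * 2 ^ m) := by positivity
      linarith
    have hHR : (99 : ℝ) * n.factorial ≤
        100 * (univ.filter fun π : Equiv.Perm (Fin n) => P.Sorts T (pin π)).card := by
      exact_mod_cast hH
    have hfR : (0 : ℝ) < n.factorial := by exact_mod_cast hfac
    have hf2R : (0 : ℝ) < (n / 2).factorial := by exact_mod_cast Nat.factorial_pos _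
    have hfin : ((n * ((T + 1) * Fintype.card V * (n ^ 2 + 1) * 2 ^ m) * n.factorial : ℕ) : ℝ) <
        (((univ.filter fun π : Equiv.Perm (Fin n) => P.Sorts T (pin π)).card *
          (n / 2).factorial : ℕ) : ℝ) := by
      push_cast
      calc (n : ℝ) * ((T + 1) * Fintype.card V * (n ^ 2 + 1) * 2 ^ m) * n.factorial <
          (99 / 100 * (n / 2).factorial) * n.factorial := mul_lt_mul_of_pos_right hkey hfR
        _ = (99 / 100 * n.factorial) * (n / 2).factorial := by ring
        _ ≤ (univ.filter fun π : Equiv.Perm (Fin n) => P.Sorts T (pin π)).card *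
            (n / 2).factorial := by
          refine mul_le_mul_of_nonneg_right ?_ hf2R.le
          linarith
    exact_mod_cast hfin)
  have hm' : m - 1 + 1 = m := by omega
  rw [hm'] at hslow
  have hslowR : ((n / 2 : ℕ) : ℝ) * m ≤ T := by exact_mod_cast hslow
  have hhalf : (n : ℝ) / 4 ≤ ((n / 2 : ℕ) : ℝ) := by
    have h3 : n ≤ 4 * (n / 2) := by omega
    have h4 : (n : ℝ) ≤ 4 * ((n / 2 : ℕ) : ℝ) := by exact_mod_cast h3
    linarith
  have hmm : (n : ℝ) * L / 32 ≤ m := by linarith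
  calc 1 / 2 ^ 36 * (n : ℝ) ^ 2 * L = 1 / 2 ^ 36 * ((n : ℝ) ^ 2 * L) := by ring
    _ ≤ 1 / 128 * ((n : ℝ) ^ 2 * L) := by gcongr; norm_num
    _ = (n : ℝ) / 4 * (n * L / 32) := by ring
    _ ≤ ((n / 2 : ℕ) : ℝ) * m := by gcongr
    _ ≤ T := hslowR

end Pool.Agent.Lib_MP_852c2d_ts
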