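import Mathlib

set_option autoImplicit false

/-!
# Averages over finite product spaces
-/

namespace Pool.Agent.Lib_MP_852c2d_ts

open Finset

/-- The average of `f`. -/
noncomputable def avg {α : Type*} [Fintype α] (f : α → ℝ) : ℝ := (∑ a, f a) / Fintype.card α

open Classical in
/-- The indicator of a proposition. -/
noncomputable def ind (P : Prop) : ℝ := if P then 1 else 0

theorem ind_nonneg (P : Prop) : 0 ≤ ind P := by
  unfold ind; split_ifs <;> norm_num

theorem ind_le_one (P : Prop) : ind P ≤ 1 := by
  unfold ind; split_ifs <;> norm_num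

theorem ind_mono {P Q : Prop} (h : P → Q) : ind P ≤ ind Q := by
  unfold ind
  by_cases hP : P
  · rw [if_pos hP, if_pos (h hP)]
  · rw [if_neg hP]; split_ifs <;> norm_num

theorem avg_mono {α : Type*} [Fintype α] {f g : α → ℝ} (h : ∀ a, f a ≤ g a) : avg f ≤ avg g :=
  div_le_div_of_nonneg_right (sum_le_sum fun a _ => h a) (by positivity)

theorem avg_nonneg {α : Type*} [Fintype α] {f : α → ℝ} (h : ∀ a, 0 ≤ f a) : 0 ≤ avg f :=
  div_nonneg (sum_nonneg fun a _ => h a) (by positivity)

theorem avg_const {α : Type*} [Fintype α] [Nonempty α] (c : ℝ) : avg (fun _ : α => c) = c := by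
  unfold avg
  rw [sum_const, card_univ, nsmul_eq_mul, mul_comm, mul_div_assoc,
    div_self (by exact_mod_cast Fintype.card_ne_zero), mul_one]

theorem avg_le_of_le {α : Type*} [Fintype α] [Nonempty α] {f : α → ℝ} {c : ℝ}
    (h : ∀ a, f a ≤ c) : avg f ≤ c := (avg_mono h).trans_eq (avg_const c)

theorem avg_add {α : Type*} [Fintype α] (f g : α → ℝ) :
    avg (fun a => f a + g a) = avg f + avg g := by
  unfold avg; rw [sum_add_distrib, add_div]

theorem avg_mul_left {α : Type*} [Fintype α] (c : ℝ) (f : α → ℝ) :
    avg (fun a => c * f a) = c * avg f := by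
  unfold avg; rw [← mul_sum, mul_div_assoc]

theorem avg_sum {α β : Type*} [Fintype α] (s : Finset β) (f : β → α → ℝ) :
    avg (fun a => ∑ b ∈ s, f b a) = ∑ b ∈ s, avg (f b) := by
  unfold avg; rw [sum_comm, sum_div]

theorem avg_ind {α : Type*} [Fintype α] (P : α → Prop) [DecidablePred P] :
    avg (fun a => ind (P a)) = ((univ.filter P).card : ℝ) / Fintype.card α := by
  unfold avg ind
  congr 1
  rw [← sum_boole]
  refine sum_congr rfl fun a _ => ?_
  by_cases h : P a <;> simp [h]

theorem avg_equiv {α β : Type*} [Fintype α] [Fintype β] (e : α ≃ β) (f : β → ℝ) :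
    avg (fun a => f (e a)) = avg f := by
  unfold avg; rw [Equiv.sum_comp e f, Fintype.card_congr e]

theorem avg_prod {α β : Type*} [Fintype α] [Fintype β] (f : α → β → ℝ) :
    avg (fun q : α × β => f q.1 q.2) = avg (fun a => avg (f a)) := by
  unfold avg
  rw [Fintype.sum_prod_type, Fintype.card_prod, ← sum_div, div_div, Nat.cast_mul, mul_comm]

/-- Exchange of the coordinates in `R` between two points. -/
def swapOn {ι α : Type*} [DecidableEq ι] (R : Finset ι) : (ι → α) × (ι → α) ≃ (ι → α) × (ι → α) where
  toFun q := (R.piecewise q.1 q.2, R.piecewise q.2 q.1)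
  invFun q := (R.piecewise q.1 q.2, R.piecewise q.2 q.1)
  left_inv q := by
    ext i <;> by_cases h : i ∈ R <;> simp [h]
  right_inv q := by
    ext i <;> by_cases h : i ∈ R <;> simp [h]

/-- First choose the coordinates in `R`, then the others. -/
theorem avg_tower {ι α : Type*} [Fintype ι] [DecidableEq ι] [Fintype α] [Nonempty α]
    (R : Finset ι) (f : (ι → α) → ℝ) :
    avg f = avg (fun z : ι → α => avg (fun w : ι → α => f (R.piecewise z w))) := by
  have h1 := avg_prod (fun z w : ι → α => f (R.piecewise z w))
  have h2 := avg_equiv (swapOn (α := α) R) (fun q => f q.1)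
  have h3 := avg_prod (fun z _ : ι → α => f z)
  simp only [swapOn, Equiv.coe_fn_mk] at h2
  rw [← h1, h2, h3]
  exact congrArg avg (funext fun z => (avg_const _).symm)

/-- First choose all coordinates, then the coordinate `i` again. -/
theorem avg_update {ι α : Type*} [Fintype ι] [DecidableEq ι] [Fintype α] [Nonempty α]
    (i : ι) (f : (ι → α) → ℝ) :
    avg f = avg (fun w : ι → α => avg (fun a : α => f (Function.update w i a))) := by
  have h1 : avg f = avg (fun w : ι → α => avg (fun z : ι → α => f (({i} : Finset ι).piecewise z w))) := by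
    rw [avg_tower {i} f]
    rw [← avg_prod, ← avg_prod]
    exact (avg_equiv (Equiv.prodComm (ι → α) (ι → α)) (fun q => f (({i} : Finset ι).piecewise q.1 q.2))).symm
  rw [h1]
  refine congrArg avg (funext fun w => ?_)
  have h2 : ∀ z : ι → α, ({i} : Finset ι).piecewise z w = Function.update w i (z i) := by
    intro z; ext j
    by_cases h : j = i
    · subst h; simp
    · simp [h]
  simp only [h2]
  have h3 := avg_equiv (Equiv.funSplitAt i α) (fun q => f (Function.update w i q.1))
  rw [show (fun z : ι → α => f (Function.update w i (z i))) = fun z =>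
    f (Function.update w i ((Equiv.funSplitAt i α) z).1) from rfl, h3,
    avg_prod (fun a (_ : {j // j ≠ i} → α) => f (Function.update w i a))]
  exact congrArg avg (funext fun a => avg_const _)

end Pool.Agent.Lib_MP_852c2d_ts
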