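import Mathlib

set_option autoImplicit false

/-!
# Sorting `X + Y`: inputs and machines

An input of size `n` is a vector `z` with entries `z (inl i) = x_i` and `z (inr j) = y_j`.
-/

namespace Pool.Agent.Lib_MP_852c2d_ts

open Finset

/-- An input: `z (Sum.inl i)` is `x_i` and `z (Sum.inr j)` is `y_j`. -/
abbrev Inp (n : ℕ) : Type := Fin n ⊕ Fin n → ℕ

/-- The sum `x_i + y_j`. -/
def sm {n : ℕ} (z : Inp n) (i j : Fin n) : ℕ := z (Sum.inl i) + z (Sum.inr j)

/-- Presorted inputs: `x` and `y` are strictly increasing, all sums `x_i + y_j` are different, and
all entries are smaller than `200 n ^ 3`. -/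
def Good {n : ℕ} (z : Inp n) : Prop :=
  StrictMono (fun i => z (Sum.inl i)) ∧ StrictMono (fun j => z (Sum.inr j)) ∧
    (∀ i j i' j', sm z i j = sm z i' j' → i = i' ∧ j = j') ∧ ∀ a, z a < 200 * n ^ 3

/-- The number of sums that are smaller than `x_i + y_j`. -/
def rank {n : ℕ} (z : Inp n) (i j : Fin n) : ℕ :=
  (univ.filter fun q : Fin n × Fin n => sm z q.1 q.2 < sm z i j).card

/-- A machine with the set `V` of states which in every step reads (completely) at most `k` of the
inputs, chosen by the time and the state, and then, depending on the time, the state and the values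
read, moves to a new state and outputs any set of triples `(r, i, j)`. -/
structure Machine (n k : ℕ) (V : Type) where
  /-- the state at time `0` -/
  start : V
  /-- the inputs read at time `t` in state `v` -/
  reads : ℕ → V → Finset (Fin n ⊕ Fin n)
  card_reads : ∀ t v, (reads t v).card ≤ k
  /-- the next state -/
  next : (t : ℕ) → (v : V) → (reads t v → ℕ) → V
  /-- the triples output -/
  out : (t : ℕ) → (v : V) → (reads t v → ℕ) → Set (ℕ × Fin n × Fin n)

/-- The state at time `t` on the input `z`. -/
def Machine.state {n k : ℕ} {V : Type} (M : Machine n k V) (z : Inp n) : ℕ → V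
  | 0 => M.start
  | t + 1 => M.next t (M.state z t) fun a => z a

/-- In its first `T` steps the machine outputs exactly the triples `(r, i, j)` for which
`x_i + y_j` is the sum of rank `r`, in any order. -/
def Machine.Sorts {n k : ℕ} {V : Type} (M : Machine n k V) (T : ℕ) (z : Inp n) : Prop :=
  {o | ∃ t < T, o ∈ M.out t (M.state z t) fun a => z a} = {o | o.1 = rank z o.2.1 o.2.2}

/-- A machine with the set `V` of states which in every step asks one yes-no question, of any kind,
about the whole input (the question is chosen by the time and the state), and then, depending on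
the time, the state and the answer, moves to a new state and prints a list of pairs. -/
structure Printer (n : ℕ) (V : Type) where
  /-- the state at time `0` -/
  start : V
  /-- the question asked at time `t` in state `v` -/
  ask : ℕ → V → Inp n → Bool
  /-- the next state -/
  next : ℕ → V → Bool → V
  /-- the pairs printed -/
  print : ℕ → V → Bool → List (Fin n × Fin n)

/-- The state at time `t` on the input `z`. -/
def Printer.state {n : ℕ} {V : Type} (P : Printer n V) (z : Inp n) : ℕ → V
  | 0 => P.start
  | t + 1 => P.next t (P.state z t) (P.ask t (P.state z t) z)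

/-- The list printed in the first `t` steps on the input `z`. -/
def Printer.printed {n : ℕ} {V : Type} (P : Printer n V) (z : Inp n) : ℕ → List (Fin n × Fin n)
  | 0 => []
  | t + 1 => P.printed z t ++ P.print t (P.state z t) (P.ask t (P.state z t) z)

/-- In its first `T` steps the machine prints all pairs `(i, j)`, in increasing order of the sums
`x_i + y_j`. -/
def Printer.Sorts {n : ℕ} {V : Type} (P : Printer n V) (T : ℕ) (z : Inp n) : Prop :=
  (∀ q, q ∈ P.printed z T) ∧
    (P.printed z T).Pairwise fun q q' => sm z q.1 q.2 < sm z q'.1 q'.2

end Pool.Agent.Lib_MP_852c2d_ts
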