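import Pool.Agent.Lib_MP_852c2d_ts.Static

set_option autoImplicit false

/-!
# Piece KT: the toggle lemma with known coordinates

PROOF. Use `avg_tower (oddOut K)` for `f ω = ind (AllTrue C (K.piecewise z ω))`: for the points
`w, w'` of the two averages, `K.piecewise z ((oddOut K).piecewise w w')` equals
`(oddOut K).piecewise w (K.piecewise z w')` because `oddOut K` is disjoint from `K`. For fixed `w'`
apply `static_toggle` with the base point `K.piecewise z w'` (it has the values of `z` at the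
indices `q.1 ∈ K`, so `h1`, `h2` hold for it; for `cell` note that it only uses the coordinate
`q.1`) and `r q := (some r with (r, q) ∈ C) - base n (q.1 + q.2)`: `AllTrue C` gives for every
`q ∈ Q` that `r' = base + lrank` for this chosen `r'`, so `lrank = r' - base`. (Exchange the order
of the two averages with `avg_prod`/`avg_equiv (Equiv.prodComm _ _)` if necessary, `avg_le_of_le`.)
Finally `(1/2)^(q/8) ≤ 2 exp(-q/200)`: `q / 8 ≥ (q - 7)/8`, `(1/2)^((q-7)/8) ≤ 2 (1/2)^(q/8)`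
(real exponents), or directly: with `k = q / 8`, `q ≤ 8 k + 7`, `exp (-q/200) ≥ exp(-(8k+7)/200)`,
`exp(7/200) ≤ 2`, `(1/2)^k ≤ exp(-8k/200)` since `1/2 ≤ exp(-8/200)`.
-/

namespace Pool.Agent.Lib_MP_852c2d_ts

open Finset

private theorem avg_comm {α β : Type*} [Fintype α] [Fintype β] (f : α → β → ℝ) :
    avg (fun a => avg (fun b => f a b)) = avg (fun b => avg (fun a => f a b)) := by
  rw [← avg_prod (fun b a => f a b), ← avg_prod (fun a b => f a b)]
  exact (avg_equiv (Equiv.prodComm β α) (fun q => f q.1 q.2)).symm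

private theorem half_pow_le (q : ℕ) :
    (1 / 2 : ℝ) ^ (q / 8) ≤ 2 * Real.exp (-(q : ℝ) / 200) := by
  have h1 : (q : ℝ) ≤ 8 * ((q / 8 : ℕ) : ℝ) + 7 := by
    have : q ≤ 8 * (q / 8) + 7 := by omega
    exact_mod_cast this
  have h2 : (1 / 2 : ℝ) ^ (q / 8) ≤ Real.exp (-(1 / 25)) ^ (q / 8) := by
    apply pow_le_pow_left₀ (by norm_num)
    have := Real.add_one_le_exp (-(1 / 25) : ℝ)
    linarith
  have h3 : (1 : ℝ) ≤ 2 * Real.exp (-(7 / 200)) := by
    have := Real.add_one_le_exp (-(7 / 200) : ℝ)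
    linarith
  have h4 : Real.exp (-(7 / 200)) * Real.exp (-(1 / 25)) ^ (q / 8) ≤
      Real.exp (-(q : ℝ) / 200) := by
    rw [← Real.exp_nat_mul, ← Real.exp_add]
    apply Real.exp_le_exp.2
    linarith
  have h5 : 0 ≤ Real.exp (-(1 / 25)) ^ (q / 8) := by positivity
  calc (1 / 2 : ℝ) ^ (q / 8) ≤ 1 * Real.exp (-(1 / 25)) ^ (q / 8) := by rw [one_mul]; exact h2
    _ ≤ (2 * Real.exp (-(7 / 200))) * Real.exp (-(1 / 25)) ^ (q / 8) :=
        mul_le_mul_of_nonneg_right h3 h5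
    _ = 2 * (Real.exp (-(7 / 200)) * Real.exp (-(1 / 25)) ^ (q / 8)) := by ring
    _ ≤ 2 * Real.exp (-(q : ℝ) / 200) := by linarith

theorem known_toggle {n p : ℕ} (hp : p.Prime) (hn : n < p) (hp2 : p ≤ 2 * n) (hN : 1000 ≤ n)
    (z : Om n p) (K : Finset (Fin n)) (hK : 16 * K.card ≤ n)
    (Q : Finset (Fin n × Fin n)) (hQ : 32 * Q.card ≤ n) (hQK : ∀ q ∈ Q, q.1 ∈ K)
    (h1 : ∀ q ∈ Q, (q.1 : ℕ) % 2 = 0 ∧ n ≤ 2 * (q.1 + q.2 : ℕ) ∧ 2 * (q.1 + q.2 : ℕ) < 3 * n ∧
      p ≤ (z q.1).1 ∧ ((z q.1).1 : ℕ) < 2 * p)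
    (h2 : ∀ q ∈ Q, ∀ q' ∈ Q, (q.1 + q.2 : ℕ) = q'.1 + q'.2 →
      cell z (q.1 + q.2) q.1 = cell z (q'.1 + q'.2) q'.1 → q = q')
    (C : Set (ℕ × Fin n × Fin n)) (hC : ∀ q ∈ Q, ∃ r, (r, q) ∈ C) :
    avg (fun ω : Om n p => ind (AllTrue C (K.piecewise z ω))) ≤
      3 * Real.exp (-(Q.card : ℝ) / 200) := by
  classical
  have : Nonempty (Fin (3 * p) × Bool) := ⟨(⟨0, by have := hp.pos; omega⟩, true)⟩
  rw [avg_tower (oddOut K), avg_comm]
  refine avg_le_of_le fun w' => ?_
  have hz : ∀ q ∈ Q, (K.piecewise z w') q.1 = z q.1 := fun q hq =>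
    Finset.piecewise_eq_of_mem _ _ _ (hQK q hq)
  let r : Fin n × Fin n → ℕ := fun q =>
    if h : ∃ r, (r, q) ∈ C then h.choose - base n (q.1 + q.2) else 0
  have h3 := static_toggle hp hn hp2 hN (K.piecewise z w') K hK Q hQ
    (fun q hq => by rw [hz q hq]; exact h1 q hq)
    (fun q hq q' hq' hs hc => h2 q hq q' hq' hs (by
      unfold cell at hc ⊢
      rwa [hz q hq, hz q' hq'] at hc)) r
  have h4 : ∀ w : Om n p, K.piecewise z ((oddOut K).piecewise w w') =
      (oddOut K).piecewise w (K.piecewise z w') := by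
    intro w
    funext i
    by_cases hi : i ∈ K
    · have hi' : i ∉ oddOut K := by
        unfold oddOut
        simp [hi]
      rw [Finset.piecewise_eq_of_mem _ _ _ hi, Finset.piecewise_eq_of_notMem _ _ _ hi',
        Finset.piecewise_eq_of_mem _ _ _ hi]
    · rw [Finset.piecewise_eq_of_notMem _ _ _ hi]
      by_cases hi' : i ∈ oddOut K
      · rw [Finset.piecewise_eq_of_mem _ _ _ hi', Finset.piecewise_eq_of_mem _ _ _ hi']
      · rw [Finset.piecewise_eq_of_notMem _ _ _ hi', Finset.piecewise_eq_of_notMem _ _ _ hi',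
          Finset.piecewise_eq_of_notMem _ _ _ hi]
  have h5 : avg (fun w : Om n p => ind (AllTrue C (K.piecewise z ((oddOut K).piecewise w w')))) ≤
      avg (fun w : Om n p => ind (∀ q ∈ Q,
        lrank ((oddOut K).piecewise w (K.piecewise z w')) (q.1 + q.2) q.1 = r q)) := by
    refine avg_mono fun w => ind_mono fun hA q hq => ?_
    rw [h4 w] at hA
    have hex := hC q hq
    have h6 := hA _ hex.choose_spec
    have h7 : r q = hex.choose - base n (q.1 + q.2) := dif_pos hex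
    rw [h7]
    simp only at h6
    omega
  have h8 := half_pow_le Q.card
  linarith

end Pool.Agent.Lib_MP_852c2d_ts
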