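import Pool.Agent.Lib_MP_852c2d_ts.Defs
import Pool.Agent.Lib_MP_852c2d_ts.Avg

set_option autoImplicit false

/-!
# The random inputs of part (A)

`p` is a prime with `n < p ≤ 2 n`, `e_j = j ^ 2 mod p`, `K = 16 n p`. A point `ω` of the
probability space consists of a cell number `c_i < 3 p` and a bit `b_i` for every index `i`.

`x_i = 2 (i K + 4 n c_i + off_i) + (b_i if i is even)`, `y_j = 2 (j K + 4 n e_j)`, with
`off_i = n + i` for even `i` and `off_i = 2 n b_i + i` for odd `i`. So the sums are grouped by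
`s = i + j`; inside a group they are compared first by the cell `c_i + e_(s-i)` and then by
`off_i`; the bits of even indices do not matter for the order.
-/

namespace Pool.Agent.Lib_MP_852c2d_ts

open Finset

/-- The quadratic residues used as `y`-offsets. -/
def e (p j : ℕ) : ℕ := j ^ 2 % p

/-- The probability space. -/
abbrev Om (n p : ℕ) : Type := Fin n → Fin (3 * p) × Bool

/-- The offset inside a cell. -/
def off (n i : ℕ) (b : Bool) : ℕ := if i % 2 = 0 then n + i else if b then 2 * n + i else i

/-- The cell of the index `a` in the group `s`. -/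
def cell {n p : ℕ} (ω : Om n p) (s : ℕ) (a : Fin n) : ℕ := (ω a).1 + e p (s - a)

/-- The value of the index `a` in the group `s`. -/
def val {n p : ℕ} (ω : Om n p) (s : ℕ) (a : Fin n) : ℕ := 4 * n * cell ω s a + off n a (ω a).2

/-- The members of the group `s`: the `i` for which there is a `j` with `i + j = s`. -/
def grp (n s : ℕ) : Finset (Fin n) := univ.filter fun a => (a : ℕ) ≤ s ∧ s - a < n

/-- The rank of the index `i` in its group `s`. -/
def lrank {n p : ℕ} (ω : Om n p) (s : ℕ) (i : Fin n) : ℕ :=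
  ((grp n s).filter fun a => val ω s a < val ω s i).card

/-- The number of pairs in the groups before the group `s`. -/
def base (n s : ℕ) : ℕ := (univ.filter fun q : Fin n × Fin n => (q.1 : ℕ) + q.2 < s).card

/-- The random input. -/
def inp {n p : ℕ} (ω : Om n p) : Inp n :=
  Sum.elim
    (fun i => 2 * (i * (16 * n * p) + 4 * n * (ω i).1 + off n i (ω i).2) +
      if (i : ℕ) % 2 = 0 then (ω i).2.toNat else 0)
    (fun j => 2 * (j * (16 * n * p) + 4 * n * e p j))

/-- The pairs that are counted: `i` is even, the group is one of the middle ones, the cell number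
of `i` is in the middle third, and no other even index has the same cell in this group. -/
def Cnt {n p : ℕ} (ω : Om n p) (q : Fin n × Fin n) : Prop :=
  (q.1 : ℕ) % 2 = 0 ∧ n ≤ 2 * (q.1 + q.2 : ℕ) ∧ 2 * (q.1 + q.2 : ℕ) < 3 * n ∧
    p ≤ (ω q.1).1 ∧ ((ω q.1).1 : ℕ) < 2 * p ∧
    ∀ a ∈ grp n (q.1 + q.2), (a : ℕ) % 2 = 0 → a ≠ q.1 →
      cell ω (q.1 + q.2) a ≠ cell ω (q.1 + q.2) q.1

/-- All triples of `C` are true for the input given by `ω`. -/
def AllTrue {n p : ℕ} (C : Set (ℕ × Fin n × Fin n)) (ω : Om n p) : Prop :=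
  ∀ o ∈ C, o.1 = base n (o.2.1 + o.2.2) + lrank ω (o.2.1 + o.2.2) o.2.1

open Classical in
/-- The counted pairs that occur in `C`. -/
noncomputable def hits {n p : ℕ} (C : Set (ℕ × Fin n × Fin n)) (ω : Om n p) :
    Finset (Fin n × Fin n) :=
  univ.filter fun q => Cnt ω q ∧ ∃ r, (r, q) ∈ C

/-- The odd indices outside `F`. -/
def oddOut {n : ℕ} (F : Finset (Fin n)) : Finset (Fin n) :=
  univ.filter fun a => (a : ℕ) % 2 = 1 ∧ a ∉ F

end Pool.Agent.Lib_MP_852c2d_ts
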