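import Pool.Agent.Lib_MP_852c2d_ts.Model

set_option autoImplicit false

/-!
# The inputs of part (B)
-/

namespace Pool.Agent.Lib_MP_852c2d_ts

/-- The input of part (B) given by a permutation: `x_i = i n + π i`, `y_j = j n`. -/
def pin {n : ℕ} (π : Equiv.Perm (Fin n)) : Inp n :=
  Sum.elim (fun i => i * n + π i) (fun j => j * n)

end Pool.Agent.Lib_MP_852c2d_ts
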