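import Pool.Agent.Lib_MP_852c2d_ts.PModel

set_option autoImplicit false

/-!
# Piece PP: permutations with the same order on a window

PROOFS. `perm_count`: the map `(π, σ) ↦ σ.ofSubtype.trans π` (i.e. `π ∘ σ`, `σ` a permutation of `W`
extended by the identity; `Equiv.Perm.ofSubtype`) from `G × Perm W` to `Perm (Fin n)` is injective:
let `π ∘ σ = π' ∘ σ'`. Outside `W`: `π = π'`. `π` and `π'` map `W` onto the same set (image of
`π ∘ σ`), and both have the same order pattern on `W` as `π₀`, so `π = π'` on `W` (for `a ∈ W` the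
number of `b ∈ W` with `π b < π a` is the same for both, so `π a` and `π' a` have the same rank in
the common image), hence `π = π'`, `σ = σ'`. `card (Perm W) = W.card !`, `card (Perm (Fin n)) = n !`.
`code_count`: sum over the values of the code; for a value taken in `E` by `π₀`, all `π ∈ E` with
this value are in the set of `perm_count` for `π₀`.
-/

namespace Pool.Agent.Lib_MP_852c2d_ts

open Finset

private theorem rank_eq {n : ℕ} (W : Finset (Fin n)) (π π₀ : Equiv.Perm (Fin n))
    (h : ∀ a ∈ W, ∀ b ∈ W, (π a < π b ↔ π₀ a < π₀ b)) (a : Fin n) (ha : a ∈ W) :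
    ((W.image π).filter fun s => s < π a).card = (W.filter fun b => π₀ b < π₀ a).card := by
  have h1 : (W.image π).filter (fun s => s < π a) = (W.filter fun b => π₀ b < π₀ a).image π := by
    ext s
    simp only [mem_filter, mem_image]
    constructor
    · rintro ⟨⟨b, hb, rfl⟩, h2⟩
      exact ⟨b, ⟨hb, (h b hb a ha).1 h2⟩, rfl⟩
    · rintro ⟨b, ⟨hb, h2⟩, rfl⟩
      exact ⟨⟨b, hb, rfl⟩, (h b hb a ha).2 h2⟩
  rw [h1, card_image_of_injective _ π.injective]

private theorem eq_of_rank {n : ℕ} (S : Finset (Fin n)) {x y : Fin n} (hx : x ∈ S) (hy : y ∈ S)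
    (h : (S.filter fun s => s < x).card = (S.filter fun s => s < y).card) : x = y := by
  by_contra hne
  have key : ∀ x y : Fin n, x ∈ S → x < y →
      (S.filter fun s => s < x).card < (S.filter fun s => s < y).card := by
    intro x y hx hxy
    apply card_lt_card
    rw [Finset.ssubset_iff_of_subset]
    · exact ⟨x, mem_filter.2 ⟨hx, hxy⟩, fun h2 => lt_irrefl x (mem_filter.1 h2).2⟩
    · intro s hs
      exact mem_filter.2 ⟨(mem_filter.1 hs).1, (mem_filter.1 hs).2.trans hxy⟩
  rcases lt_or_gt_of_ne hne with h1 | h1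
  · exact absurd h (key x y hx h1).ne
  · exact absurd h (key y x hy h1).ne'

open Classical in
theorem perm_count {n : ℕ} (W : Finset (Fin n)) (π₀ : Equiv.Perm (Fin n)) :
    (univ.filter fun π : Equiv.Perm (Fin n) => ∀ a ∈ W, ∀ b ∈ W, (π a < π b ↔ π₀ a < π₀ b)).card *
      W.card.factorial ≤ n.factorial := by
  set G := univ.filter fun π : Equiv.Perm (Fin n) =>
    ∀ a ∈ W, ∀ b ∈ W, (π a < π b ↔ π₀ a < π₀ b) with hG
  have h1 : G.card * W.card.factorial = (G ×ˢ (univ : Finset (Equiv.Perm {x // x ∈ W}))).card := by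
    rw [card_product, card_univ, Fintype.card_perm, Fintype.card_coe]
  have h2 : n.factorial = (univ : Finset (Equiv.Perm (Fin n))).card := by
    rw [card_univ, Fintype.card_perm, Fintype.card_fin]
  rw [h1, h2]
  apply card_le_card_of_injOn
    (fun p : Equiv.Perm (Fin n) × Equiv.Perm {x // x ∈ W} => p.1 * Equiv.Perm.ofSubtype p.2)
    (fun _ _ => mem_univ _)
  rintro ⟨π, σ⟩ hp ⟨π', σ'⟩ hp' heq
  simp only [coe_product, Set.mem_prod, mem_coe, mem_univ, and_true, hG, mem_filter,
    true_and] at hp hp'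
  have heq' : π * Equiv.Perm.ofSubtype σ = π' * Equiv.Perm.ofSubtype σ' := heq
  have himg : ∀ (π : Equiv.Perm (Fin n)) (σ : Equiv.Perm {x // x ∈ W}),
      W.image (π * Equiv.Perm.ofSubtype σ) = W.image π := by
    intro π σ
    ext s
    simp only [mem_image, Equiv.Perm.mul_apply]
    constructor
    · rintro ⟨a, ha, rfl⟩
      refine ⟨Equiv.Perm.ofSubtype σ a, ?_, rfl⟩
      rw [Equiv.Perm.ofSubtype_apply_of_mem σ ha]
      exact (σ ⟨a, ha⟩).2
    · rintro ⟨a, ha, rfl⟩
      refine ⟨(σ.symm ⟨a, ha⟩ : {x // x ∈ W}), (σ.symm ⟨a, ha⟩).2, ?_⟩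
      rw [Equiv.Perm.ofSubtype_apply_of_mem σ (σ.symm ⟨a, ha⟩).2]
      simp
  have hS : W.image π = W.image π' := by
    rw [← himg π σ, ← himg π' σ', heq']
  have hππ : π = π' := by
    ext1 a
    by_cases ha : a ∈ W
    · apply eq_of_rank (W.image π) (mem_image_of_mem _ ha)
        (by rw [hS]; exact mem_image_of_mem _ ha)
      rw [rank_eq W π π₀ hp a ha, hS, rank_eq W π' π₀ hp' a ha]
    · have h3 := congrArg (fun τ : Equiv.Perm (Fin n) => τ a) heq'
      simp only [Equiv.Perm.mul_apply] at h3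
      rw [Equiv.Perm.ofSubtype_apply_of_not_mem σ ha,
        Equiv.Perm.ofSubtype_apply_of_not_mem σ' ha] at h3
      exact h3
  subst hππ
  have h4 : Equiv.Perm.ofSubtype σ = Equiv.Perm.ofSubtype σ' := mul_left_cancel heq'
  have h5 : σ = σ' := Equiv.Perm.ofSubtype_injective h4
  rw [h5]

theorem code_count {n : ℕ} (W : Finset (Fin n)) (E : Finset (Equiv.Perm (Fin n))) {α : Type}
    [Fintype α] (code : Equiv.Perm (Fin n) → α)
    (h : ∀ π ∈ E, ∀ π' ∈ E, code π = code π' → ∀ a ∈ W, ∀ b ∈ W, (π a < π b ↔ π' a < π' b)) :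
    E.card * W.card.factorial ≤ Fintype.card α * n.factorial := by
  classical
  have h1 : E.card = ∑ c : α, (E.filter fun π => code π = c).card :=
    card_eq_sum_card_fiberwise (f := code) (t := univ) fun _ _ => mem_coe.2 (mem_univ _)
  rw [h1, sum_mul]
  calc ∑ c : α, (E.filter fun π => code π = c).card * W.card.factorial
      ≤ ∑ _c : α, n.factorial := by
        refine sum_le_sum fun c _ => ?_
        by_cases hne : (E.filter fun π => code π = c).Nonempty
        · obtain ⟨π₀, hπ₀⟩ := hne
          rw [mem_filter] at hπ₀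
          refine le_trans (Nat.mul_le_mul_right _ (card_le_card ?_)) (perm_count W π₀)
          intro π hπ
          rw [mem_filter] at hπ
          rw [mem_filter]
          exact ⟨mem_univ _, h π hπ.1 π₀ hπ₀.1 (hπ.2.trans hπ₀.2.symm)⟩
        · rw [not_nonempty_iff_eq_empty.1 hne]
          simp
    _ = Fintype.card α * n.factorial := by
        rw [sum_const, card_univ, smul_eq_mul]

end Pool.Agent.Lib_MP_852c2d_ts
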