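import Pool.Agent.Lib_MP_852c2d_ts.Model

set_option autoImplicit false

/-!
# Piece QD: two groups meet at most once

PROOF. Modulo `p`: `u + (s' - a)^2 = u' + (s - a)^2` and the same for `b`. Subtract:
`(s' - a)^2 - (s' - b)^2 = (s - a)^2 - (s - b)^2`, i.e. `2 (b - a) s' = 2 (b - a) s` in `ZMod p`
(expand the squares), so `2 (b - a) (s' - s) = 0`; `2 ≠ 0`, `s' ≠ s` in `ZMod p`
(as `|s' - s| < p`, `s ≠ s'`), so `a = b` in `ZMod p`, so `a = b` (both `< n ≤ p`).
-/

namespace Pool.Agent.Lib_MP_852c2d_ts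

theorem quad_unique {p n s s' u u' : ℕ} (hp : p.Prime) (hp2 : 2 < p) (hn : n ≤ p) (hs : s ≠ s')
    (h1 : s < s' + p) (h2 : s' < s + p) {a b : ℕ} (ha : a < n) (hb : b < n)
    (has : a ≤ s) (has' : a ≤ s') (hbs : b ≤ s) (hbs' : b ≤ s')
    (Ha : u + e p (s' - a) = u' + e p (s - a)) (Hb : u + e p (s' - b) = u' + e p (s - b)) :
    a = b := by
  haveI : Fact p.Prime := ⟨hp⟩
  have he : ∀ j : ℕ, ((e p j : ℕ) : ZMod p) = (j : ZMod p) ^ 2 := by
    intro j
    unfold e
    rw [ZMod.natCast_mod, Nat.cast_pow]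
  have Ha' := congrArg (fun m : ℕ => (m : ZMod p)) Ha
  have Hb' := congrArg (fun m : ℕ => (m : ZMod p)) Hb
  simp only [Nat.cast_add, he] at Ha' Hb'
  rw [Nat.cast_sub has', Nat.cast_sub has] at Ha'
  rw [Nat.cast_sub hbs', Nat.cast_sub hbs] at Hb'
  have hprod : (2 : ZMod p) * (((b : ZMod p) - a) * ((s' : ZMod p) - s)) = 0 := by
    linear_combination Ha' - Hb'
  have h2ne : (2 : ZMod p) ≠ 0 := by
    intro h
    have h3 : ((2 : ℕ) : ZMod p) = 0 := by exact_mod_cast h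
    rw [ZMod.natCast_eq_zero_iff] at h3
    have := Nat.le_of_dvd (by norm_num) h3
    omega
  have hne : (s' : ZMod p) - s ≠ 0 := by
    intro h
    have h3 : (s' : ZMod p) = (s : ZMod p) := sub_eq_zero.mp h
    rw [ZMod.natCast_eq_natCast_iff] at h3
    rcases Nat.lt_or_gt_of_ne hs with hlt | hgt
    · have h4 : p ∣ s' - s := (Nat.modEq_iff_dvd' hlt.le).mp h3.symm
      have := Nat.le_of_dvd (by omega) h4
      omega
    · have h4 : p ∣ s - s' := (Nat.modEq_iff_dvd' (le_of_lt hgt)).mp h3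
      have := Nat.le_of_dvd (by omega) h4
      omega
  rcases mul_eq_zero.mp hprod with h | h
  · exact absurd h h2ne
  rcases mul_eq_zero.mp h with h | h
  · have h3 : (b : ZMod p) = (a : ZMod p) := sub_eq_zero.mp h
    rw [ZMod.natCast_eq_natCast_iff] at h3
    have h4 := h3
    unfold Nat.ModEq at h4
    rw [Nat.mod_eq_of_lt (by omega), Nat.mod_eq_of_lt (by omega)] at h4
    exact h4.symm
  · exact absurd h hne

end Pool.Agent.Lib_MP_852c2d_ts
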