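import Pool.Agent.Lib_MP_852c2d_ts.Model

set_option autoImplicit false

/-!
# Piece RV: revealing the cells of many even indices

`sep A j z` = the indices `i ∈ A` whose cell number is in the middle third and whose cell in the
group `i + j i` is different from the cells of the smaller members `i' ∈ A` with the same group.

PROOF. Induction on `A` by `Finset.induction_on_max`: `A = insert i A'`, all elements of `A'` are
smaller than `i`. Then `sep (insert i A') j z` is `sep A' j z` (which does not depend on the
coordinate `i`) together with `i` if `z i` satisfies the condition. `avg_update i`: for fixed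
other coordinates the number of the cell numbers `c < 3 p` that satisfy the condition is at least
`p - A'.card ≥ 3 p / 4` (every `i' ∈ A'` with the same group forbids at most one value of `c`: `cell` is
`c + const`), so the average over the new value of the coordinate `i` of
`exp (-(if ok then 1 else 0) / 200)` is at most `1 - (1 - exp (-1/200)) / 4 ≤ 1 - 1/804`
(`1 - exp(-1/200) ≥ 1/201` because `exp (1/200) ≥ 201/200`). Here `4 * A.card ≤ p` is used.
-/

namespace Pool.Agent.Lib_MP_852c2d_ts

open Finset

open Classical in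
/-- The separated indices. -/
noncomputable def sep {n p : ℕ} (A : Finset (Fin n)) (j : Fin n → Fin n) (z : Om n p) :
    Finset (Fin n) :=
  A.filter fun i => p ≤ (z i).1 ∧ ((z i).1 : ℕ) < 2 * p ∧
    ∀ i' ∈ A, i' < i → (i' + j i' : ℕ) = i + j i → cell z (i + j i) i' ≠ cell z (i + j i) i

/-- The condition on the new cell number `c`, the other coordinates being given by `w`. -/
def okc {n p : ℕ} (A : Finset (Fin n)) (j : Fin n → Fin n) (i : Fin n) (w : Om n p) (c : ℕ) :
    Prop :=
  p ≤ c ∧ c < 2 * p ∧ ∀ i' ∈ A, (i' + j i' : ℕ) = i + j i →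
    cell w (i + j i) i' ≠ c + e p (i + j i - i)

theorem sep_congr {n p : ℕ} (A : Finset (Fin n)) (j : Fin n → Fin n) (z z' : Om n p)
    (h : ∀ i ∈ A, z i = z' i) : sep A j z = sep A j z' := by
  classical
  unfold sep
  refine filter_congr fun k hk => ?_
  have hc : ∀ i' ∈ A, ∀ s, cell z s i' = cell z' s i' := fun i' hi' s => by
    unfold cell; rw [h i' hi']
  rw [h k hk]
  constructor
  · rintro ⟨h1, h2, h3⟩
    refine ⟨h1, h2, fun i' hi' hlt hs => ?_⟩
    rw [← hc i' hi', ← hc k hk]
    exact h3 i' hi' hlt hs
  · rintro ⟨h1, h2, h3⟩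
    refine ⟨h1, h2, fun i' hi' hlt hs => ?_⟩
    rw [hc i' hi', hc k hk]
    exact h3 i' hi' hlt hs

theorem sep_insert_card {n p : ℕ} (A : Finset (Fin n)) (j : Fin n → Fin n) (i : Fin n)
    (hmax : ∀ x ∈ A, x < i) (w : Om n p) (a : Fin (3 * p) × Bool) :
    ((sep (insert i A) j (Function.update w i a)).card : ℝ) =
      (sep A j w).card + ind (okc A j i w a.1) := by
  classical
  have hi : i ∉ A := fun h => lt_irrefl _ (hmax i h)
  have hne : ∀ x ∈ A, x ≠ i := fun x hx => (hmax x hx).ne
  set z := Function.update w i a with hz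
  have hzA : ∀ x ∈ A, z x = w x := fun x hx => Function.update_of_ne (hne x hx) _ _
  have hzi : z i = a := Function.update_self _ _ _
  have h1 : sep A j z = sep A j w := sep_congr A j z w hzA
  have h2 : (insert i A).filter (fun k => p ≤ (z k).1 ∧ ((z k).1 : ℕ) < 2 * p ∧
      ∀ i' ∈ insert i A, i' < k → (i' + j i' : ℕ) = k + j k →
        cell z (k + j k) i' ≠ cell z (k + j k) k) =
      (insert i A).filter (fun k => (k ∈ sep A j z) ∨ (k = i ∧ okc A j i w a.1)) := by
    refine filter_congr fun k hk => ?_
    rcases mem_insert.1 hk with rfl | hkA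
    · have hns : k ∉ sep A j z := fun h => hi (mem_filter.1 h).1
      constructor
      · rintro ⟨h1, h2, h3⟩
        rw [hzi] at h1 h2
        refine Or.inr ⟨rfl, h1, h2, fun i' hi' hs => ?_⟩
        have h4 := h3 i' (mem_insert_of_mem hi') (hmax i' hi') hs
        unfold cell at h4 ⊢
        rw [hzA i' hi', hzi] at h4
        exact h4
      · rintro (h | ⟨-, h1, h2, h3⟩)
        · exact absurd h hns
        · rw [hzi]
          refine ⟨h1, h2, fun i' hi' hlt hs => ?_⟩
          have hi'A : i' ∈ A := by
            rcases mem_insert.1 hi' with rfl | h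
            · exact absurd hlt (lt_irrefl _)
            · exact h
          have h4 := h3 i' hi'A hs
          unfold cell at h4 ⊢
          rw [hzA i' hi'A, hzi]
          exact h4
    · constructor
      · rintro ⟨h1, h2, h3⟩
        refine Or.inl (mem_filter.2 ⟨hkA, h1, h2, fun i' hi' hlt hs => ?_⟩)
        exact h3 i' (mem_insert_of_mem hi') hlt hs
      · rintro (h | ⟨h, -⟩)
        · obtain ⟨-, h1, h2, h3⟩ := mem_filter.1 h
          refine ⟨h1, h2, fun i' hi' hlt hs => ?_⟩
          rcases mem_insert.1 hi' with rfl | h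
          · exact absurd (hlt.trans (hmax k hkA)) (lt_irrefl _)
          · exact h3 i' h hlt hs
        · exact absurd h (hne k hkA)
  have h3 : sep (insert i A) j z =
      (insert i A).filter (fun k => (k ∈ sep A j z) ∨ (k = i ∧ okc A j i w a.1)) := h2
  have hsub : sep A j w ⊆ A := filter_subset _ _
  have hnw : i ∉ sep A j w := fun h => hi (hsub h)
  rw [h3, h1]
  by_cases hok : okc A j i w a.1
  · have h4 : (insert i A).filter (fun k => (k ∈ sep A j w) ∨ (k = i ∧ okc A j i w a.1)) =
        insert i (sep A j w) := by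
      ext k
      simp only [mem_filter, mem_insert]
      constructor
      · rintro ⟨-, h | ⟨h, -⟩⟩
        · exact Or.inr h
        · exact Or.inl h
      · rintro (h | h)
        · exact ⟨Or.inl h, Or.inr ⟨h, hok⟩⟩
        · exact ⟨Or.inr (hsub h), Or.inl h⟩
    rw [h4, card_insert_of_notMem hnw]
    unfold ind
    rw [if_pos hok]
    push_cast
    ring
  · have h4 : (insert i A).filter (fun k => (k ∈ sep A j w) ∨ (k = i ∧ okc A j i w a.1)) =
        sep A j w := by
      ext k
      simp only [mem_filter, mem_insert]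
      constructor
      · rintro ⟨-, h | ⟨-, h⟩⟩
        · exact h
        · exact absurd h hok
      · intro h
        exact ⟨Or.inr (hsub h), Or.inl h⟩
    rw [h4]
    unfold ind
    rw [if_neg hok, add_zero]

theorem okc_count {n p : ℕ} (A : Finset (Fin n)) (j : Fin n → Fin n) (i : Fin n) (w : Om n p)
    (hp : 0 < p) (hA : 4 * A.card ≤ p) :
    (1 / 4 : ℝ) ≤ avg (fun a : Fin (3 * p) × Bool => ind (okc A j i w a.1)) := by
  classical
  rw [avg_ind]
  set T : Finset (Fin (3 * p)) := univ.filter fun c => okc A j i w c with hT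
  have hT2 : (univ.filter fun a : Fin (3 * p) × Bool => okc A j i w a.1) = T ×ˢ univ := by
    ext ⟨c, b⟩
    simp [hT]
  set S : Finset ℕ := Finset.Ico p (2 * p) \
    A.image (fun i' => cell w (i + j i) i' - e p (i + j i - i)) with hS
  have hST : S ⊆ T.image (fun c : Fin (3 * p) => (c : ℕ)) := by
    intro c hc
    obtain ⟨hc1, hc2⟩ := mem_sdiff.1 hc
    obtain ⟨h1, h2⟩ := Finset.mem_Ico.1 hc1
    refine mem_image.2 ⟨⟨c, by omega⟩, ?_, rfl⟩
    refine mem_filter.2 ⟨mem_univ _, h1, h2, fun i' hi' _ heq => hc2 ?_⟩
    refine mem_image.2 ⟨i', hi', ?_⟩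
    rw [heq]
    simp
  have hS1 : p - A.card ≤ S.card := by
    have h1 := le_card_sdiff (A.image (fun i' => cell w (i + j i) i' - e p (i + j i - i)))
      (Finset.Ico p (2 * p))
    have h2 : (A.image (fun i' => cell w (i + j i) i' - e p (i + j i - i))).card ≤ A.card :=
      card_image_le
    rw [Nat.card_Ico] at h1
    rw [hS]
    omega
  have hT1 : p - A.card ≤ T.card := hS1.trans ((card_le_card hST).trans card_image_le)
  rw [hT2, card_product, card_univ, Fintype.card_prod, Fintype.card_fin, Fintype.card_bool]
  have h3 : 3 * p ≤ 4 * T.card := by omega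
  have h4 : (3 * p : ℝ) ≤ 4 * T.card := by exact_mod_cast h3
  have hp' : (0 : ℝ) < p := by exact_mod_cast hp
  rw [div_le_div_iff₀ (by norm_num) (by push_cast; positivity)]
  push_cast
  nlinarith

theorem exp_small : Real.exp (-1 / 200) ≤ 200 / 201 := by
  have h := Real.add_one_le_exp (1 / 200 : ℝ)
  have h1 : Real.exp (-1 / 200) = (Real.exp (1 / 200))⁻¹ := by
    rw [← Real.exp_neg]; congr 1; ring
  rw [h1]
  have h2 : (201 / 200 : ℝ) ≤ Real.exp (1 / 200) := by linarith
  calc (Real.exp (1 / 200))⁻¹ ≤ (201 / 200 : ℝ)⁻¹ := inv_anti₀ (by norm_num) h2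
    _ = 200 / 201 := by norm_num

theorem exp_ind (P : Prop) :
    Real.exp (-(ind P) / 200) = 1 + (Real.exp (-1 / 200) - 1) * ind P := by
  unfold ind
  split_ifs <;> simp

theorem reveal {n p : ℕ} (hp : 0 < p) (A : Finset (Fin n)) (hA : 4 * A.card ≤ p)
    (j : Fin n → Fin n) :
    avg (fun z : Om n p => Real.exp (-((sep A j z).card : ℝ) / 200)) ≤
      (1 - 1 / 804 : ℝ) ^ A.card := by
  classical
  haveI : Nonempty (Fin (3 * p)) := ⟨⟨0, by omega⟩⟩
  induction A using Finset.induction_on_max with
  | empty =>
    have h : (fun z : Om n p => Real.exp (-((sep ∅ j z).card : ℝ) / 200)) = fun _ => 1 := by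
      funext z
      simp [sep]
    rw [h, avg_const]
    simp
  | insert i A hmax ih =>
    have hi : i ∉ A := fun h => lt_irrefl _ (hmax i h)
    rw [card_insert_of_notMem hi] at hA ⊢
    have ih' := ih (by omega)
    rw [avg_update i]
    have hstep : ∀ w : Om n p, avg (fun a : Fin (3 * p) × Bool =>
        Real.exp (-((sep (insert i A) j (Function.update w i a)).card : ℝ) / 200)) ≤
        (1 - 1 / 804 : ℝ) * Real.exp (-((sep A j w).card : ℝ) / 200) := by
      intro w
      have h1 : ∀ a : Fin (3 * p) × Bool,
          Real.exp (-((sep (insert i A) j (Function.update w i a)).card : ℝ) / 200) =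
          Real.exp (-((sep A j w).card : ℝ) / 200) *
            (1 + (Real.exp (-1 / 200) - 1) * ind (okc A j i w a.1)) := by
        intro a
        rw [sep_insert_card A j i hmax w a, ← exp_ind, ← Real.exp_add]
        congr 1
        ring
      simp only [h1]
      rw [avg_mul_left, avg_add, avg_const, avg_mul_left, mul_comm]
      refine mul_le_mul_of_nonneg_right ?_ (Real.exp_pos _).le
      have h2 := okc_count A j i w hp (by omega)
      have h3 := exp_small
      nlinarith
    calc avg (fun w : Om n p => avg (fun a : Fin (3 * p) × Bool =>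
        Real.exp (-((sep (insert i A) j (Function.update w i a)).card : ℝ) / 200)))
        ≤ avg (fun w : Om n p => (1 - 1 / 804 : ℝ) *
          Real.exp (-((sep A j w).card : ℝ) / 200)) := avg_mono hstep
      _ = (1 - 1 / 804 : ℝ) * avg (fun w : Om n p =>
          Real.exp (-((sep A j w).card : ℝ) / 200)) := avg_mul_left _ _
      _ ≤ (1 - 1 / 804 : ℝ) * (1 - 1 / 804 : ℝ) ^ A.card :=
          mul_le_mul_of_nonneg_left ih' (by norm_num)
      _ = (1 - 1 / 804 : ℝ) ^ (A.card + 1) := by rw [pow_succ, mul_comm]

end Pool.Agent.Lib_MP_852c2d_ts
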