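import Pool.Agent.Lib_MP_852c2d_ts.Toggle
import Pool.Agent.Lib_MP_852c2d_ts.Quad

set_option autoImplicit false

/-!
# Piece ST: the toggle lemma for `X + Y`

`z` gives all coordinates except those in `O = oddOut K` (the odd indices outside `K`), which are
random.

PROOF. Let `ι = Fin n`, `κ = Fin n × Fin n`, `D = 3 p`, `M = Q.card / 8`. For `q ∈ Q` put
`s = q.1 + q.2`, `V = cell z s q.1 = c + e p q.2`, `p ≤ V < 3 p - 1`. `q.1` is even, so it is not in
`O` and has its values from `z`. For `a ∈ grp n s` put `thr q a = some (V - e p (s - a))` (a number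
in `[1, 3 p)`), for `a ∉ grp n s` put `none`.
(1) For odd `a ∈ grp n s` with the values `(c, b)`: `val < val of q.1` iff `Below (thr q a) (c, b)`:
compare the cells `c + e p (s - a)` and `V`; in the same cell `off n a b < off n q.1 _ = n + q.1` iff
`b = false` (`a < n + q.1`, `2 n + a > n + q.1`). So
`lrank (O.piecewise ω z) s q.1 = (a number depending only on z) + cntb O thr q ω`.
So the event is `∀ q ∈ Q, cntb O thr q ω = r q - const` (or empty if `r q < const`).
(2) `∑ a ∈ O, hitable D Q thr a = ∑ q ∈ Q, #{a ∈ O | ∃ u < D, Priv Q thr a u q}` (double counting;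
`Finset.sum_card_bipartiteAbove_eq_sum_card_bipartiteBelow` or `sum_comm`). For fixed `q`: the
members of the group `s` are an interval of `≥ (n - 1) / 2` indices, it contains at least
`n / 4 - 1` odd ones (for instance the group contains all `a` with `s + 1 ≤ a + n` and `a ≤ s`,
`a < n`), at least `n / 4 - 1 - n / 16` of them in `O`. Of these, `a` is not private for `q` only if some
`q' ∈ Q`, `q' ≠ q`, has `a ∈ grp n s'` and `V - e p (s - a) = V' - e p (s' - a)`, i.e.
`V + e p (s' - a) = V' + e p (s - a)`; for `s' = s` this gives `V = V'`, impossible by `h2`; for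
`s' ≠ s` there is at most one such `a` (`quad_unique`, `|s - s'| < n < p`). So at least
`n / 4 - 1 - n / 16 - Q.card ≥ n / 8` private ones (`n ≥ 1000`, `Q.card ≤ n / 32`).
Hence `∑ a ∈ O, (hitable - M) ≥ Q.card * n / 8 - (Q.card / 8) * (n / 2) ≥ Q.card * n / 16 =: x`
(`O` has at most `n / 2` elements), and `x / (2 D) = x / (6 p) ≥ Q.card / 192`. Apply `toggle`.
-/

namespace Pool.Agent.Lib_MP_852c2d_ts

open Finset

private theorem val_lt_st {n x V a i : ℕ} (ha : a < n) (hi : i < n) (hao : a % 2 = 1)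
    (hie : i % 2 = 0) (b b' : Bool) :
    4 * n * x + off n a b < 4 * n * V + off n i b' ↔ x < V ∨ (x = V ∧ b = false) := by
  have h0 : off n i b' = n + i := by unfold off; rw [if_pos hie]
  have h1 : off n a b = if b then 2 * n + a else a := by
    unfold off; rw [if_neg (by omega)]
  rw [h0, h1]
  rcases lt_trichotomy x V with h | h | h
  · have h2 : 4 * n * (x + 1) ≤ 4 * n * V := Nat.mul_le_mul_left _ h
    rw [Nat.mul_add, Nat.mul_one] at h2
    refine iff_of_true ?_ (Or.inl h)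
    cases b <;> simp <;> omega
  · subst h
    cases b <;> simp <;> omega
  · have h2 : 4 * n * (V + 1) ≤ 4 * n * x := Nat.mul_le_mul_left _ h
    rw [Nat.mul_add, Nat.mul_one] at h2
    refine iff_of_false ?_ (by omega)
    cases b <;> simp <;> omega

/-- the thresholds -/
private def thrSt {n p : ℕ} (z : Om n p) (q : Fin n × Fin n) (a : Fin n) : Option ℕ :=
  if a ∈ grp n (q.1 + q.2) then some (cell z (q.1 + q.2) q.1 - e p ((q.1 + q.2 : ℕ) - a)) else none

private theorem e_lt_st {p : ℕ} (hp : 0 < p) (j : ℕ) : e p j < p := Nat.mod_lt _ hp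

private theorem lrank_st {n p : ℕ} (hp : 0 < p) (z : Om n p) (K : Finset (Fin n))
    (q : Fin n × Fin n) (hq : (q.1 : ℕ) % 2 = 0) (hV : p ≤ (z q.1).1) :
    ∃ c : ℕ, ∀ ω : Om n p, lrank ((oddOut K).piecewise ω z) (q.1 + q.2) q.1 =
      c + cntb (oddOut K) (thrSt z) q ω := by
  classical
  refine ⟨((grp n (q.1 + q.2)).filter fun a => a ∉ oddOut K ∧
    val z (q.1 + q.2) a < val z (q.1 + q.2) q.1).card, fun ω => ?_⟩
  have hqO : q.1 ∉ oddOut K := by
    unfold oddOut
    rw [mem_filter]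
    intro h
    omega
  have hvq : val ((oddOut K).piecewise ω z) (q.1 + q.2) q.1 = val z (q.1 + q.2) q.1 := by
    unfold val cell
    rw [piecewise_eq_of_notMem _ _ _ hqO]
  unfold lrank
  rw [hvq, ← card_filter_add_card_filter_not (fun a => a ∉ oddOut K), filter_filter, filter_filter]
  refine congrArg₂ (· + ·) (congrArg card ?_) ?_
  · refine filter_congr fun a _ => ?_
    constructor
    · rintro ⟨h1, h2⟩
      refine ⟨h2, ?_⟩
      unfold val cell at h1 ⊢
      rwa [piecewise_eq_of_notMem _ _ _ h2] at h1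
    · rintro ⟨h1, h2⟩
      refine ⟨?_, h1⟩
      unfold val cell at h2 ⊢
      rwa [piecewise_eq_of_notMem _ _ _ h1]
  · unfold cntb
    refine congrArg card ?_
    ext a
    rw [mem_filter, mem_filter, not_not]
    have key : ∀ h : a ∈ oddOut K, a ∈ grp n (q.1 + q.2) →
        (val ((oddOut K).piecewise ω z) (q.1 + q.2) a < val z (q.1 + q.2) q.1 ↔
          Below (thrSt z q a) (ω a)) := by
      intro h hg
      have hao : (a : ℕ) % 2 = 1 := by
        unfold oddOut at h
        exact (mem_filter.1 h).2.1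
      have hval : val ((oddOut K).piecewise ω z) (q.1 + q.2) a =
          4 * n * ((ω a).1 + e p ((q.1 + q.2 : ℕ) - a)) + off n a (ω a).2 := by
        unfold val cell
        rw [piecewise_eq_of_mem _ _ _ h]
      rw [hval]
      unfold val
      rw [val_lt_st a.2 q.1.2 hao hq]
      unfold Below thrSt
      rw [if_pos hg]
      have he := e_lt_st hp ((q.1 + q.2 : ℕ) - a)
      have hV' : p ≤ cell z (q.1 + q.2) q.1 := by
        unfold cell
        omega
      constructor
      · intro h1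
        refine ⟨_, rfl, ?_⟩
        rcases h1 with h1 | ⟨h1, h2⟩
        · left; omega
        · right; exact ⟨by omega, h2⟩
      · rintro ⟨u, hu, h1⟩
        rw [Option.some.injEq] at hu
        subst hu
        rcases h1 with h1 | ⟨h1, h2⟩
        · left; omega
        · right; exact ⟨by omega, h2⟩
    constructor
    · rintro ⟨h1, h2, h3⟩
      exact ⟨h3, (key h3 h1).1 h2⟩
    · rintro ⟨h1, h2⟩
      have hg : a ∈ grp n (q.1 + q.2) := by
        by_contra hg
        unfold Below thrSt at h2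
        rw [if_neg hg] at h2
        obtain ⟨u, hu, _⟩ := h2
        exact absurd hu (by simp)
      exact ⟨hg, (key h1 hg).2 h2, h1⟩

/-- the number of odd members of a middle group -/
private theorem odd_grp_st {n s : ℕ} (hn : 1 ≤ n) (h1 : n ≤ 2 * s) (h2 : 2 * s < 3 * n) :
    n ≤ 4 * ((grp n s).filter fun a : Fin n => (a : ℕ) % 2 = 1).card + 4 := by
  obtain ⟨o, ho1, ho2, ho3⟩ : ∃ o, o % 2 = 1 ∧ s + 1 ≤ o + n ∧
      (∀ k, k < (n - 1) / 4 → o + 2 * k ≤ s ∧ o + 2 * k < n) := by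
    by_cases hs : s < n
    · exact ⟨1, rfl, by omega, fun k hk => by omega⟩
    · rcases Nat.mod_two_eq_zero_or_one (s + 1 - n) with h | h
      · exact ⟨s + 1 - n + 1, by omega, by omega, fun k hk => by omega⟩
      · exact ⟨s + 1 - n, by omega, by omega, fun k hk => by omega⟩
  have h3 : (univ : Finset (Fin ((n - 1) / 4))).card ≤
      ((grp n s).filter fun a : Fin n => (a : ℕ) % 2 = 1).card := by
    refine card_le_card_of_injOn (fun k => ⟨o + 2 * k, (ho3 k k.2).2⟩) ?_ ?_
    · intro k _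
      have := ho3 k k.2
      have hk := k.2
      rw [mem_coe, mem_filter, grp, mem_filter]
      refine ⟨⟨mem_univ _, ?_, ?_⟩, ?_⟩ <;> simp only <;> omega
    · intro k _ k' _ h
      have h4 : o + 2 * (k : ℕ) = o + 2 * (k' : ℕ) := by
        simpa using congrArg (fun x : Fin n => (x : ℕ)) h
      exact Fin.ext (by omega)
  rw [card_univ, Fintype.card_fin] at h3
  omega

private theorem card_oddOut_st {n : ℕ} (K : Finset (Fin n)) : 2 * (oddOut K).card ≤ n := by
  have h : (oddOut K).card ≤ (range (n / 2)).card := by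
    refine card_le_card_of_injOn (fun a => (a : ℕ) / 2) ?_ ?_
    · intro a ha
      have ha1 : (a : ℕ) % 2 = 1 := by
        unfold oddOut at ha
        exact (mem_filter.1 ha).2.1
      have := a.2
      simp only [coe_range, Set.mem_Iio]
      omega
    · intro a ha b hb hab
      have ha1 : (a : ℕ) % 2 = 1 := by
        unfold oddOut at ha
        exact (mem_filter.1 ha).2.1
      have hb1 : (b : ℕ) % 2 = 1 := by
        unfold oddOut at hb
        exact (mem_filter.1 hb).2.1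
      simp only at hab
      exact Fin.ext (by omega)
  rw [card_range] at h
  omega

open Classical in
/-- many private indices for every claim -/
private theorem priv_st {n p : ℕ} (hp : p.Prime) (hn : n < p) (hN : 1000 ≤ n)
    (z : Om n p) (K : Finset (Fin n)) (hK : 16 * K.card ≤ n)
    (Q : Finset (Fin n × Fin n)) (hQ : 32 * Q.card ≤ n)
    (h1 : ∀ q ∈ Q, (q.1 : ℕ) % 2 = 0 ∧ n ≤ 2 * (q.1 + q.2 : ℕ) ∧ 2 * (q.1 + q.2 : ℕ) < 3 * n ∧
      p ≤ (z q.1).1 ∧ ((z q.1).1 : ℕ) < 2 * p)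
    (h2 : ∀ q ∈ Q, ∀ q' ∈ Q, (q.1 + q.2 : ℕ) = q'.1 + q'.2 →
      cell z (q.1 + q.2) q.1 = cell z (q'.1 + q'.2) q'.1 → q = q')
    (q : Fin n × Fin n) (hq : q ∈ Q) :
    5 * n ≤ 32 * ((oddOut K).filter fun a => ∃ u < 3 * p, Priv Q (thrSt z) a u q).card + 32 := by
  have hp0 : 0 < p := hp.pos
  obtain ⟨hq1, hq2, hq3, hq4, hq5⟩ := h1 q hq
  have hodd := odd_grp_st (by omega) hq2 hq3
  obtain ⟨A, hA⟩ : ∃ A : Finset (Fin n), A =
      (grp n (q.1 + q.2)).filter fun a : Fin n => (a : ℕ) % 2 = 1 := ⟨_, rfl⟩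
  rw [← hA] at hodd
  obtain ⟨P, hP⟩ : ∃ P : Finset (Fin n), P =
      (oddOut K).filter fun a => ∃ u < 3 * p, Priv Q (thrSt z) a u q := ⟨_, rfl⟩
  rw [← hP]
  -- the other members
  obtain ⟨N, hNd⟩ : ∃ N : Finset (Fin n), N = (A \ K) \ P := ⟨_, rfl⟩
  have hAN : A.card ≤ K.card + P.card + N.card := by
    have hsub : A ⊆ (K ∪ P) ∪ N := by
      intro a ha
      rw [hNd]
      by_cases h3 : a ∈ K
      · exact mem_union_left _ (mem_union_left _ h3)
      · by_cases h4 : a ∈ P
        · exact mem_union_left _ (mem_union_right _ h4)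
        · exact mem_union_right _ (mem_sdiff.2 ⟨mem_sdiff.2 ⟨ha, h3⟩, h4⟩)
    calc A.card ≤ ((K ∪ P) ∪ N).card := card_le_card hsub
      _ ≤ (K ∪ P).card + N.card := card_union_le _ _
      _ ≤ K.card + P.card + N.card := Nat.add_le_add_right (card_union_le _ _) _
  have hfind : ∀ a ∈ N, ∃ q' ∈ Q, (q'.1 + q'.2 : ℕ) ≠ q.1 + q.2 ∧ a ∈ grp n (q'.1 + q'.2) ∧
      cell z (q.1 + q.2) q.1 + e p ((q'.1 + q'.2 : ℕ) - a) =
        cell z (q'.1 + q'.2) q'.1 + e p ((q.1 + q.2 : ℕ) - a) := by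
    intro a ha
    rw [hNd, mem_sdiff, mem_sdiff, hA, mem_filter] at ha
    obtain ⟨⟨⟨hg, hao⟩, haK⟩, haP⟩ := ha
    have haO : a ∈ oddOut K := by
      unfold oddOut
      rw [mem_filter]
      exact ⟨mem_univ _, hao, haK⟩
    have he := e_lt_st hp0 ((q.1 + q.2 : ℕ) - a)
    have he2 := e_lt_st hp0 ((q.1 + q.2 : ℕ) - q.1)
    have hV : cell z (q.1 + q.2) q.1 = (z q.1).1 + e p ((q.1 + q.2 : ℕ) - q.1) := rfl
    have hnot : ¬ Priv Q (thrSt z) a (cell z (q.1 + q.2) q.1 - e p ((q.1 + q.2 : ℕ) - a)) q := by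
      intro hpr
      refine haP ?_
      rw [hP, mem_filter]
      exact ⟨haO, _, by omega, hpr⟩
    unfold Priv at hnot
    have ht : thrSt z q a = some (cell z (q.1 + q.2) q.1 - e p ((q.1 + q.2 : ℕ) - a)) := by
      unfold thrSt
      rw [if_pos hg]
    have hnot' : ∃ q' ∈ Q, thrSt z q' a =
        some (cell z (q.1 + q.2) q.1 - e p ((q.1 + q.2 : ℕ) - a)) ∧ q' ≠ q := by
      by_contra hcon
      push Not at hcon
      exact hnot ⟨hq, ht, hcon⟩
    obtain ⟨q', hq', hth, hne⟩ := hnot'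
    have hg' : a ∈ grp n (q'.1 + q'.2) := by
      by_contra hg'
      unfold thrSt at hth
      rw [if_neg hg'] at hth
      exact absurd hth (by simp)
    unfold thrSt at hth
    rw [if_pos hg', Option.some.injEq] at hth
    obtain ⟨hq1', hq2', hq3', hq4', hq5'⟩ := h1 q' hq'
    have he' := e_lt_st hp0 ((q'.1 + q'.2 : ℕ) - a)
    have hV' : cell z (q'.1 + q'.2) q'.1 = (z q'.1).1 + e p ((q'.1 + q'.2 : ℕ) - q'.1) := rfl
    have heq : cell z (q.1 + q.2) q.1 + e p ((q'.1 + q'.2 : ℕ) - a) =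
        cell z (q'.1 + q'.2) q'.1 + e p ((q.1 + q.2 : ℕ) - a) := by omega
    refine ⟨q', hq', ?_, hg', heq⟩
    intro hss
    refine hne (h2 q' hq' q hq hss ?_)
    rw [hss] at heq
    rw [hss]
    omega
  have hNQ : N.card ≤ Q.card := by
    choose! f hf1 hf2 hf3 hf4 using hfind
    refine card_le_card_of_injOn f (fun a ha => hf1 a ha) ?_
    intro a ha b hb hab
    have hag : a ∈ grp n (q.1 + q.2) := by
      have := ha
      rw [mem_coe, hNd, mem_sdiff, mem_sdiff, hA, mem_filter] at this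
      exact this.1.1.1
    have hbg : b ∈ grp n (q.1 + q.2) := by
      have := hb
      rw [mem_coe, hNd, mem_sdiff, mem_sdiff, hA, mem_filter] at this
      exact this.1.1.1
    have ha3 := hf3 a ha
    have hb3 := hf3 b hb
    have ha4 := hf4 a ha
    have hb4 := hf4 b hb
    have ha2 := hf2 a ha
    rw [← hab] at hb3 hb4
    obtain ⟨hq1', hq2', hq3', _, _⟩ := h1 (f a) (hf1 a ha)
    unfold grp at hag hbg ha3 hb3
    rw [mem_filter] at hag hbg ha3 hb3
    exact Fin.ext (quad_unique hp (by omega) hn.le (Ne.symm ha2) (by omega) (by omega) a.2 b.2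
      hag.2.1 ha3.2.1 hbg.2.1 hb3.2.1 ha4 hb4)
  omega

theorem static_toggle {n p : ℕ} (hp : p.Prime) (hn : n < p) (hp2 : p ≤ 2 * n) (hN : 1000 ≤ n)
    (z : Om n p) (K : Finset (Fin n)) (hK : 16 * K.card ≤ n)
    (Q : Finset (Fin n × Fin n)) (hQ : 32 * Q.card ≤ n)
    (h1 : ∀ q ∈ Q, (q.1 : ℕ) % 2 = 0 ∧ n ≤ 2 * (q.1 + q.2 : ℕ) ∧ 2 * (q.1 + q.2 : ℕ) < 3 * n ∧
      p ≤ (z q.1).1 ∧ ((z q.1).1 : ℕ) < 2 * p)
    (h2 : ∀ q ∈ Q, ∀ q' ∈ Q, (q.1 + q.2 : ℕ) = q'.1 + q'.2 →
      cell z (q.1 + q.2) q.1 = cell z (q'.1 + q'.2) q'.1 → q = q')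
    (r : Fin n × Fin n → ℕ) :
    avg (fun ω : Om n p =>
      ind (∀ q ∈ Q, lrank ((oddOut K).piecewise ω z) (q.1 + q.2) q.1 = r q)) ≤
      Real.exp (-(Q.card : ℝ) / 200) + (1 / 2 : ℝ) ^ (Q.card / 8) := by
  classical
  have hp0 : 0 < p := hp.pos
  have hn0 : (1000 : ℝ) ≤ n := by exact_mod_cast hN
  have hD : 0 < 3 * p := by omega
  -- the constants
  have hconst : ∀ q ∈ Q, ∃ c : ℕ, ∀ ω : Om n p,
      lrank ((oddOut K).piecewise ω z) (q.1 + q.2) q.1 = c + cntb (oddOut K) (thrSt z) q ω :=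
    fun q hq => lrank_st hp0 z K q (h1 q hq).1 (h1 q hq).2.2.2.1
  choose! c hc using hconst
  -- the sum
  have hsum : 5 * n * Q.card ≤ 32 * (∑ a ∈ oddOut K, hitable (3 * p) Q (thrSt z) a) + 32 * Q.card := by
    have hcomm : ∑ a ∈ oddOut K, hitable (3 * p) Q (thrSt z) a =
        ∑ q ∈ Q, ((oddOut K).filter fun a => ∃ u < 3 * p, Priv Q (thrSt z) a u q).card := by
      unfold hitable
      simp only [card_eq_sum_ones, sum_filter]
      rw [sum_comm]
    rw [hcomm, mul_sum]
    have h3 : ∑ q ∈ Q, 5 * n ≤ ∑ q ∈ Q,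
        (32 * ((oddOut K).filter fun a => ∃ u < 3 * p, Priv Q (thrSt z) a u q).card + 32) :=
      sum_le_sum fun q hq => priv_st hp hn hN z K hK Q hQ h1 h2 q hq
    rw [sum_const, smul_eq_mul, sum_add_distrib, sum_const, smul_eq_mul] at h3
    linarith [h3, mul_comm Q.card (5 * n), mul_comm Q.card 32]
  have hO := card_oddOut_st K
  have hM : 8 * (Q.card / 8) ≤ Q.card := Nat.mul_div_le _ _
  have hx : 3 / 50 * (n : ℝ) * Q.card ≤
      ∑ a ∈ oddOut K, ((hitable (3 * p) Q (thrSt z) a : ℝ) - ((Q.card / 8 : ℕ) : ℝ)) := by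
    rw [sum_sub_distrib, sum_const, nsmul_eq_mul]
    have h4 : 5 * (n : ℝ) * Q.card ≤
        32 * (∑ a ∈ oddOut K, (hitable (3 * p) Q (thrSt z) a : ℝ)) + 32 * Q.card := by
      exact_mod_cast hsum
    have h5 : 2 * ((oddOut K).card : ℝ) ≤ n := by exact_mod_cast hO
    have h6 : 8 * ((Q.card / 8 : ℕ) : ℝ) ≤ Q.card := by exact_mod_cast hM
    have h7 : 16 * (((oddOut K).card : ℝ) * ((Q.card / 8 : ℕ) : ℝ)) ≤ n * Q.card := by
      have := mul_le_mul h5 h6 (by positivity) (by positivity)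
      linarith
    have h8 : (1000 : ℝ) * Q.card ≤ n * Q.card := mul_le_mul_of_nonneg_right hn0 (by positivity)
    linarith
  have hT := toggle hD Q (oddOut K) (thrSt z) (Q.card / 8) (fun q => r q - c q) _ hx
  refine (avg_mono fun ω => ind_mono fun h => ?_).trans (hT.trans ?_)
  · intro q hq
    have h3 := h q hq
    rw [hc q hq ω] at h3
    omega
  · refine add_le_add_left (Real.exp_le_exp.2 ?_) _
    have hp' : (p : ℝ) ≤ 2 * n := by exact_mod_cast hp2
    have hp1 : (0 : ℝ) < p := by exact_mod_cast hp0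
    rw [neg_div, neg_div, neg_le_neg_iff, div_le_div_iff₀ (by norm_num) (by positivity)]
    push_cast
    have h9 : (p : ℝ) * Q.card ≤ 2 * n * Q.card := mul_le_mul_of_nonneg_right hp' (by positivity)
    linarith

end Pool.Agent.Lib_MP_852c2d_ts
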