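import Pool.Agent.Lib_MP_852c2d_ts.Known
import Pool.Agent.Lib_MP_852c2d_ts.Reveal

set_option autoImplicit false

/-!
# Piece SL: the static lemma

The coordinates in `F` are known (`z`), `C` is any set of triples. The probability that all triples
of `C` are true and at least `m` counted pairs occur in `C` is at most `3 exp (-m / 3300)`.

PROOF. Call `q = (i, j)` relevant if `i` is even, `n ≤ 2 (i + j) < 3 n` and `(r, q) ∈ C` for some `r`.
`A` = the `i ∉ F` that occur in a relevant `q`. (`m = 0`: the right side is `≥ 1`.)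

Case 1, `A.card < m`. `K := F ∪ A`, `16 K.card ≤ n`. By `avg_tower A` (applied to
`ω ↦ ind (... (F.piecewise z ω) ...)`): `F.piecewise z (A.piecewise w w') = K.piecewise (F.piecewise z w) w'`
with `A` disjoint from `F`. Fix `w`, put `z' = F.piecewise z w`. Let `Q'` be the set of the relevant
`q` with `p ≤ (z' q.1).1 < 2 p` such that no relevant `q' ≠ q` with `q'.1 + q'.2 = q.1 + q.2` has the same
cell (`cell z' _ q'.1 = cell z' _ q.1`). For every `ω` which agrees with `z'` on `K`:
`hits C ω ⊆ Q'` (the first coordinates of relevant pairs are in `K`, `q'.1` is an even member of the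
group, `q'.1 ≠ q.1` because the sums are equal and `q' ≠ q`). If `Q'.card < m` the event is empty.
Otherwise take `Q ⊆ Q'` with `Q.card = m` and apply `known_toggle`: `≤ 3 exp (-m/200)`.

Case 2, `m ≤ A.card`. Take `A' ⊆ A` with `A'.card = m`, and for every `i ∈ A'` a `j i` with `(i, j i)`
relevant. `K := F ∪ A'`, `16 K.card ≤ n`. `avg_tower A'` as in case 1; fix `w`, `z' = F.piecewise z w`. Let
`Q` be the image of `sep A' j z'` under `i ↦ (i, j i)` (injective). `h1`, `h2` of `known_toggle` hold (for two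
different members with equal group the smaller one is different from the larger one by `sep`; the
cell of `i` in the group `i + j i` is `cell z' (i + j i) i`). So the average over `w'` is at most
`3 exp (-(sep A' j z').card / 200)`, and `sep A' j (F.piecewise z w) = sep A' j w` because `A'` is disjoint
from `F`. By `reveal` (`4 m ≤ n / 8 ≤ p`) the total is at most `3 (1 - 1/804)^m ≤ 3 exp (-m/804)`.

`ind` of the event is at most `ind (AllTrue ...)` (`ind_mono`).
-/

namespace Pool.Agent.Lib_MP_852c2d_ts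

open Finset

/-- Relevant pairs. -/
private def Rel {n : ℕ} (C : Set (ℕ × Fin n × Fin n)) (q : Fin n × Fin n) : Prop :=
  (q.1 : ℕ) % 2 = 0 ∧ n ≤ 2 * (q.1 + q.2 : ℕ) ∧ 2 * (q.1 + q.2 : ℕ) < 3 * n ∧ ∃ r, (r, q) ∈ C

private theorem piecewise_piecewise {ι α : Type*} [DecidableEq ι] (F A : Finset ι)
    (z w w' : ι → α) :
    F.piecewise z (A.piecewise w w') = (F ∪ A).piecewise (F.piecewise z w) w' := by
  ext i
  by_cases h : i ∈ F <;> by_cases h' : i ∈ A <;> simp [Finset.piecewise, h, h']

private theorem cell_congr {n p : ℕ} (ω ω' : Om n p) (s : ℕ) (a : Fin n) (h : ω a = ω' a) :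
    cell ω s a = cell ω' s a := by
  unfold cell; rw [h]

private theorem exp_le {m : ℕ} {c : ℝ} (hc0 : 0 < c) (hc : c ≤ 3300) :
    3 * Real.exp (-(m : ℝ) / c) ≤ 3 * Real.exp (-(m : ℝ) / 3300) := by
  have h : -(m : ℝ) / c ≤ -(m : ℝ) / 3300 := by
    rw [neg_div, neg_div, neg_le_neg_iff]
    exact div_le_div_of_nonneg_left (by positivity) hc0 hc
  exact mul_le_mul_of_nonneg_left (Real.exp_le_exp.mpr h) (by norm_num)

private theorem pow_le (m : ℕ) : 3 * (1 - 1 / 804 : ℝ) ^ m ≤ 3 * Real.exp (-(m : ℝ) / 3300) := by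
  have h1 : (1 - 1 / 804 : ℝ) ≤ Real.exp (-(1 / 804)) := by
    have := Real.add_one_le_exp (-(1 / 804 : ℝ))
    linarith
  have h2 : (1 - 1 / 804 : ℝ) ^ m ≤ Real.exp (-(1 / 804)) ^ m :=
    pow_le_pow_left₀ (by norm_num) h1 m
  rw [← Real.exp_nat_mul] at h2
  have h3 : (m : ℝ) * -(1 / 804) = -(m : ℝ) / 804 := by ring
  rw [h3] at h2
  exact (mul_le_mul_of_nonneg_left h2 (by norm_num)).trans (exp_le (by norm_num) (by norm_num))

open Classical in
private theorem case_one {n p : ℕ} (hp : p.Prime) (hn : n < p) (hp2 : p ≤ 2 * n) (hN : 1000 ≤ n)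
    (z' : Om n p) (C : Set (ℕ × Fin n × Fin n)) (K : Finset (Fin n)) (hK : 16 * K.card ≤ n)
    (hKC : ∀ q, Rel C q → q.1 ∈ K) (m : ℕ) (hm : 32 * m ≤ n) :
    avg (fun ω : Om n p => ind (AllTrue C (K.piecewise z' ω) ∧
      m ≤ (hits C (K.piecewise z' ω)).card)) ≤ 3 * Real.exp (-(m : ℝ) / 200) := by
  set Q' : Finset (Fin n × Fin n) := univ.filter fun q => Rel C q ∧ p ≤ (z' q.1).1 ∧
    ((z' q.1).1 : ℕ) < 2 * p ∧ ∀ q', Rel C q' → q' ≠ q → (q'.1 + q'.2 : ℕ) = q.1 + q.2 →
      cell z' (q.1 + q.2) q'.1 ≠ cell z' (q.1 + q.2) q.1 with hQ'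
  have hsub : ∀ ω : Om n p, hits C (K.piecewise z' ω) ⊆ Q' := by
    intro ω q hq
    rw [hits, mem_filter] at hq
    obtain ⟨-, ⟨c1, c2, c3, c4, c5, c6⟩, r, hr⟩ := hq
    have hrel : Rel C q := ⟨c1, c2, c3, r, hr⟩
    have hqK : q.1 ∈ K := hKC q hrel
    have e1 : (K.piecewise z' ω) q.1 = z' q.1 := Finset.piecewise_eq_of_mem _ _ _ hqK
    rw [e1] at c4 c5
    rw [hQ', mem_filter]
    refine ⟨mem_univ _, hrel, c4, c5, ?_⟩
    intro q' hq' hne hsum
    have hq'K : q'.1 ∈ K := hKC q' hq'
    have e2 : (K.piecewise z' ω) q'.1 = z' q'.1 := Finset.piecewise_eq_of_mem _ _ _ hq'K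
    have hg : q'.1 ∈ grp n (q.1 + q.2) := by
      rw [grp, mem_filter]
      have := q'.2.isLt
      refine ⟨mem_univ _, by omega, by omega⟩
    have hne' : q'.1 ≠ q.1 := by
      intro h
      apply hne
      apply Prod.ext h
      apply Fin.ext
      have : (q'.1 : ℕ) = q.1 := by rw [h]
      omega
    have := c6 q'.1 hg hq'.1 hne'
    rw [cell_congr _ z' _ _ e2, cell_congr _ z' _ _ e1] at this
    exact this
  have : Nonempty (Fin (3 * p)) := ⟨⟨0, by have := hp.pos; omega⟩⟩
  rcases lt_or_ge Q'.card m with h | h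
  · refine (avg_le_of_le (c := 0) fun ω => ?_).trans (by positivity)
    unfold ind
    rw [if_neg]
    rintro ⟨-, h2⟩
    have := card_le_card (hsub ω)
    omega
  · obtain ⟨Q, hQs, hQc⟩ := Finset.exists_subset_card_eq h
    have key := known_toggle hp hn hp2 hN z' K hK Q (by omega)
      (fun q hq => by
        have := hQs hq
        rw [hQ', mem_filter] at this
        exact hKC q this.2.1)
      (fun q hq => by
        have := hQs hq
        rw [hQ', mem_filter] at this
        obtain ⟨-, ⟨c1, c2, c3, -⟩, c4, c5, -⟩ := this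
        exact ⟨c1, c2, c3, c4, c5⟩)
      (fun q hq q' hq' hsum hcell => by
        have h1 := hQs hq
        have h2 := hQs hq'
        rw [hQ', mem_filter] at h1 h2
        by_contra hne
        refine h1.2.2.2.2 q' h2.2.1 (fun h => hne h.symm) hsum.symm ?_
        rw [hcell, hsum])
      C (fun q hq => by
        have := hQs hq
        rw [hQ', mem_filter] at this
        exact this.2.1.2.2.2)
    rw [hQc] at key
    exact (avg_mono fun ω => ind_mono fun h => h.1).trans key

open Classical in
private theorem case_two {n p : ℕ} (hp : p.Prime) (hn : n < p) (hp2 : p ≤ 2 * n) (hN : 1000 ≤ n)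
    (z' : Om n p) (C : Set (ℕ × Fin n × Fin n)) (A K : Finset (Fin n)) (hK : 16 * K.card ≤ n)
    (hAK : A ⊆ K) (j : Fin n → Fin n) (hj : ∀ i ∈ A, Rel C (i, j i)) (hA : 32 * A.card ≤ n) (m : ℕ) :
    avg (fun ω : Om n p => ind (AllTrue C (K.piecewise z' ω) ∧
      m ≤ (hits C (K.piecewise z' ω)).card)) ≤
      3 * Real.exp (-((sep A j z').card : ℝ) / 200) := by
  have hinj : Function.Injective fun i : Fin n => (i, j i) := fun a b h => congrArg Prod.fst h
  set Q : Finset (Fin n × Fin n) := (sep A j z').image fun i => (i, j i) with hQ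
  have hc : Q.card = (sep A j z').card := card_image_of_injective _ hinj
  have hsA : sep A j z' ⊆ A := by unfold sep; exact filter_subset _ _
  have hQm : ∀ q ∈ Q, ∃ i ∈ sep A j z', q = (i, j i) := by
    intro q hq
    rw [hQ, mem_image] at hq
    obtain ⟨i, hi, rfl⟩ := hq
    exact ⟨i, hi, rfl⟩
  have key := known_toggle hp hn hp2 hN z' K hK Q
    (by rw [hc]; have := card_le_card hsA; omega)
    (fun q hq => by
      obtain ⟨i, hi, rfl⟩ := hQm q hq
      exact hAK (hsA hi))
    (fun q hq => by
      obtain ⟨i, hi, rfl⟩ := hQm q hq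
      have h1 := hj i (hsA hi)
      unfold sep at hi
      rw [mem_filter] at hi
      exact ⟨h1.1, h1.2.1, h1.2.2.1, hi.2.1, hi.2.2.1⟩)
    (fun q hq q' hq' hsum hcell => by
      obtain ⟨i, hi, rfl⟩ := hQm q hq
      obtain ⟨i', hi', rfl⟩ := hQm q' hq'
      have hiA := hsA hi
      have hiA' := hsA hi'
      unfold sep at hi hi'
      rw [mem_filter] at hi hi'
      dsimp only at hsum hcell
      rcases lt_trichotomy i i' with h | h | h
      · exfalso
        refine hi'.2.2.2 i hiA h hsum ?_
        rw [← hcell, hsum]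
      · rw [h]
      · exfalso
        refine hi.2.2.2 i' hiA' h hsum.symm ?_
        rw [hcell, hsum])
    C (fun q hq => by
      obtain ⟨i, hi, rfl⟩ := hQm q hq
      exact (hj i (hsA hi)).2.2.2)
  rw [hc] at key
  exact (avg_mono fun ω => ind_mono fun h => h.1).trans key

private theorem sep_congr_sl {n p : ℕ} (A : Finset (Fin n)) (j : Fin n → Fin n) (z w : Om n p)
    (h : ∀ i ∈ A, z i = w i) : sep A j z = sep A j w := by
  unfold sep
  refine filter_congr fun i hi => ?_
  rw [h i hi]
  refine and_congr_right fun _ => and_congr_right fun _ => ?_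
  refine forall₂_congr fun i' hi' => ?_
  rw [cell_congr z w _ _ (h i' hi'), cell_congr z w _ _ (h i hi)]

theorem static_lemma {n p : ℕ} (hp : p.Prime) (hn : n < p) (hp2 : p ≤ 2 * n) (hN : 1000 ≤ n)
    (F : Finset (Fin n)) (hF : 32 * F.card ≤ n) (z : Om n p) (C : Set (ℕ × Fin n × Fin n))
    (m : ℕ) (hm : 32 * m ≤ n) :
    avg (fun ω : Om n p => ind (AllTrue C (F.piecewise z ω) ∧
      m ≤ (hits C (F.piecewise z ω)).card)) ≤ 3 * Real.exp (-(m : ℝ) / 3300) := by
  classical
  have : Nonempty (Fin (3 * p)) := ⟨⟨0, by have := hp.pos; omega⟩⟩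
  set A : Finset (Fin n) := univ.filter fun i => i ∉ F ∧ ∃ j, Rel C (i, j) with hA
  rcases lt_or_ge A.card m with h | h
  · -- case 1
    rw [avg_tower A]
    refine avg_le_of_le fun w => ?_
    simp only [piecewise_piecewise F A z w]
    refine (case_one hp hn hp2 hN (F.piecewise z w) C (F ∪ A) ?_ ?_ m hm).trans
      (exp_le (by norm_num) (by norm_num))
    · have := card_union_le F A
      omega
    · intro q hq
      rw [mem_union]
      by_cases hqF : q.1 ∈ F
      · exact Or.inl hqF
      · right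
        rw [hA, mem_filter]
        exact ⟨mem_univ _, hqF, q.2, hq⟩
  · obtain ⟨A', hA's, hA'c⟩ := Finset.exists_subset_card_eq h
    have hmem : ∀ i ∈ A', i ∉ F ∧ ∃ j, Rel C (i, j) := by
      intro i hi
      have := hA's hi
      rw [hA, mem_filter] at this
      exact this.2
    have hex : ∀ i : Fin n, ∃ j : Fin n, i ∈ A' → Rel C (i, j) := by
      intro i
      by_cases hi : i ∈ A'
      · obtain ⟨j, hj⟩ := (hmem i hi).2
        exact ⟨j, fun _ => hj⟩
      · exact ⟨i, fun h => absurd h hi⟩
    choose j hj using hex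
    rw [avg_tower A']
    have hle : ∀ w : Om n p, avg (fun w' : Om n p => ind
        (AllTrue C (F.piecewise z (A'.piecewise w w')) ∧
          m ≤ (hits C (F.piecewise z (A'.piecewise w w'))).card)) ≤
        3 * Real.exp (-((sep A' j w).card : ℝ) / 200) := by
      intro w
      simp only [piecewise_piecewise F A' z w]
      have h1 := case_two hp hn hp2 hN (F.piecewise z w) C A' (F ∪ A')
        (by have := card_union_le F A'; omega) subset_union_right j hj (by omega) m
      rwa [sep_congr_sl A' j (F.piecewise z w) w fun i hi =>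
        Finset.piecewise_eq_of_notMem _ _ _ (hmem i hi).1] at h1
    refine (avg_mono hle).trans ?_
    rw [avg_mul_left]
    have h2 := reveal (p := p) hp.pos A' (by omega) j
    rw [hA'c] at h2
    exact (mul_le_mul_of_nonneg_left h2 (by norm_num)).trans (pow_le m)

end Pool.Agent.Lib_MP_852c2d_ts
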