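import Pool.Agent.Lib_MP_852c2d_ts.ToggleDefs

set_option autoImplicit false

/-!
# Piece TB: many claims are hit

PROOF. Prove for every `W : Finset κ` and every `O`, by induction on `O` (`Finset.induction_on`,
`W` general):
`avg (fun c => (1/2)^(W ∪ Hit Q O thr c).card) ≤ (1/2)^W.card * ∏ a ∈ O, (...) + (1/2)^M`.
`O = ∅`: `Hit = ∅`. Step `O ∪ {a}`, `a ∉ O`: if `M ≤ W.card` the left side is at most
`(1/2)^W.card ≤ (1/2)^M`. Otherwise use `avg_update a`: for `c' = Function.update c a x`,
`Hit Q (insert a O) thr c' = h x ∪ Hit Q O thr c` with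
`h x = Q.filter (fun l => Priv Q thr a x l)` (at most one element), since `a ∉ O`. Exchange the two
averages, apply the induction hypothesis to `W ∪ h x`:
left side `≤ avg_x ((1/2)^(W ∪ h x).card) * ∏ + (1/2)^M` (the product is `≥ 0`: every factor is
`≥ 1/2`, because `hitable ≤ D`: different `l` have different private `u < D`). And
`avg_x ((1/2)^(W ∪ h x).card) ≤ (1/2)^W.card * (1 - (number of x with h x not inside W) / (2 D))`,
the number of these `x` is at least `hitable - W.card ≥ hitable - M` (the private values of the
claims not in `W` are different), and it is `≥ 0`.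
-/

namespace Pool.Agent.Lib_MP_852c2d_ts

open Finset

theorem hitable_le {ι κ : Type*} (D : ℕ) (Q : Finset κ) (thr : κ → ι → Option ℕ) (a : ι) :
    hitable D Q thr a ≤ D := by
  classical
  unfold hitable
  have h : (Q.filter fun l => ∃ u < D, Priv Q thr a u l).card ≤ (range D).card := by
    refine card_le_card_of_injOn (fun l => (thr l a).getD 0) ?_ ?_
    · intro l hl
      rw [mem_coe, mem_filter] at hl
      obtain ⟨_, u, hu, hp⟩ := hl
      rw [mem_coe, mem_range]
      simp only [hp.2.1, Option.getD_some]
      exact hu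
    · intro l hl l' hl' he
      rw [mem_coe, mem_filter] at hl hl'
      obtain ⟨_, u, hu, hp⟩ := hl
      obtain ⟨_, u', hu', hp'⟩ := hl'
      simp only [hp.2.1, hp'.2.1, Option.getD_some] at he
      subst he
      exact (hp.2.2 l' hp'.1 hp'.2.1).symm
  rwa [card_range] at h

private theorem hitable_sdiff {ι κ : Type*} [DecidableEq κ] {D : ℕ} (hD : 0 < D) (Q W : Finset κ)
    (thr : κ → ι → Option ℕ) (a : ι) (h : Fin D → Finset κ)
    (hh : ∀ x l, l ∈ h x ↔ Priv Q thr a (x : ℕ) l) :
    hitable D Q thr a ≤ W.card + (univ.filter fun x : Fin D => ¬ h x ⊆ W).card := by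
  classical
  unfold hitable
  have h1 : ((Q.filter fun l => ∃ u < D, Priv Q thr a u l) \ W).card ≤
      (univ.filter fun x : Fin D => ¬ h x ⊆ W).card := by
    refine card_le_card_of_injOn (fun l => ⟨(thr l a).getD 0 % D, Nat.mod_lt _ hD⟩) ?_ ?_
    · intro l hl
      rw [mem_coe, mem_sdiff, mem_filter] at hl
      obtain ⟨⟨_, u, hu, hp⟩, hW⟩ := hl
      rw [mem_coe, mem_filter]
      refine ⟨mem_univ _, fun hs => hW (hs ?_)⟩
      rw [hh]
      simp only [hp.2.1, Option.getD_some, Nat.mod_eq_of_lt hu]
      exact hp
    · intro l hl l' hl' he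
      rw [mem_coe, mem_sdiff, mem_filter] at hl hl'
      obtain ⟨⟨_, u, hu, hp⟩, _⟩ := hl
      obtain ⟨⟨_, u', hu', hp'⟩, _⟩ := hl'
      simp only [hp.2.1, hp'.2.1, Option.getD_some, Nat.mod_eq_of_lt hu, Nat.mod_eq_of_lt hu',
        Fin.mk.injEq] at he
      subst he
      exact (hp.2.2 l' hp'.1 hp'.2.1).symm
  have h2 := le_card_sdiff W (Q.filter fun l => ∃ u < D, Priv Q thr a u l)
  omega

private theorem avg_comm {α β : Type*} [Fintype α] [Fintype β] (f : α → β → ℝ) :
    avg (fun a => avg (fun b => f a b)) = avg (fun b => avg (fun a => f a b)) := by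
  rw [← avg_prod (fun a b => f a b), ← avg_prod (fun b a => f a b)]
  exact (avg_equiv (Equiv.prodComm β α) (fun q : α × β => f q.1 q.2)).symm

theorem hit_avg {ι κ : Type*} [Fintype ι] [DecidableEq ι] {D : ℕ} (hD : 0 < D) (Q : Finset κ) (O : Finset ι)
    (thr : κ → ι → Option ℕ) (M : ℕ) :
    avg (fun c : ι → Fin D => (1 / 2 : ℝ) ^ (Hit Q O thr c).card) ≤
      ∏ a ∈ O, (1 - max 0 ((hitable D Q thr a : ℝ) - M) / (2 * D)) + (1 / 2 : ℝ) ^ M := by
  classical
  have : Nonempty (Fin D) := ⟨⟨0, hD⟩⟩
  have hD' : (0 : ℝ) < D := by exact_mod_cast hD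
  have hF : ∀ a : ι, 0 ≤ (1 - max 0 ((hitable D Q thr a : ℝ) - M) / (2 * D)) := by
    intro a
    have h1 : (hitable D Q thr a : ℝ) ≤ D := by exact_mod_cast hitable_le D Q thr a
    have h2 : max 0 ((hitable D Q thr a : ℝ) - M) ≤ D := by
      refine max_le hD'.le ?_
      have : (0 : ℝ) ≤ M := Nat.cast_nonneg _
      linarith
    have h3 : max 0 ((hitable D Q thr a : ℝ) - M) / (2 * D) ≤ 1 := by
      rw [div_le_one (by positivity)]
      linarith
    linarith
  have key : ∀ (O : Finset ι) (W : Finset κ),
      avg (fun c : ι → Fin D => (1 / 2 : ℝ) ^ (W ∪ Hit Q O thr c).card) ≤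
        (1 / 2 : ℝ) ^ W.card * ∏ a ∈ O, (1 - max 0 ((hitable D Q thr a : ℝ) - M) / (2 * D)) +
          (1 / 2 : ℝ) ^ M := by
    intro O
    induction O using Finset.induction_on with
    | empty =>
      intro W
      have h1 : ∀ c : ι → Fin D, Hit Q ∅ thr c = ∅ := by
        intro c
        unfold Hit
        refine filter_eq_empty_iff.2 fun l _ h => ?_
        obtain ⟨a, ha, _⟩ := h
        exact absurd ha (notMem_empty a)
      simp only [h1, union_empty, prod_empty, mul_one]
      rw [avg_const]
      have : (0 : ℝ) ≤ (1 / 2) ^ M := by positivity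
      linarith
    | insert a O ha ih =>
      intro W
      have hP : 0 ≤ ∏ a ∈ O, (1 - max 0 ((hitable D Q thr a : ℝ) - M) / (2 * D)) :=
        prod_nonneg fun b _ => hF b
      rw [prod_insert ha]
      by_cases hW : M ≤ W.card
      · have h1 : avg (fun c : ι → Fin D => (1 / 2 : ℝ) ^ (W ∪ Hit Q (insert a O) thr c).card) ≤
            (1 / 2 : ℝ) ^ M := by
          refine avg_le_of_le fun c => ?_
          exact pow_le_pow_of_le_one (by norm_num) (by norm_num)
            (hW.trans (card_le_card subset_union_left))
        have h2 : 0 ≤ (1 / 2 : ℝ) ^ W.card * ((1 - max 0 ((hitable D Q thr a : ℝ) - M) / (2 * D)) *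
            ∏ a ∈ O, (1 - max 0 ((hitable D Q thr a : ℝ) - M) / (2 * D))) :=
          mul_nonneg (by positivity) (mul_nonneg (hF a) hP)
        linarith
      · push Not at hW
        set h : Fin D → Finset κ := fun x => Q.filter fun l => Priv Q thr a (x : ℕ) l with hh
        have hmem : ∀ x l, l ∈ h x ↔ Priv Q thr a (x : ℕ) l := by
          intro x l
          rw [hh]
          simp only [mem_filter]
          exact ⟨fun h => h.2, fun h => ⟨h.1, h⟩⟩
        have hhit : ∀ (c : ι → Fin D) (x : Fin D),
            W ∪ Hit Q (insert a O) thr (Function.update c a x) = (W ∪ h x) ∪ Hit Q O thr c := by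
          intro c x
          rw [union_assoc]
          congr 1
          ext l
          rw [mem_union, hmem]
          unfold Hit
          rw [mem_filter, mem_filter]
          constructor
          · rintro ⟨hl, b, hb, hp⟩
            rcases mem_insert.1 hb with rfl | hb
            · left
              rwa [Function.update_self] at hp
            · right
              have hne : b ≠ a := fun h => ha (h ▸ hb)
              rw [Function.update_of_ne hne] at hp
              exact ⟨hl, b, hb, hp⟩
          · rintro (hp | ⟨hl, b, hb, hp⟩)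
            · refine ⟨hp.1, a, mem_insert_self a O, ?_⟩
              rwa [Function.update_self]
            · have hne : b ≠ a := fun h => ha (h ▸ hb)
              refine ⟨hl, b, mem_insert_of_mem hb, ?_⟩
              rwa [Function.update_of_ne hne]
        rw [avg_update a]
        simp only [hhit]
        rw [avg_comm (fun (c : ι → Fin D) (x : Fin D) =>
          (1 / 2 : ℝ) ^ ((W ∪ h x) ∪ Hit Q O thr c).card)]
        have h1 := avg_mono (fun x : Fin D => ih (W ∪ h x))
        refine h1.trans ?_
        rw [avg_add, avg_const]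
        have h2 : avg (fun x : Fin D => (1 / 2 : ℝ) ^ (W ∪ h x).card *
            ∏ a ∈ O, (1 - max 0 ((hitable D Q thr a : ℝ) - M) / (2 * D))) =
            (∏ a ∈ O, (1 - max 0 ((hitable D Q thr a : ℝ) - M) / (2 * D))) *
              avg (fun x : Fin D => (1 / 2 : ℝ) ^ (W ∪ h x).card) := by
          rw [← avg_mul_left]
          exact congrArg avg (funext fun x => mul_comm _ _)
        rw [h2]
        have h3 : avg (fun x : Fin D => (1 / 2 : ℝ) ^ (W ∪ h x).card) ≤
            (1 / 2 : ℝ) ^ W.card * (1 - max 0 ((hitable D Q thr a : ℝ) - M) / (2 * D)) := by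
          set S := univ.filter fun x : Fin D => ¬ h x ⊆ W with hS
          have hcount : hitable D Q thr a ≤ W.card + S.card := hitable_sdiff hD Q W thr a h hmem
          have h4 : ∀ x : Fin D, (1 / 2 : ℝ) ^ (W ∪ h x).card ≤
              (1 / 2 : ℝ) ^ W.card * (1 - (if x ∈ S then (1 / 2 : ℝ) else 0)) := by
            intro x
            by_cases hx : x ∈ S
            · rw [if_pos hx]
              rw [hS, mem_filter] at hx
              have h5 : W.card + 1 ≤ (W ∪ h x).card := by
                refine card_lt_card ?_
                refine Finset.ssubset_iff_subset_ne.2 ⟨subset_union_left, fun he => hx.2 ?_⟩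
                have hsub : h x ⊆ W ∪ h x := subset_union_right
                rwa [← he] at hsub
              calc (1 / 2 : ℝ) ^ (W ∪ h x).card ≤ (1 / 2 : ℝ) ^ (W.card + 1) :=
                    pow_le_pow_of_le_one (by norm_num) (by norm_num) h5
                _ = _ := by rw [pow_succ]; ring
            · rw [if_neg hx, sub_zero, mul_one]
              exact pow_le_pow_of_le_one (by norm_num) (by norm_num)
                (card_le_card subset_union_left)
          have h6 : avg (fun x : Fin D => (1 / 2 : ℝ) ^ W.card *
              (1 - (if x ∈ S then (1 / 2 : ℝ) else 0))) =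
              (1 / 2 : ℝ) ^ W.card * (1 - S.card / (2 * D)) := by
            rw [avg_mul_left]
            congr 1
            unfold avg
            rw [sum_sub_distrib, ← sum_filter, sum_const, sum_const, card_univ, Fintype.card_fin,
              nsmul_eq_mul, nsmul_eq_mul, filter_mem_eq_inter, univ_inter]
            field_simp
          refine (avg_mono h4).trans (h6.le.trans ?_)
          refine mul_le_mul_of_nonneg_left ?_ (by positivity)
          have h7 : max 0 ((hitable D Q thr a : ℝ) - M) ≤ S.card := by
            refine max_le (Nat.cast_nonneg _) ?_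
            have h8 : (hitable D Q thr a : ℝ) ≤ W.card + S.card := by exact_mod_cast hcount
            have h9 : (W.card : ℝ) ≤ M := by exact_mod_cast hW.le
            linarith
          have h10 : max 0 ((hitable D Q thr a : ℝ) - M) / (2 * D) ≤ S.card / (2 * D) :=
            div_le_div_of_nonneg_right h7 (by positivity)
          linarith
        have h4 := mul_le_mul_of_nonneg_left h3 hP
        linarith
  have h0 := key O ∅
  simpa only [empty_union, card_empty, pow_zero, one_mul] using h0

end Pool.Agent.Lib_MP_852c2d_ts
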