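import Pool.Agent.Lib_MP_852c2d_ts.ToggleA
import Pool.Agent.Lib_MP_852c2d_ts.ToggleB

set_option autoImplicit false

/-!
# Piece TG: the toggle lemma

PROOF. `ι → Fin D × Bool` is `(ι → Fin D) × (ι → Bool)`. For fixed `c` the average over the bits is
at most `(1/2)^(Hit Q O thr c).card` by `toggle_fixed` (`avg_ind`). Then `hit_avg`, and
`1 - x ≤ exp (-x)` for every factor.
-/

namespace Pool.Agent.Lib_MP_852c2d_ts

open Finset

/-- Points of a product and pairs of points. -/
def splitEquiv (ι α β : Type*) : (ι → α) × (ι → β) ≃ (ι → α × β) where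
  toFun q a := (q.1 a, q.2 a)
  invFun w := (fun a => (w a).1, fun a => (w a).2)
  left_inv _ := rfl
  right_inv _ := rfl

theorem toggle {ι κ : Type*} [Fintype ι] [DecidableEq ι] {D : ℕ} (hD : 0 < D) (Q : Finset κ)
    (O : Finset ι) (thr : κ → ι → Option ℕ) (M : ℕ) (r : κ → ℕ) (x : ℝ)
    (hx : x ≤ ∑ a ∈ O, ((hitable D Q thr a : ℝ) - M)) :
    avg (fun ω : ι → Fin D × Bool => ind (∀ l ∈ Q, cntb O thr l ω = r l)) ≤
      Real.exp (-x / (2 * D)) + (1 / 2 : ℝ) ^ M := by
  classical
  have hD' : (0 : ℝ) < D := by exact_mod_cast hD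
  have : Nonempty (Fin D) := ⟨⟨0, hD⟩⟩
  rw [← avg_equiv (splitEquiv ι (Fin D) Bool)
    (fun ω : ι → Fin D × Bool => ind (∀ l ∈ Q, cntb O thr l ω = r l))]
  rw [avg_prod (fun (c : ι → Fin D) (b : ι → Bool) =>
    ind (∀ l ∈ Q, cntb O thr l ((splitEquiv ι (Fin D) Bool) (c, b)) = r l))]
  have h1 : ∀ c : ι → Fin D, avg (fun b : ι → Bool =>
      ind (∀ l ∈ Q, cntb O thr l ((splitEquiv ι (Fin D) Bool) (c, b)) = r l)) ≤
      (1 / 2 : ℝ) ^ (Hit Q O thr c).card := by
    intro c
    rw [avg_ind (fun b : ι → Bool => ∀ l ∈ Q,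
      cntb O thr l ((splitEquiv ι (Fin D) Bool) (c, b)) = r l)]
    have h2 := toggle_fixed Q O thr c r
    have h3 : ((univ.filter fun b : ι → Bool => ∀ l ∈ Q,
        cntb O thr l ((splitEquiv ι (Fin D) Bool) (c, b)) = r l).card : ℝ) *
        2 ^ (Hit Q O thr c).card ≤ 2 ^ Fintype.card ι := by
      have : (univ.filter fun b : ι → Bool => ∀ l ∈ Q,
        cntb O thr l ((splitEquiv ι (Fin D) Bool) (c, b)) = r l).card *
        2 ^ (Hit Q O thr c).card ≤ 2 ^ Fintype.card ι := by
        convert h2 using 3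
        ext b
        simp only [mem_filter, mem_univ, true_and]
        rfl
      exact_mod_cast this
    have h4 : (Fintype.card (ι → Bool) : ℝ) = 2 ^ Fintype.card ι := by
      rw [Fintype.card_fun, Fintype.card_bool]; push_cast; ring
    rw [h4, div_le_iff₀ (by positivity), one_div, inv_pow, inv_mul_eq_div,
      le_div_iff₀ (by positivity)]
    exact h3
  refine (avg_mono h1).trans ((hit_avg hD Q O thr M).trans ?_)
  refine add_le_add ?_ le_rfl
  have h5 : ∀ a ∈ O, (0 : ℝ) ≤ 1 - max 0 ((hitable D Q thr a : ℝ) - M) / (2 * D) := by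
    intro a _
    have h6 : (hitable D Q thr a : ℝ) ≤ D := by exact_mod_cast hitable_le D Q thr a
    have h7 : max 0 ((hitable D Q thr a : ℝ) - M) ≤ D :=
      max_le hD'.le (by linarith [Nat.cast_nonneg (α := ℝ) M])
    have h8 : max 0 ((hitable D Q thr a : ℝ) - M) / (2 * D) ≤ 1 := by
      rw [div_le_one (by positivity)]; linarith
    linarith
  have h9 : ∏ a ∈ O, (1 - max 0 ((hitable D Q thr a : ℝ) - M) / (2 * D)) ≤
      ∏ a ∈ O, Real.exp (-(((hitable D Q thr a : ℝ) - M) / (2 * D))) := by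
    refine prod_le_prod h5 fun a _ => ?_
    refine le_trans ?_ (Real.add_one_le_exp _)
    have : ((hitable D Q thr a : ℝ) - M) / (2 * D) ≤
        max 0 ((hitable D Q thr a : ℝ) - M) / (2 * D) :=
      div_le_div_of_nonneg_right (le_max_right _ _) (by positivity)
    linarith
  refine h9.trans ?_
  rw [← Real.exp_sum]
  refine Real.exp_le_exp.2 ?_
  rw [sum_neg_distrib, ← sum_div, neg_div]
  exact neg_le_neg (div_le_div_of_nonneg_right hx (by positivity))

end Pool.Agent.Lib_MP_852c2d_ts
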