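import Pool.Agent.Lib_MP_852c2d_ts.ToggleDefs

set_option autoImplicit false

/-!
# Piece TA: fair coins

PROOF. `c` is fixed. Choose for every `l ∈ Hit Q O thr c` an index `rep l ∈ O` with
`Priv Q thr (rep l) (c (rep l)) l`; `rep` is injective on `Hit` (`Priv` at the same index with the
same value determines `l`). Changing the bit at `rep l` changes `cntb O thr l` by exactly one and
does not change `cntb O thr l'` for any other `l' ∈ Q` (`thr l' (rep l) ≠ some (c (rep l))`, so
`Below` does not depend on the bit).
Let `G` be the set of the `b` for which all claims hold. The map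
`G × powerset (Hit) → (ι → Bool)`, `(b, E) ↦ b` with the bits at `rep l`, `l ∈ E`, flipped, is
injective: let `(b, E)`, `(b', E')` have the same image. Then `b`, `b'` agree outside the `rep l`,
`l ∈ Hit`. For `l ∈ Hit`, the count `cntb O thr l` of `b` is a number which depends only on the bits
outside all the representatives, plus `1` if `b (rep l) = false` (the other representatives have
other thresholds for `l` than their cell number), and the count is `r l` for both `b` and `b'`;
hence `b (rep l) = b' (rep l)`. So `b = b'` and `E = E'`.
-/

namespace Pool.Agent.Lib_MP_852c2d_ts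

open Finset

open Classical in
theorem toggle_fixed {ι κ : Type*} [Fintype ι] [DecidableEq ι] {D : ℕ} (Q : Finset κ) (O : Finset ι)
    (thr : κ → ι → Option ℕ) (c : ι → Fin D) (r : κ → ℕ) :
    (univ.filter fun b : ι → Bool => ∀ l ∈ Q, cntb O thr l (fun a => (c a, b a)) = r l).card *
      2 ^ (Hit Q O thr c).card ≤ 2 ^ Fintype.card ι := by
  set H := Hit Q O thr c with hH
  have hex : ∀ l ∈ H, ∃ a ∈ O, Priv Q thr a (c a) l := fun l hl => (mem_filter.mp hl).2
  choose rep hrepO hrep using hex
  set R : Finset ι := H.attach.image (fun l => rep l.1 l.2) with hR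
  have hRc : R.card = H.card := by
    rw [hR, card_image_of_injective _ ?_, card_attach]
    intro l l' h
    have h1 := hrep l.1 l.2
    have h2 := hrep l'.1 l'.2
    simp only at h
    rw [← h] at h2
    exact Subtype.ext (h2.2.2 l.1 h1.1 h1.2.1)
  set G := univ.filter fun b : ι → Bool => ∀ l ∈ Q, cntb O thr l (fun a => (c a, b a)) = r l
    with hG
  have key : ∀ b ∈ G, ∀ b' ∈ G, (∀ a, a ∉ R → b a = b' a) → b = b' := by
    intro b hb b' hb' hbb
    funext a
    by_cases ha : a ∈ R
    · obtain ⟨⟨l, hl⟩, -, hal⟩ := mem_image.mp ha
      simp only at hal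
      have hp := hrep l hl
      have haO := hrepO l hl
      rw [hal] at hp haO
      obtain ⟨hlQ, hthr, huniq⟩ := hp
      have h1 := (mem_filter.mp hb).2 l hlQ
      have h2 := (mem_filter.mp hb').2 l hlQ
      have h3 : ∀ a' ∈ O.erase a, ((if Below (thr l a') (c a', b a') then 1 else 0 : ℕ) =
          if Below (thr l a') (c a', b' a') then 1 else 0) := by
        intro a' ha'
        by_cases hR' : a' ∈ R
        · obtain ⟨⟨l', hl'⟩, -, hal'⟩ := mem_image.mp hR'
          simp only at hal'
          have hp' := hrep l' hl'
          rw [hal'] at hp'
          have hne : thr l a' ≠ some ((c a' : ℕ)) := by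
            intro h
            have h5 := hp'.2.2 l hlQ h
            subst h5
            exact (mem_erase.mp ha').1 (hal'.symm.trans hal)
          have h6 : ∀ x : Bool, Below (thr l a') (c a', x) ↔
              ∃ u, thr l a' = some u ∧ (c a' : ℕ) < u := by
            intro x
            unfold Below
            constructor
            · rintro ⟨u, hu, h7 | h7⟩
              · exact ⟨u, hu, h7⟩
              · exfalso
                apply hne
                rw [hu]
                exact congrArg some h7.1.symm
            · rintro ⟨u, hu, h7⟩
              exact ⟨u, hu, Or.inl h7⟩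
          simp only [h6]
        · rw [hbb a' hR']
      have hc : ∀ x : ι → Bool, cntb O thr l (fun a => (c a, x a)) =
          (if Below (thr l a) (c a, x a) then 1 else 0 : ℕ) +
            ∑ a' ∈ O.erase a, if Below (thr l a') (c a', x a') then 1 else 0 := by
        intro x
        unfold cntb
        rw [card_filter]
        exact (Finset.add_sum_erase O (fun a' => if Below (thr l a') (c a', x a') then 1 else 0)
          haO).symm
      rw [hc] at h1 h2
      rw [sum_congr rfl h3] at h1
      have h4 : (if Below (thr l a) (c a, b a) then 1 else 0 : ℕ) =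
          if Below (thr l a) (c a, b' a) then 1 else 0 := by omega
      have h8 : ∀ x : Bool, Below (thr l a) (c a, x) ↔ x = false := by
        intro x
        unfold Below
        constructor
        · rintro ⟨u, hu, h7 | h7⟩
          · exfalso
            rw [hthr] at hu
            have h9 := Option.some.inj hu
            simp only at h7
            omega
          · exact h7.2
        · intro hx
          exact ⟨c a, hthr, Or.inr ⟨rfl, hx⟩⟩
      simp only [h8] at h4
      revert h4
      cases b a <;> cases b' a <;> simp
    · exact hbb a ha
  have hinj : Set.InjOn (fun (b : ι → Bool) (a : {a : ι // a ∉ R}) => b a.1) (G : Set (ι → Bool)) := by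
    intro b hb b' hb' h
    exact key b hb b' hb' fun a ha => congrFun h ⟨a, ha⟩
  have h1 : G.card ≤ 2 ^ Fintype.card {a : ι // a ∉ R} := by
    have h2 := Finset.card_le_card_of_injOn (t := (univ : Finset ({a : ι // a ∉ R} → Bool)))
      (fun (b : ι → Bool) (a : {a : ι // a ∉ R}) => b a.1) (fun b _ => mem_univ _) hinj
    rw [card_univ, Fintype.card_fun, Fintype.card_bool] at h2
    exact h2
  have h2 : Fintype.card {a : ι // a ∉ R} + H.card = Fintype.card ι := by
    rw [← hRc, Fintype.card_subtype_compl (fun a => a ∈ R), Fintype.card_coe]
    exact Nat.sub_add_cancel (card_le_univ R)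
  calc G.card * 2 ^ H.card ≤ 2 ^ Fintype.card {a : ι // a ∉ R} * 2 ^ H.card :=
        Nat.mul_le_mul_right _ h1
    _ = 2 ^ Fintype.card ι := by rw [← pow_add, h2]

end Pool.Agent.Lib_MP_852c2d_ts
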