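import Pool.Agent.Lib_MP_852c2d_ts.Avg

set_option autoImplicit false

/-!
# The abstract toggle model

`ι` = indices, `κ` = claims. Every index `a` has a cell number `c a < D` and a bit. A claim `l` has
for every index `a` a threshold `thr l a`, or none. The index `a` is below the threshold `u` iff its
cell is smaller than `u`, or equal to `u` and its bit is `false`.
-/

namespace Pool.Agent.Lib_MP_852c2d_ts

open Finset

/-- `x` (cell number and bit) is below the threshold `t`. -/
def Below {D : ℕ} (t : Option ℕ) (x : Fin D × Bool) : Prop :=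
  ∃ u, t = some u ∧ ((x.1 : ℕ) < u ∨ ((x.1 : ℕ) = u ∧ x.2 = false))

open Classical in
/-- The number of indices of `O` below the thresholds of the claim `l`. -/
noncomputable def cntb {ι κ : Type*} {D : ℕ} (O : Finset ι) (thr : κ → ι → Option ℕ) (l : κ)
    (ω : ι → Fin D × Bool) : ℕ :=
  (O.filter fun a => Below (thr l a) (ω a)).card

/-- `u` is the threshold of the claim `l` and of no other claim of `Q` at the index `a`. -/
def Priv {ι κ : Type*} (Q : Finset κ) (thr : κ → ι → Option ℕ) (a : ι) (u : ℕ) (l : κ) : Prop :=
  l ∈ Q ∧ thr l a = some u ∧ ∀ l' ∈ Q, thr l' a = some u → l' = l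

open Classical in
/-- The claims hit privately by some index of `O`. -/
noncomputable def Hit {ι κ : Type*} {D : ℕ} (Q : Finset κ) (O : Finset ι)
    (thr : κ → ι → Option ℕ) (c : ι → Fin D) : Finset κ :=
  Q.filter fun l => ∃ a ∈ O, Priv Q thr a (c a) l

open Classical in
/-- The number of claims which can be hit privately by the index `a`. -/
noncomputable def hitable {ι κ : Type*} (D : ℕ) (Q : Finset κ) (thr : κ → ι → Option ℕ)
    (a : ι) : ℕ :=
  (Q.filter fun l => ∃ u < D, Priv Q thr a u l).card

end Pool.Agent.Lib_MP_852c2d_ts
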