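import Pool.Agent.Lib_MP_852c2d_ts.StaticLemma

set_option autoImplicit false

/-!
# Piece DT: segments of a computation

PROOF. (1) `runOut_succ`, `runState` shifted by one step.
(2) By induction on `t`, for all `F`, `z`, `C₀`, `τ`, `v` with `32 (F.card + k t) ≤ n`:
`avg (fun ω => ind (AllTrue (C₀ ∪ runOut M (inp ω') τ v t) ω' ∧ m ≤ (hits (C₀ ∪ ...) ω').card)) ≤ 3 exp (-m/3300)`
with `ω' = F.piecewise z ω`. `t = 0`: `runOut = ∅`, this is `static_lemma`. Step: let `R` be the set of the
`i` with `Sum.inl i ∈ M.reads τ v`, `R.card ≤ k`. `avg_tower R`: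
`F.piecewise z (R.piecewise w w') = (F ∪ R).piecewise (F.piecewise z w) w'`. For fixed `w` put
`z' = F.piecewise z w`; for all `w'` the input `inp ((F ∪ R).piecewise z' w')` has the same values on
`M.reads τ v` as `inp z'` (`inp` at `inl i` uses only the coordinate `i`, at `inr j` none), so the
next state `v'` and the output `C₁` of the step do not depend on `w'`, and
`runOut M _ τ v (t+1) = C₁ ∪ runOut M _ (τ+1) v' t`: induction hypothesis with `F ∪ R`, `z'`,
`C₀ ∪ C₁`, `τ + 1`, `v'`. Then `avg_le_of_le`.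
-/

namespace Pool.Agent.Lib_MP_852c2d_ts

open Finset

/-- The state after `u` steps if the machine is in the state `v` at time `τ`. -/
def runState {n k : ℕ} {V : Type} (M : Machine n k V) (z : Inp n) (τ : ℕ) (v : V) : ℕ → V
  | 0 => v
  | u + 1 => M.next (τ + u) (runState M z τ v u) fun a => z a

/-- The output of `t` steps if the machine is in the state `v` at time `τ`. -/
def runOut {n k : ℕ} {V : Type} (M : Machine n k V) (z : Inp n) (τ : ℕ) (v : V) (t : ℕ) :
    Set (ℕ × Fin n × Fin n) :=
  {o | ∃ u < t, o ∈ M.out (τ + u) (runState M z τ v u) fun a => z a}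

/-- In the computation of the machine, the states after the time `τ`. -/
theorem runState_state {n k : ℕ} {V : Type} (M : Machine n k V) (z : Inp n) (τ u : ℕ) :
    runState M z τ (M.state z τ) u = M.state z (τ + u) := by
  induction u with
  | zero => rfl
  | succ u ih =>
    change M.next (τ + u) (runState M z τ (M.state z τ) u) (fun a => z a) =
      M.next (τ + u) (M.state z (τ + u)) (fun a => z a)
    rw [ih]

private def stp {n k : ℕ} {V : Type} (M : Machine n k V) (x : Inp n) (t : ℕ) (v : V) : V :=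
  M.next t v fun a => x a

private def ou {n k : ℕ} {V : Type} (M : Machine n k V) (x : Inp n) (t : ℕ) (v : V) :
    Set (ℕ × Fin n × Fin n) :=
  M.out t v fun a => x a

private theorem runState_shift {n k : ℕ} {V : Type} (M : Machine n k V) (x : Inp n) (τ : ℕ) (v : V)
    (u : ℕ) : runState M x τ v (u + 1) = runState M x (τ + 1) (stp M x τ v) u := by
  induction u with
  | zero => rfl
  | succ u ih =>
    change stp M x (τ + (u + 1)) (runState M x τ v (u + 1)) =
      stp M x (τ + 1 + u) (runState M x (τ + 1) (stp M x τ v) u)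
    rw [ih, show τ + (u + 1) = τ + 1 + u by omega]

private theorem runOut_succ {n k : ℕ} {V : Type} (M : Machine n k V) (x : Inp n) (τ : ℕ) (v : V)
    (t : ℕ) : runOut M x τ v (t + 1) = ou M x τ v ∪ runOut M x (τ + 1) (stp M x τ v) t := by
  ext o
  constructor
  · rintro ⟨u, hu, ho⟩
    change o ∈ ou M x (τ + u) (runState M x τ v u) at ho
    cases u with
    | zero => exact Or.inl ho
    | succ u =>
      refine Or.inr ⟨u, by omega, ?_⟩
      change o ∈ ou M x (τ + 1 + u) (runState M x (τ + 1) (stp M x τ v) u)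
      rw [runState_shift, show τ + (u + 1) = τ + 1 + u by omega] at ho
      exact ho
  · rintro (ho | ⟨u, hu, ho⟩)
    · exact ⟨0, by omega, ho⟩
    · refine ⟨u + 1, by omega, ?_⟩
      change o ∈ ou M x (τ + (u + 1)) (runState M x τ v (u + 1))
      change o ∈ ou M x (τ + 1 + u) (runState M x (τ + 1) (stp M x τ v) u) at ho
      rw [runState_shift, show τ + (u + 1) = τ + 1 + u by omega]
      exact ho

private theorem runOut_zero {n k : ℕ} {V : Type} (M : Machine n k V) (x : Inp n) (τ : ℕ) (v : V) :
    runOut M x τ v 0 = ∅ := by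
  ext o
  constructor
  · rintro ⟨u, hu, -⟩
    exact absurd hu (Nat.not_lt_zero u)
  · intro h
    exact h.elim

private theorem piecewise_tower {n p : ℕ} (F R : Finset (Fin n)) (z w w' : Om n p) :
    F.piecewise z (R.piecewise w w') = (F ∪ R).piecewise (F.piecewise z w) w' := by
  ext1 i
  by_cases hF : i ∈ F
  · rw [Finset.piecewise_eq_of_mem _ _ _ hF, Finset.piecewise_eq_of_mem _ _ _ (Finset.mem_union_left _ hF),
      Finset.piecewise_eq_of_mem _ _ _ hF]
  · rw [Finset.piecewise_eq_of_notMem _ _ _ hF]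
    by_cases hR : i ∈ R
    · rw [Finset.piecewise_eq_of_mem _ _ _ hR, Finset.piecewise_eq_of_mem _ _ _ (Finset.mem_union_right _ hR),
        Finset.piecewise_eq_of_notMem _ _ _ hF]
    · rw [Finset.piecewise_eq_of_notMem _ _ _ hR, Finset.piecewise_eq_of_notMem]
      rw [Finset.mem_union, not_or]
      exact ⟨hF, hR⟩

private theorem tree_aux {n p : ℕ} (hp : p.Prime) (hn : n < p) (hp2 : p ≤ 2 * n) (hN : 1000 ≤ n)
    {k : ℕ} {V : Type} (M : Machine n k V) (m : ℕ) (hm : 32 * m ≤ n) (t : ℕ) :
    ∀ (F : Finset (Fin n)) (z : Om n p) (C₀ : Set (ℕ × Fin n × Fin n)) (τ : ℕ) (v : V),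
      32 * (F.card + k * t) ≤ n →
      avg (fun ω : Om n p => ind (AllTrue (C₀ ∪ runOut M (inp (F.piecewise z ω)) τ v t) (F.piecewise z ω) ∧
        m ≤ (hits (C₀ ∪ runOut M (inp (F.piecewise z ω)) τ v t) (F.piecewise z ω)).card)) ≤
      3 * Real.exp (-(m : ℝ) / 3300) := by
  have hp0 : 0 < p := hp.pos
  have : Nonempty (Fin (3 * p) × Bool) := ⟨(⟨0, by omega⟩, false)⟩
  have : Nonempty (Om n p) := ⟨fun _ => (⟨0, by omega⟩, false)⟩
  induction t with
  | zero =>
    intro F z C₀ τ v hF
    simp only [runOut_zero, Set.union_empty]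
    exact static_lemma hp hn hp2 hN F (by rw [mul_zero, add_zero] at hF; exact hF) z C₀ m hm
  | succ t ih =>
    intro F z C₀ τ v hF
    have hR : (univ.filter fun i : Fin n => Sum.inl i ∈ M.reads τ v).card ≤ k := by
      refine le_trans ?_ (M.card_reads τ v)
      apply Finset.card_le_card_of_injOn (fun i => Sum.inl i)
      · intro i hi
        exact (Finset.mem_filter.mp hi).2
      · intro i _ j _ h
        exact Sum.inl_injective h
    set R : Finset (Fin n) := univ.filter fun i : Fin n => Sum.inl i ∈ M.reads τ v with hRdef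
    rw [avg_tower R]
    refine avg_le_of_le fun w => ?_
    set z' : Om n p := F.piecewise z w with hz'
    have hagree : ∀ w' : Om n p, ∀ a ∈ M.reads τ v, inp ((F ∪ R).piecewise z' w') a = inp z' a := by
      intro w' a ha
      rcases a with i | j
      · have hi : i ∈ F ∪ R := Finset.mem_union_right _ (by rw [hRdef, Finset.mem_filter]; exact ⟨Finset.mem_univ _, ha⟩)
        have h1 : (F ∪ R).piecewise z' w' i = z' i := Finset.piecewise_eq_of_mem _ _ _ hi
        simp only [inp, Sum.elim_inl, h1]
      · rfl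
    have hfun : ∀ w' : Om n p, (fun a : M.reads τ v => inp ((F ∪ R).piecewise z' w') a) =
        fun a : M.reads τ v => inp z' a := fun w' => funext fun a => hagree w' a a.2
    have hrun : ∀ w' : Om n p, C₀ ∪ runOut M (inp ((F ∪ R).piecewise z' w')) τ v (t + 1) =
        (C₀ ∪ ou M (inp z') τ v) ∪ runOut M (inp ((F ∪ R).piecewise z' w')) (τ + 1) (stp M (inp z') τ v) t := by
      intro w'
      rw [runOut_succ, Set.union_assoc]
      have e1 : ou M (inp ((F ∪ R).piecewise z' w')) τ v = ou M (inp z') τ v := congrArg (M.out τ v) (hfun w')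
      have e2 : stp M (inp ((F ∪ R).piecewise z' w')) τ v = stp M (inp z') τ v := congrArg (M.next τ v) (hfun w')
      rw [e1, e2]
    simp only [piecewise_tower, ← hz', hrun]
    apply ih
    have h1 : (F ∪ R).card ≤ F.card + R.card := Finset.card_union_le F R
    have h2 : k * (t + 1) = k * t + k := by ring
    omega

theorem tree_lemma {n p : ℕ} (hp : p.Prime) (hn : n < p) (hp2 : p ≤ 2 * n) (hN : 1000 ≤ n)
    {k : ℕ} {V : Type} (M : Machine n k V) (t m : ℕ) (ht : 32 * (k * t) ≤ n) (hm : 32 * m ≤ n)
    (τ : ℕ) (v : V) :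
    avg (fun ω : Om n p => ind (AllTrue (runOut M (inp ω) τ v t) ω ∧
      m ≤ (hits (runOut M (inp ω) τ v t) ω).card)) ≤ 3 * Real.exp (-(m : ℝ) / 3300) := by
  have hp0 : 0 < p := hp.pos
  have h := tree_aux hp hn hp2 hN M m hm t ∅ (fun _ => (⟨0, by omega⟩, false)) ∅ τ v (by
    rw [Finset.card_empty, zero_add]
    exact ht)
  simpa only [Finset.piecewise_empty, Set.empty_union] using h

end Pool.Agent.Lib_MP_852c2d_ts
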